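import Pool.Agent.Helper6.Scales

set_option autoImplicit false

/-!
# ARS module SCA: reduction to scales

Copy of `Pool.Agent.ARU.scale_cover` (`ARU/Sca.lean`) with `artinP n` replaced by an arbitrary
monotone nonnegative function and `CA` by `δ₀ ∈ [0, 2]`.
-/

namespace Pool.Agent.ARS

open Pool.Agent.Helper6

theorem scale_cover (δ₀ : ℝ) (h0 : 0 ≤ δ₀) (h2 : δ₀ ≤ 2) (ε : ℝ) (hε : 0 < ε) :
    ∃ lam : ℝ, 1 < lam ∧ ∃ ε' : ℝ, 0 < ε' ∧ ∃ L₀ : ℝ, 1 ≤ L₀ ∧ ∀ f : ℕ → ℝ, Monotone f →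
      (∀ x, 0 ≤ f x) → ∀ lo hi : ℝ, L₀ ≤ lo →
      ∀ x : ℕ, lo ≤ x → (x : ℝ) ≤ hi → ε < |f x / Nat.primeCounting x - δ₀| →
      ∃ j : ℕ, lo / lam ≤ lam ^ j ∧ lam ^ j ≤ lam * hi ∧
        ε' < |f (scl lam j) / Nat.primeCounting (scl lam j) - δ₀| := by
  obtain ⟨lam, hlam, ε', hε', j₁, hred⟩ := scale_reduction δ₀ h0 h2 ε hε
  refine ⟨lam, hlam, ε', hε', lam ^ (j₁ + 1), one_le_pow₀ hlam.le, ?_⟩
  intro f hf hf0 lo hi hlo x hx1 hx2 hbad
  have hlam0 : 0 < lam := by linarith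
  have h1 : (1 : ℝ) ≤ lam ^ (j₁ + 1) := one_le_pow₀ hlam.le
  obtain ⟨j₀, hj1, hj2⟩ := exists_nat_pow_near (h1.trans hlo) hlam
  obtain ⟨J, hJ1, hJ2⟩ := exists_nat_pow_near (h1.trans (hlo.trans (hx1.trans hx2))) hlam
  have hj₀ : j₁ ≤ j₀ := by
    by_contra hcon
    push Not at hcon
    have h2 : lam ^ (j₀ + 1) ≤ lam ^ (j₁ + 1) := pow_le_pow_right₀ hlam.le (by omega)
    linarith
  by_contra hcon
  push Not at hcon
  have h3 := hred j₀ hj₀ f hf hf0 J (by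
    intro j hj hj'
    apply hcon j
    · rw [div_le_iff₀ hlam0]
      calc lo ≤ lam ^ (j₀ + 1) := hj2.le
        _ = lam ^ j₀ * lam := pow_succ _ _
        _ ≤ lam ^ j * lam := by
          apply mul_le_mul_of_nonneg_right _ hlam0.le
          exact pow_le_pow_right₀ hlam.le hj
    · calc lam ^ j ≤ lam ^ (J + 1) := pow_le_pow_right₀ hlam.le hj'
        _ = lam * lam ^ J := pow_succ' _ _
        _ ≤ lam * hi := mul_le_mul_of_nonneg_left hJ1 hlam0.le) x (hj1.trans hx1)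
    (lt_of_le_of_lt hx2 hJ2)
  linarith

/-- from the normalised to the unnormalised deviation -/
lemma unnormalise {p e δ₀ : ℝ} {x : ℕ} {ε' : ℝ} (hpi : (0 : ℝ) < Nat.primeCounting x)
    (h1 : ε' < |p / Nat.primeCounting x - δ₀|)
    (h2 : |e / Nat.primeCounting x - δ₀| ≤ ε' / 2) :
    ε' / 2 * Nat.primeCounting x < |p - e| := by
  have h3 : |p / Nat.primeCounting x - δ₀| ≤
      |p / Nat.primeCounting x - e / Nat.primeCounting x| +
      |e / Nat.primeCounting x - δ₀| := abs_sub_le _ _ _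
  have h4 : ε' / 2 < |p / Nat.primeCounting x - e / Nat.primeCounting x| := by
    linarith
  rw [← sub_div, abs_div, abs_of_pos hpi, lt_div_iff₀ hpi] at h4
  exact h4

end Pool.Agent.ARS
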