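import Pool.Agent.ARS.Defs
import Pool.Agent.ARS.Sca
import Pool.Agent.ARU.Cn2

set_option autoImplicit false

/-!
# ARS module CN2: regime II, all scales, for a family

Copy of `Pool.Agent.ARU.scale_two` (`ARU/Rg2.lean`) and `Pool.Agent.ARU.count_two`
(`ARU/Cn2.lean`) with `artinP (a m)`, `artinEC`, `CA`, `ff a`, `main_error` replaced by the data of
the family: `regime_two` (`ARU/Mt2.lean`) with `P = oddPrimes x` and the function `f`
(`F.per`, `F.mean`, `F.bd`), `F.err2` with `C (1 + log x) ≤ (ε/2) π(x)` for large `x`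
(`Pool.Agent.ARU.log_le_pi (ε / (4 C))` or similar), `F.main` in the place of `main_close`,
`scale_cover` and `unnormalise` of `ARS/Sca.lean` with `F.d0`, `F.d2`, `F.mono`, `F.nonneg`.  The
lemmas `scale_sum`, `exp_absorb`, `scales_absorb` of `ARU/Cn2.lean` can be used as they are.
-/

namespace Pool.Agent.ARS

open Filter Topology Pool.Agent.Helper8.ArtinLS Pool.Agent.Helper6

lemma fam_close {P Dv f : ℕ → ℕ → ℝ} {Em : ℕ → ℝ} {C δ₀ : ℝ} (F : Fam P Dv f Em C δ₀) (ε' : ℝ)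
    (hε : 0 < ε') : ∀ᶠ x : ℕ in atTop, |Em x / Nat.primeCounting x - δ₀| ≤ ε' := by
  have := (F.main.sub_const δ₀).abs
  simp only [sub_self, abs_zero] at this
  filter_upwards [this.eventually (gt_mem_nhds hε)] with x hx
  exact hx.le

lemma fam_log {P Dv f : ℕ → ℕ → ℝ} {Em : ℕ → ℝ} {C δ₀ : ℝ} (F : Fam P Dv f Em C δ₀) (ε : ℝ)
    (hε : 0 < ε) : ∀ᶠ x : ℕ in atTop, C * (1 + Real.log x) ≤ ε * Nat.primeCounting x := by
  have hC : 0 < C := by have := F.one_le; linarith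
  filter_upwards [Pool.Agent.ARU.log_le_pi (ε / C) (by positivity)] with x hx
  have h1 : C * (2 + Real.log x) ≤ C * (ε / C * Nat.primeCounting x) :=
    mul_le_mul_of_nonneg_left hx hC.le
  have h2 : C * (ε / C * Nat.primeCounting x) = ε * Nat.primeCounting x := by field_simp
  rw [h2] at h1
  nlinarith

theorem cn2_scale {P Dv f : ℕ → ℕ → ℝ} {Em : ℕ → ℝ} {C δ₀ : ℝ} (F : Fam P Dv f Em C δ₀)
    (δ ε : ℝ) (hδ : 0 < δ) (hδ1 : δ ≤ 1) (hε : 0 < ε) :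
    ∃ κ : ℝ, 0 < κ ∧ ∃ X₀ : ℕ, 2 ≤ X₀ ∧ ∀ x N : ℕ, X₀ ≤ x → (x : ℝ) ≤ (N : ℝ) ^ (δ / 8) →
      ∀ E : Finset ℕ, (∀ m ∈ E, m ≤ N) →
      (∀ m ∈ E, ε * Nat.primeCounting x < |P m x - Em x|) →
      (E.card : ℝ) ≤ N * Real.exp (-((x : ℝ) ^ κ)) + (N : ℝ) ^ (1 / 2 + δ) := by
  obtain ⟨κ, hκ, X₀, hX₀, h⟩ := Pool.Agent.ARU.regime_two δ (ε / 2) hδ hδ1 (by positivity)
  obtain ⟨X₁, hX₁⟩ := eventually_atTop.mp (fam_log F (ε / 2) (by positivity))
  refine ⟨κ, hκ, max X₀ X₁, hX₀.trans (le_max_left _ _), ?_⟩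
  intro x N hx hxN E hE hbad
  refine h x N ((le_max_left _ _).trans hx) hxN (oddPrimes x) ?_ f ?_ ?_ ?_ E hE ?_
  · intro p hp
    rw [mem_oddPrimes] at hp
    exact ⟨hp.2.1, hp.1⟩
  · intro p _ n
    exact F.per p n
  · intro p hp
    rw [mem_oddPrimes] at hp
    exact F.mean p hp.2.1 hp.2.2
  · intro p _ n
    exact F.bd p n
  · intro m hm
    have h1 := hbad m hm
    have h2 := hX₁ x ((le_max_right _ _).trans hx)
    have h3 := F.err2 m x (by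
      have : X₀ ≤ x := (le_max_left _ _).trans hx
      omega)
    have h4 : |P m x - Em x| ≤
        |P m x - Em x - ∑ p ∈ oddPrimes x, f p m| + |∑ p ∈ oddPrimes x, f p m| := by
      have := abs_add_le (P m x - Em x - ∑ p ∈ oddPrimes x, f p m) (∑ p ∈ oddPrimes x, f p m)
      simpa using this
    linarith

/-- The number of `m ≤ N` which are bad at some `x` with `Y ≤ x ≤ N ^ (δ / 20)`. -/
theorem count_two {P Dv f : ℕ → ℕ → ℝ} {Em : ℕ → ℝ} {C δ₀ : ℝ} (F : Fam P Dv f Em C δ₀)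
    (δ ε : ℝ) (hδ : 0 < δ) (hδ1 : δ ≤ 1) (hε : 0 < ε) :
    ∃ κ : ℝ, 0 < κ ∧ ∃ Y₀ : ℕ, ∀ N Y : ℕ, Y₀ ≤ Y → ∀ E : Finset ℕ, (∀ m ∈ E, m ≤ N) →
      (∀ m ∈ E, ∃ x : ℕ, Y ≤ x ∧ (x : ℝ) ≤ (N : ℝ) ^ (δ / 20) ∧
        ε < |P m x / Nat.primeCounting x - δ₀|) →
      (E.card : ℝ) ≤ N * Real.exp (-((Y : ℝ) ^ κ)) + (N : ℝ) ^ (1 / 2 + δ) := by
  classical
  obtain ⟨lam, hlam, ε', hε', L₀, hL₀, hcov⟩ := scale_cover δ₀ F.d0 F.d2 ε hε
  obtain ⟨κ₀, hκ₀, X₀, hX₀2, hsc⟩ := cn2_scale F (δ / 2) (ε' / 2) (by positivity) (by linarith)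
    (by positivity)
  obtain ⟨X₂, hX₂⟩ := eventually_atTop.mp (fam_close F (ε' / 2) (by positivity))
  obtain ⟨K, hK, hsum⟩ := Pool.Agent.ARU.scale_sum lam κ₀ hlam hκ₀
  have hlam0 : 0 < lam := by linarith
  have hll : 0 < Real.log lam := Real.log_pos hlam
  obtain ⟨N₁, hN₁⟩ := eventually_atTop.mp (Pool.Agent.ARU.scales_absorb lam (δ / 2) hlam (by positivity))
  have hcast : Tendsto (fun Y : ℕ => (Y : ℝ)) atTop atTop := tendsto_natCast_atTop_atTop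
  obtain ⟨Y₀, hY₀⟩ := eventually_atTop.mp ((Pool.Agent.ARU.exp_absorb K lam κ₀ hK hlam hκ₀).and
    ((hcast.eventually_ge_atTop (max L₀ (lam ^ 4))).and
      ((hcast.eventually_ge_atTop (lam * (max X₀ X₂ : ℕ))).and (eventually_ge_atTop N₁))))
  refine ⟨κ₀ / 2, by positivity, Y₀, ?_⟩
  intro N Y hY E hE hbad
  obtain ⟨g1, g2, g3, g4⟩ := hY₀ Y hY
  have hN0' : (0 : ℝ) ≤ N := Nat.cast_nonneg N
  rcases Finset.eq_empty_or_nonempty E with rfl | ⟨m₀, hm₀⟩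
  · rw [Finset.card_empty, Nat.cast_zero]
    positivity
  obtain ⟨x₀, hx₀1, hx₀2, _⟩ := hbad m₀ hm₀
  have hYL : L₀ ≤ (Y : ℝ) := (le_max_left _ _).trans g2
  have hYlam : lam ^ 4 ≤ (Y : ℝ) := (le_max_right _ _).trans g2
  have hY1 : (1 : ℝ) ≤ Y := hL₀.trans hYL
  have hYN : (Y : ℝ) ≤ (N : ℝ) ^ (δ / 20) := by
    have : (Y : ℝ) ≤ x₀ := by exact_mod_cast hx₀1
    linarith
  have hN1 : 1 ≤ N := by
    rcases Nat.eq_zero_or_pos N with h0 | h0
    · rw [h0, Nat.cast_zero, Real.zero_rpow (by positivity)] at hYN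
      linarith
    · exact h0
  have hNr : (1 : ℝ) ≤ N := by exact_mod_cast hN1
  have hN0 : (0 : ℝ) < N := by linarith
  have hYN2 : (Y : ℝ) ≤ N := by
    calc (Y : ℝ) ≤ (N : ℝ) ^ (δ / 20) := hYN
      _ ≤ (N : ℝ) ^ (1 : ℝ) := Real.rpow_le_rpow_of_exponent_le hNr (by linarith)
      _ = N := Real.rpow_one _
  have hNN₁ : N₁ ≤ N := g4.trans (by exact_mod_cast hYN2)
  have hlamN : lam ≤ (N : ℝ) ^ (δ / 80) := by
    have h1 : lam ^ 4 ≤ ((N : ℝ) ^ (δ / 80)) ^ 4 := by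
      have h2 : ((N : ℝ) ^ (δ / 80)) ^ 4 = (N : ℝ) ^ (δ / 20) := by
        rw [← Real.rpow_natCast, ← Real.rpow_mul hN0.le]; congr 1; push_cast; ring
      rw [h2]; linarith
    exact le_of_pow_le_pow_left₀ (by norm_num) (by positivity) h1
  set hi : ℝ := (N : ℝ) ^ (δ / 20) with hhi
  have hlamhi : lam * hi ≤ (N : ℝ) ^ (δ / 2 / 8) := by
    calc lam * hi ≤ (N : ℝ) ^ (δ / 80) * (N : ℝ) ^ (δ / 20) := by gcongr
      _ = (N : ℝ) ^ (δ / 2 / 8) := by rw [← Real.rpow_add hN0]; congr 1; ring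
  set J : ℕ := ⌊Real.log N / Real.log lam⌋₊ + 1 with hJ
  set S : Finset ℕ := (Finset.range (J + 1)).filter
    (fun j => (Y : ℝ) / lam ≤ lam ^ j ∧ lam ^ j ≤ lam * hi) with hS
  set Fs : ℕ → Finset ℕ := fun j => E.filter (fun m => ε' <
    |P m (scl lam j) / Nat.primeCounting (scl lam j) - δ₀|) with hFs
  have hcover : E ⊆ S.biUnion Fs := by
    intro m hm
    obtain ⟨x, hx1, hx2, hx3⟩ := hbad m hm
    obtain ⟨j, hj1, hj2, hj3⟩ := hcov (P m) (F.mono m) (F.nonneg m) Y hi hYL x (by exact_mod_cast hx1) hx2 hx3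
    rw [Finset.mem_biUnion]
    refine ⟨j, ?_, ?_⟩
    · rw [hS, Finset.mem_filter, Finset.mem_range]
      refine ⟨?_, hj1, hj2⟩
      have h1 : lam ^ j ≤ lam * N := by
        calc lam ^ j ≤ lam * hi := hj2
          _ ≤ lam * N := by
            gcongr
            calc hi ≤ (N : ℝ) ^ (1 : ℝ) := Real.rpow_le_rpow_of_exponent_le hNr (by linarith)
              _ = N := Real.rpow_one _
      have h2 := Real.log_le_log (by positivity) h1
      rw [Real.log_pow, Real.log_mul hlam0.ne' hN0.ne'] at h2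
      have h3 : (j : ℝ) ≤ 1 + Real.log N / Real.log lam := by
        have : (j : ℝ) * Real.log lam ≤ (1 + Real.log N / Real.log lam) * Real.log lam := by
          rw [add_mul, div_mul_cancel₀ _ hll.ne', one_mul]
          linarith
        exact le_of_mul_le_mul_right this hll
      have h4 : Real.log N / Real.log lam < (⌊Real.log N / Real.log lam⌋₊ : ℝ) + 1 :=
        Nat.lt_floor_add_one _
      have h5 : (j : ℝ) < ((J + 1 : ℕ) : ℝ) := by
        rw [hJ]; push_cast; linarith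
      exact_mod_cast h5
    · rw [hFs, Finset.mem_filter]
      exact ⟨hm, hj3⟩
  have hmaxY : ((max X₀ X₂ : ℕ) : ℝ) ≤ (Y : ℝ) / lam := by
    rw [le_div_iff₀ hlam0, mul_comm]
    exact g3
  have hFj : ∀ j ∈ S, ((Fs j).card : ℝ) ≤
      N * Real.exp (-((lam ^ j / 2) ^ κ₀)) + (N : ℝ) ^ (1 / 2 + δ / 2) := by
    intro j hj
    rw [hS, Finset.mem_filter] at hj
    obtain ⟨_, hj1, hj2⟩ := hj
    set x : ℕ := scl lam j with hx
    have hxmax : max X₀ X₂ ≤ x := by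
      rw [hx]; unfold scl
      exact Nat.le_floor (hmaxY.trans hj1)
    have hxX₀ : X₀ ≤ x := (le_max_left _ _).trans hxmax
    have hxX₂ : X₂ ≤ x := (le_max_right _ _).trans hxmax
    have hx2 : 2 ≤ x := hX₀2.trans hxX₀
    have hpi := primeCounting_pos hx2
    have hxle : (x : ℝ) ≤ lam ^ j := by
      rw [hx]; unfold scl
      exact Nat.floor_le (by positivity)
    have hxge : lam ^ j / 2 ≤ x := by
      have h1 : lam ^ j < (x : ℝ) + 1 := by
        rw [hx]; unfold scl; exact Nat.lt_floor_add_one _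
      have h2 : (2 : ℝ) ≤ x := by exact_mod_cast hx2
      linarith
    have h1 := hsc x N hxX₀ (hxle.trans (hj2.trans hlamhi)) (Fs j)
      (fun m hm => hE m (Finset.mem_filter.mp hm).1)
      (fun m hm => unnormalise hpi (Finset.mem_filter.mp hm).2 (hX₂ x hxX₂))
    refine h1.trans ?_
    have h2 : Real.exp (-((x : ℝ) ^ κ₀)) ≤ Real.exp (-((lam ^ j / 2) ^ κ₀)) := by
      apply Real.exp_le_exp.mpr
      have := Real.rpow_le_rpow (by positivity) hxge hκ₀.le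
      linarith
    gcongr
  have hsumS := hsum S (((Y : ℝ) / lam / 2) ^ κ₀) (by
    intro j hj
    rw [hS, Finset.mem_filter] at hj
    apply Real.rpow_le_rpow (by positivity) _ hκ₀.le
    linarith [hj.2.1])
  have hScard : (S.card : ℝ) ≤ (N : ℝ) ^ (δ / 2) := by
    refine le_trans ?_ (hN₁ N hNN₁)
    have h1 : S.card ≤ J + 1 := (Finset.card_filter_le _ _).trans (by simp)
    exact_mod_cast h1
  calc (E.card : ℝ) ≤ ((S.biUnion Fs).card : ℝ) := by exact_mod_cast Finset.card_le_card hcover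
    _ ≤ ((∑ j ∈ S, (Fs j).card : ℕ) : ℝ) := by exact_mod_cast Finset.card_biUnion_le
    _ = ∑ j ∈ S, ((Fs j).card : ℝ) := by push_cast; rfl
    _ ≤ ∑ j ∈ S, (N * Real.exp (-((lam ^ j / 2) ^ κ₀)) + (N : ℝ) ^ (1 / 2 + δ / 2)) :=
        Finset.sum_le_sum hFj
    _ = N * ∑ j ∈ S, Real.exp (-((lam ^ j / 2) ^ κ₀)) + S.card * (N : ℝ) ^ (1 / 2 + δ / 2) := by
        rw [Finset.sum_add_distrib, ← Finset.mul_sum, Finset.sum_const, nsmul_eq_mul]
    _ ≤ N * Real.exp (-((Y : ℝ) ^ (κ₀ / 2))) + (N : ℝ) ^ (δ / 2) * (N : ℝ) ^ (1 / 2 + δ / 2) := by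
        gcongr
        exact hsumS.trans g1
    _ = N * Real.exp (-((Y : ℝ) ^ (κ₀ / 2))) + (N : ℝ) ^ (1 / 2 + δ) := by
        rw [← Real.rpow_add hN0]; congr 2; ring

end Pool.Agent.ARS
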