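import Pool.Agent.ARS.Rgb
import Pool.Agent.ARS.Sca
import Pool.Agent.ARS.Cn2
import Pool.Agent.ARU.Cn4

set_option autoImplicit false

/-!
# ARS module CNB: all scales, range `exp ((log N)^B)`, for a family

Copy of `Pool.Agent.ARU.count_four` (`ARU/Cn4.lean`) with `scale_four` replaced by `scale_B`
(module RGB, stub) applied to `g = fun m => Dv m x` with `F.sieve x`, and `scale_cover`,
`unnormalise` of `ARS/Sca.lean`, `F.main` in the place of `main_close`.  From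
`(ε'/2) π(x) < |P m x - Em x|` one passes to `(ε'/4) π(x) ≤ |Dv m x|` by `F.err` and
`C (1 + log m) ≤ C (1 + log x) ≤ (ε'/4) π(x)` (`m ≤ N ≤ x`, `x` large:
`Pool.Agent.ARU.log_le_pi`, `2 + log x ≤ η π(x)` eventually, in `ARU/Rg2.lean`).  The lemma
`Pool.Agent.ARU.log_pow_absorb'` can be used as it is.
-/

namespace Pool.Agent.ARS

open Filter Topology Pool.Agent.Helper8.ArtinLS Pool.Agent.Helper6

lemma fam_dev {P Dv f : ℕ → ℕ → ℝ} {Em : ℕ → ℝ} {C δ₀ : ℝ} (F : Fam P Dv f Em C δ₀) {ε' : ℝ}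
    {m x : ℕ} (hm : 1 ≤ m) (hx : 1 ≤ x) (hmx : (m : ℝ) ≤ x)
    (hlog : C * (1 + Real.log x) ≤ ε' / 4 * Nat.primeCounting x)
    (hbad : ε' / 2 * Nat.primeCounting x < |P m x - Em x|) :
    ε' / 4 * Nat.primeCounting x ≤ |Dv m x| := by
  have h1 := F.err m x hm hx
  have hm0 : (0 : ℝ) < m := by exact_mod_cast hm
  have h2 : Real.log m ≤ Real.log x := Real.log_le_log hm0 hmx
  have hC := F.one_le
  have h3 : C * (1 + Real.log m) ≤ C * (1 + Real.log x) := by
    apply mul_le_mul_of_nonneg_left _ (by linarith)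
    linarith
  have h4 : |P m x - Em x| ≤ |P m x - Em x - Dv m x| + |Dv m x| := by
    have := abs_add_le (P m x - Em x - Dv m x) (Dv m x)
    simpa using this
  linarith

/-- The number of `m ≤ N` which are bad at some `x` with `N ^ A ≤ x ≤ exp ((log N) ^ B)`. -/
theorem count_B {P Dv f : ℕ → ℕ → ℝ} {Em : ℕ → ℝ} {C δ₀ : ℝ} (F : Fam P Dv f Em C δ₀)
    (B δ ε : ℝ) (hB : 1 ≤ B) (hδ : 0 < δ) (hδ1 : δ ≤ 1) (hε : 0 < ε) :
    ∃ A : ℝ, 0 < A ∧ ∃ N₀ : ℕ, ∀ N : ℕ, N₀ ≤ N → ∀ E : Finset ℕ, (∀ m ∈ E, 1 ≤ m ∧ m ≤ N) →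
      (∀ m ∈ E, ∃ x : ℕ, (N : ℝ) ^ A ≤ x ∧ (x : ℝ) ≤ Real.exp ((Real.log N) ^ B) ∧
        ε < |P m x / Nat.primeCounting x - δ₀|) →
      (E.card : ℝ) ≤ (N : ℝ) ^ (1 - 1 / (2 * B) + δ) := by
  classical
  obtain ⟨lam, hlam, ε', hε', L₀, hL₀, hcov⟩ := scale_cover δ₀ F.d0 F.d2 ε hε
  have hB0 : 0 < B := by linarith
  obtain ⟨A, hA, N₂, hN₂2, hsc⟩ := scale_B (B + δ / 4) (δ / 4) (ε' / 4) (by linarith)
    (by positivity) (by linarith) (by positivity)
  obtain ⟨X₂, hX₂⟩ := eventually_atTop.mp ((fam_close F (ε' / 2) (by positivity)).and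
    (fam_log F (ε' / 4) (by positivity)))
  have hlam0 : 0 < lam := by linarith
  have hll : 0 < Real.log lam := Real.log_pos hlam
  have hcast : Tendsto (fun N : ℕ => (N : ℝ)) atTop atTop := tendsto_natCast_atTop_atTop
  have hlog : Tendsto (fun N : ℕ => Real.log (N : ℝ)) atTop atTop :=
    Real.tendsto_log_atTop.comp hcast
  have hNA : Tendsto (fun N : ℕ => (N : ℝ) ^ A) atTop atTop := (tendsto_rpow_atTop hA).comp hcast
  have hlt : Tendsto (fun N : ℕ => (Real.log N) ^ B) atTop atTop :=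
    (tendsto_rpow_atTop (by positivity)).comp hlog
  have hlt2 : Tendsto (fun N : ℕ => (Real.log N) ^ (δ / 4)) atTop atTop :=
    (tendsto_rpow_atTop (by positivity)).comp hlog
  obtain ⟨N₀, hN₀⟩ := eventually_atTop.mp
    (((Pool.Agent.ARU.log_pow_absorb' lam (B + δ / 4) (δ / 2) hlam (by positivity)).and
      (eventually_ge_atTop (max N₂ 3))).and
    (((hcast.eventually_ge_atTop (2 * lam)).and ((hNA.eventually_ge_atTop (max L₀ (max X₂ 2 : ℕ))).and
      (hNA.eventually_ge_atTop (2 * lam)))).and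
      (((hlt.eventually_ge_atTop (Real.log lam)).and (hlt2.eventually_ge_atTop 2)).and
        (hlog.eventually_ge_atTop 1))))
  refine ⟨A + 1, by positivity, N₀, ?_⟩
  intro N hN E hE hbad
  obtain ⟨⟨g1, g2⟩, ⟨g3, g4, g4'⟩, ⟨g5, g6⟩, g7⟩ := hN₀ N hN
  have hNN₂ : N₂ ≤ N := (le_max_left _ _).trans g2
  have hN3 : 3 ≤ N := (le_max_right _ _).trans g2
  have hNr : (1 : ℝ) ≤ N := by exact_mod_cast (by omega : 1 ≤ N)
  have hN0 : (0 : ℝ) < N := by linarith
  have hNAL : L₀ ≤ (N : ℝ) ^ A := (le_max_left _ _).trans g4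
  have hNAX : ((max X₂ 2 : ℕ) : ℝ) ≤ (N : ℝ) ^ A := (le_max_right _ _).trans g4
  set L : ℝ := Real.log N with hL
  have hL0 : 0 < L := by linarith
  set hi : ℝ := Real.exp (L ^ B) with hhi
  have hL2 : L ^ (B + δ / 4) = L ^ B * L ^ (δ / 4) := by
    rw [← Real.rpow_add hL0]
  have hpow0 : 0 < L ^ B := Real.rpow_pos_of_pos hL0 _
  have hlamhi : lam * hi ≤ Real.exp (L ^ (B + δ / 4)) := by
    calc lam * hi = Real.exp (Real.log lam) * Real.exp (L ^ B) := by
          rw [Real.exp_log hlam0]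
      _ = Real.exp (Real.log lam + L ^ B) := by rw [Real.exp_add]
      _ ≤ Real.exp (L ^ (B + δ / 4)) := by
          apply Real.exp_le_exp.mpr
          rw [hL2]
          nlinarith
  set lo : ℝ := (N : ℝ) ^ (A + 1) with hlo
  have hloNA : (N : ℝ) ^ A + 1 ≤ lo / lam := by
    rw [hlo, Real.rpow_add hN0, Real.rpow_one, le_div_iff₀ hlam0]
    have h1 : (1 : ℝ) ≤ (N : ℝ) ^ A := Real.one_le_rpow hNr hA.le
    nlinarith
  have hloN : (N : ℝ) + 1 ≤ lo / lam := by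
    rw [hlo, Real.rpow_add hN0, Real.rpow_one, le_div_iff₀ hlam0]
    nlinarith
  have hloL : L₀ ≤ lo := by
    have h1 : lo / lam ≤ lo := div_le_self (by positivity) hlam.le
    linarith
  set J : ℕ := ⌊L ^ (B + δ / 4) / Real.log lam⌋₊ + 1 with hJ
  set S : Finset ℕ := (Finset.range (J + 1)).filter
    (fun j => lo / lam ≤ lam ^ j ∧ lam ^ j ≤ lam * hi) with hS
  set Fs : ℕ → Finset ℕ := fun j => E.filter (fun m => ε' <
    |P m (scl lam j) / Nat.primeCounting (scl lam j) - δ₀|) with hFs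
  have hcover : E ⊆ S.biUnion Fs := by
    intro m hm
    obtain ⟨x, hx1, hx2, hx3⟩ := hbad m hm
    obtain ⟨j, hj1, hj2, hj3⟩ := hcov (P m) (F.mono m) (F.nonneg m) lo hi hloL x hx1 hx2 hx3
    rw [Finset.mem_biUnion]
    refine ⟨j, ?_, ?_⟩
    · rw [hS, Finset.mem_filter, Finset.mem_range]
      refine ⟨?_, hj1, hj2⟩
      have h2 := Real.log_le_log (by positivity) (hj2.trans hlamhi)
      rw [Real.log_pow, Real.log_exp] at h2
      have h3 : (j : ℝ) ≤ L ^ (B + δ / 4) / Real.log lam := by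
        rw [le_div_iff₀ hll]; exact h2
      have h4 : j ≤ ⌊L ^ (B + δ / 4) / Real.log lam⌋₊ := Nat.le_floor h3
      omega
    · rw [hFs, Finset.mem_filter]
      exact ⟨hm, hj3⟩
  have hFj : ∀ j ∈ S, ((Fs j).card : ℝ) ≤ (N : ℝ) ^ (1 - 1 / (2 * (B + δ / 4)) + δ / 4) := by
    intro j hj
    rw [hS, Finset.mem_filter] at hj
    obtain ⟨_, hj1, hj2⟩ := hj
    set x : ℕ := scl lam j with hx
    have hxle : (x : ℝ) ≤ lam ^ j := by
      rw [hx]; unfold scl
      exact Nat.floor_le (by positivity)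
    have hxge : (N : ℝ) ^ A ≤ x := by
      have h1 : lam ^ j < (x : ℝ) + 1 := by
        rw [hx]; unfold scl; exact Nat.lt_floor_add_one _
      linarith
    have hxmax : max X₂ 2 ≤ x := by exact_mod_cast hNAX.trans hxge
    have hxX₂ : X₂ ≤ x := (le_max_left _ _).trans hxmax
    have hx2 : 2 ≤ x := (le_max_right _ _).trans hxmax
    have hpi := primeCounting_pos hx2
    have hxN : (N : ℝ) ≤ x := by
      have h1 : lam ^ j < (x : ℝ) + 1 := by
        rw [hx]; unfold scl; exact Nat.lt_floor_add_one _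
      linarith
    refine hsc x N hNN₂ hxge (hxle.trans (hj2.trans hlamhi)) (fun m => Dv m x)
      (F.sieve x (by omega)) (Fs j) (fun m hm => hE m (Finset.mem_filter.mp hm).1) ?_
    intro m hm
    exact fam_dev F (hE m (Finset.mem_filter.mp hm).1).1 (by omega)
      (le_trans (by exact_mod_cast (hE m (Finset.mem_filter.mp hm).1).2) hxN) (hX₂ x hxX₂).2
      (unnormalise hpi (Finset.mem_filter.mp hm).2 (hX₂ x hxX₂).1)
  have hScard : (S.card : ℝ) ≤ (N : ℝ) ^ (δ / 2) := by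
    refine le_trans ?_ g1
    have h1 : S.card ≤ J + 1 := (Finset.card_filter_le _ _).trans (by simp)
    exact_mod_cast h1
  calc (E.card : ℝ) ≤ ((S.biUnion Fs).card : ℝ) := by exact_mod_cast Finset.card_le_card hcover
    _ ≤ ((∑ j ∈ S, (Fs j).card : ℕ) : ℝ) := by exact_mod_cast Finset.card_biUnion_le
    _ = ∑ j ∈ S, ((Fs j).card : ℝ) := by push_cast; rfl
    _ ≤ ∑ j ∈ S, (N : ℝ) ^ (1 - 1 / (2 * (B + δ / 4)) + δ / 4) := Finset.sum_le_sum hFj
    _ = S.card * (N : ℝ) ^ (1 - 1 / (2 * (B + δ / 4)) + δ / 4) := by rw [Finset.sum_const, nsmul_eq_mul]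
    _ ≤ (N : ℝ) ^ (δ / 2) * (N : ℝ) ^ (1 - 1 / (2 * (B + δ / 4)) + δ / 4) := by gcongr
    _ = (N : ℝ) ^ (δ / 2 + (1 - 1 / (2 * (B + δ / 4)) + δ / 4)) := by rw [← Real.rpow_add hN0]
    _ ≤ (N : ℝ) ^ (1 - 1 / (2 * B) + δ) := by
        apply Real.rpow_le_rpow_of_exponent_le hNr
        have h1 : 1 / (2 * B) - 1 / (2 * (B + δ / 4)) ≤ δ / 8 := by
          rw [div_sub_div _ _ (by positivity) (by positivity), div_le_iff₀ (by positivity)]
          nlinarith [mul_nonneg hδ.le (sub_nonneg.mpr hB), mul_nonneg hδ.le hδ.le,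
            mul_nonneg (mul_nonneg hδ.le hδ.le) (sub_nonneg.mpr hB),
            mul_nonneg (mul_nonneg hδ.le hB0.le) (sub_nonneg.mpr hB)]
        linarith

end Pool.Agent.ARS
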