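import Pool.Agent.ARS.Nsa
import Pool.Agent.Helper35.Primes

set_option autoImplicit false

/-!
# ARS module NSC: the mean value of `hh` with weight `log`

`log n = ∑_{d ∣ n} Λ(d)` (`ArithmeticFunction.vonMangoldt_sum`), `hh` completely multiplicative:
`∑_{n ≤ N} hh n log n = ∑_{m ≤ N} hh m ∑_{d ≤ N/m} hh d Λ(d)` (pairs `n = m d`).
Claim: `∑_{d ≤ D} hh d Λ(d) ≤ C D` for all `D ≥ 1`.  Split the `d` into primes and other prime
powers: for a prime `d = p`, `hh p ≤ e` (`p^α ≤ z^α = exp (α log z) ≤ e` for `p < z`) and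
`∑_{p ≤ D} log p ≤ log 4 * D` (`Pool.Agent.Helper35.theta_prm`).  For `d = p^k ≤ D` with `k ≥ 2`:
`hh d ≤ d^α ≤ D^(1/4)`, and `∑_{d ≤ D, d not prime} Λ(d) = ψ(D) - θ(D) ≤ C D^(1/2) log D`
(Mathlib `Mathlib.NumberTheory.Chebyshev`, e.g. `Chebyshev.abs_psi_sub_theta_le_sqrt_mul_log` or
similar; or directly: `p ≤ D^(1/2)` and every such `p` contributes at most `log D`), so this part is
at most `C D^(3/4) log D ≤ C' D`.
Hence the double sum is at most `∑_m hh m C (N/m)`.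
-/

namespace Pool.Agent.ARS

open ArithmeticFunction in
private lemma nsc_D (D z : ℕ) (α : ℝ) (hD : 1 ≤ D) (hz : 2 ≤ z) (hα : 0 ≤ α) (hα4 : α ≤ 1 / 4)
    (hαz : α * Real.log z ≤ 1) :
    ∑ d ∈ Finset.Ioc 0 D, hh z α d * vonMangoldt d ≤ 20 * D := by
  have hD0 : (0 : ℝ) < D := by exact_mod_cast (by omega : 0 < D)
  have hD1 : (1 : ℝ) ≤ D := by exact_mod_cast hD
  have hz0 : (0 : ℝ) < z := by exact_mod_cast (by omega : 0 < z)
  have h1 : ∑ d ∈ Finset.Ioc 0 D, hh z α d * vonMangoldt d =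
      ∑ d ∈ (Finset.Ioc 0 D).filter Nat.Prime, hh z α d * vonMangoldt d +
      ∑ d ∈ (Finset.Ioc 0 D).filter (fun n => ¬ n.Prime), hh z α d * vonMangoldt d :=
    (Finset.sum_filter_add_sum_filter_not _ _ _).symm
  have hprime : ∑ d ∈ (Finset.Ioc 0 D).filter Nat.Prime, hh z α d * vonMangoldt d ≤
      Real.exp 1 * (Real.log 4 * D) := by
    have h2 := Chebyshev.theta_le_log4_mul_x (x := (D : ℝ)) (by positivity)
    unfold Chebyshev.theta at h2
    rw [Nat.floor_natCast] at h2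
    refine le_trans ?_ (mul_le_mul_of_nonneg_left h2 (Real.exp_pos 1).le)
    rw [Finset.mul_sum]
    refine Finset.sum_le_sum fun p hp => ?_
    have hpp : p.Prime := (Finset.mem_filter.1 hp).2
    rw [vonMangoldt_apply_prime hpp, hh_prime z α hpp]
    have hlog : 0 ≤ Real.log p := Real.log_nonneg (by exact_mod_cast hpp.one_lt.le)
    refine mul_le_mul_of_nonneg_right ?_ hlog
    split_ifs with hpz
    · have hp0 : (0 : ℝ) < p := by exact_mod_cast hpp.pos
      calc (p : ℝ) ^ α ≤ (z : ℝ) ^ α :=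
            Real.rpow_le_rpow hp0.le (by exact_mod_cast hpz.le) hα
        _ = Real.exp (Real.log z * α) := Real.rpow_def_of_pos hz0 _
        _ ≤ Real.exp 1 := Real.exp_le_exp.2 (by linarith)
    · exact Real.one_le_exp (by norm_num)
  have hnot : ∑ d ∈ (Finset.Ioc 0 D).filter (fun n => ¬ n.Prime), hh z α d * vonMangoldt d ≤
      8 * D := by
    have h2 := Chebyshev.psi_sub_theta_le (x := (D : ℝ)) hD1
    rw [Chebyshev.psi_sub_theta_eq_sum_not_prime, Nat.floor_natCast] at h2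
    have h3 : ∑ d ∈ (Finset.Ioc 0 D).filter (fun n => ¬ n.Prime), hh z α d * vonMangoldt d ≤
        (D : ℝ) ^ (1 / 4 : ℝ) *
          ∑ d ∈ (Finset.Ioc 0 D).filter (fun n => ¬ n.Prime), vonMangoldt d := by
      rw [Finset.mul_sum]
      refine Finset.sum_le_sum fun d hd => ?_
      have hd' := (Finset.mem_filter.1 hd).1
      rw [Finset.mem_Ioc] at hd'
      have hd1 : (1 : ℝ) ≤ d := by exact_mod_cast hd'.1
      refine mul_le_mul_of_nonneg_right ?_ vonMangoldt_nonneg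
      calc hh z α d ≤ (d : ℝ) ^ α := hh_le z α hα (by omega)
        _ ≤ (d : ℝ) ^ (1 / 4 : ℝ) := Real.rpow_le_rpow_of_exponent_le hd1 hα4
        _ ≤ (D : ℝ) ^ (1 / 4 : ℝ) :=
            Real.rpow_le_rpow (by positivity) (by exact_mod_cast hd'.2) (by norm_num)
    have h4 : Real.log D ≤ 4 * (D : ℝ) ^ (1 / 4 : ℝ) := by
      have h5 := Real.log_le_rpow_div hD0.le (show (0 : ℝ) < 1 / 4 by norm_num)
      linarith
    calc _ ≤ (D : ℝ) ^ (1 / 4 : ℝ) *
          ∑ d ∈ (Finset.Ioc 0 D).filter (fun n => ¬ n.Prime), vonMangoldt d := h3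
      _ ≤ (D : ℝ) ^ (1 / 4 : ℝ) * (2 * √(D : ℝ) * Real.log D) := by gcongr
      _ ≤ (D : ℝ) ^ (1 / 4 : ℝ) * (2 * √(D : ℝ) * (4 * (D : ℝ) ^ (1 / 4 : ℝ))) := by gcongr
      _ = 8 * ((D : ℝ) ^ (1 / 4 : ℝ) * (D : ℝ) ^ (1 / 4 : ℝ) * (D : ℝ) ^ (1 / 2 : ℝ)) := by
          rw [Real.sqrt_eq_rpow]
          ring
      _ = 8 * D := by
          rw [← Real.rpow_add hD0, ← Real.rpow_add hD0]
          norm_num
  have he : Real.exp 1 ≤ 3 := by linarith [Real.exp_one_lt_d9]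
  have hl4 : Real.log 4 ≤ 2 := by
    have : Real.log 4 = 2 * Real.log 2 := by
      rw [show (4 : ℝ) = 2 ^ 2 by norm_num, Real.log_pow]
      norm_num
    rw [this]
    linarith [Real.log_two_lt_d9]
  have hl40 : 0 ≤ Real.log 4 := Real.log_nonneg (by norm_num)
  rw [h1]
  have h6 : Real.exp 1 * (Real.log 4 * D) ≤ 3 * (2 * D) := by gcongr
  linarith

open ArithmeticFunction in
theorem sum_hh_log : ∃ C : ℝ, 0 < C ∧ ∀ (N z : ℕ) (α : ℝ), 1 ≤ N → 2 ≤ z → 0 ≤ α → α ≤ 1 / 4 →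
    α * Real.log z ≤ 1 →
    ∑ n ∈ Finset.Icc 1 N, hh z α n * Real.log n ≤
      C * N * ∑ m ∈ Finset.Icc 1 N, hh z α m / m := by
  refine ⟨20, by norm_num, fun N z α hN hz hα hα4 hαz => ?_⟩
  set F : ArithmeticFunction ℝ := ⟨fun n => if n = 0 then 0 else hh z α n, by simp⟩ with hF
  set G : ArithmeticFunction ℝ := ⟨fun n => if n = 0 then 0 else hh z α n * vonMangoldt n,
    by simp⟩ with hG
  have hFn : ∀ n : ℕ, n ≠ 0 → F n = hh z α n := by
    intro n hn
    change (if n = 0 then 0 else hh z α n) = _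
    rw [if_neg hn]
  have hGn : ∀ n : ℕ, n ≠ 0 → G n = hh z α n * vonMangoldt n := by
    intro n hn
    change (if n = 0 then 0 else hh z α n * vonMangoldt n) = _
    rw [if_neg hn]
  have hIcc : Finset.Icc 1 N = Finset.Ioc 0 N := by
    ext n
    rw [Finset.mem_Icc, Finset.mem_Ioc]
    omega
  have h1 : ∀ n ∈ Finset.Ioc 0 N, hh z α n * Real.log n = (F * G) n := by
    intro n hn
    have hn0 : n ≠ 0 := by
      rw [Finset.mem_Ioc] at hn
      omega
    rw [mul_apply, ← vonMangoldt_sum, Finset.mul_sum]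
    have h2 := Nat.sum_divisorsAntidiagonal' (n := n) (fun _ b => hh z α n * vonMangoldt b)
    rw [← h2]
    refine Finset.sum_congr rfl fun ab hab => ?_
    rw [Nat.mem_divisorsAntidiagonal] at hab
    have ha : ab.1 ≠ 0 := by
      rintro h0
      rw [h0, zero_mul] at hab
      exact hn0 hab.1.symm
    have hb : ab.2 ≠ 0 := by
      rintro h0
      rw [h0, mul_zero] at hab
      exact hn0 hab.1.symm
    rw [hFn _ ha, hGn _ hb, ← hab.1, hh_mul z α ha hb]
    ring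
  rw [hIcc, Finset.sum_congr rfl h1, sum_Ioc_mul_eq_sum_sum, Finset.mul_sum]
  refine Finset.sum_le_sum fun m hm => ?_
  rw [Finset.mem_Ioc] at hm
  have hm0 : (0 : ℝ) < m := by exact_mod_cast hm.1
  rw [hFn m (by omega)]
  have hD : 1 ≤ N / m := (Nat.one_le_div_iff hm.1).2 hm.2
  have h3 : ∑ d ∈ Finset.Ioc 0 (N / m), G d ≤ 20 * ((N / m : ℕ) : ℝ) := by
    refine le_trans (le_of_eq (Finset.sum_congr rfl fun d hd => ?_)) (nsc_D (N / m) z α hD hz hα hα4 hαz)
    rw [Finset.mem_Ioc] at hd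
    exact hGn d (by omega)
  have h4 : ((N / m : ℕ) : ℝ) ≤ (N : ℝ) / m := Nat.cast_div_le
  have h5 : 0 ≤ hh z α m := le_trans zero_le_one (hh_one_le z α hα m)
  calc hh z α m * ∑ d ∈ Finset.Ioc 0 (N / m), G d ≤ hh z α m * (20 * ((N : ℝ) / m)) := by
        gcongr
        linarith
    _ = 20 * N * (hh z α m / m) := by ring

end Pool.Agent.ARS
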