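import Pool.Agent.ARS.Nsb
import Pool.Agent.ARS.Nsc
import Pool.Agent.ARU.Rep2

set_option autoImplicit false

/-!
# ARS module NSD: the number of nearly smooth numbers

First `z ≥ z₁ = 55` (so that `α = 1 / log z ≤ 1/4`, `log 55 > 4`) and `z ≤ N`.  By `sum_hh_log` and
`sum_hh_div` (stubs) `∑_{n ≤ N} hh n log n ≤ C N log N`, so `∑_{√N < n ≤ N} hh n ≤ 2 C N`; for
`n ≤ √N` use `hh n ≤ n^α ≤ N^(1/4)`: this part is at most `N^(3/4) ≤ N`.  So
`∑_{n ≤ N} hh n ≤ (2 C + 1) N`.  By `hh_near` every element of `E` has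
`hh m ≥ (N / z^K)^α = N^α exp(-K)` (`z^α = e`).  Hence
`|E| ≤ (2 C + 1) exp K N^(1 - 1/log z)`.
If `z > N`: `N^(1 - 1/log z) ≥ N / e`, trivial.  If `2 ≤ z < 55`: `NSm z K N m` implies
`NSm 55 K N m`?  Let `m = s u` as in `NSm z`; write `m = s' u'` with `s'` `55`-smooth and `u'`
`55`-rough (`Pool.Agent.ARU.rough_split` in `ARU/Rep2.lean`); `s ∣ s'` because `s` is `z`-smooth,
coprime to `u'` and divides `s' u'`; so `N < z^K s ≤ 55^K s'`.  The bound for `55` is
`C' N^(1 - 1/log 55) ≤ C' N^(1 - κ/log z)` with `κ = log 2 / log 55`.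
Take `κ = log 2 / log 55` in all cases (`κ ≤ 1`).
-/

namespace Pool.Agent.ARS

/-- enlarging `z` -/
theorem nsm_mono {z z' K N m : ℕ} (hm : 1 ≤ m) (hzz : z ≤ z') (h : NSm z K N m) :
    NSm z' K N m := by
  obtain ⟨s, u, rfl, hs, hu, hN⟩ := h
  have hu1 : 1 ≤ u := by
    rcases Nat.eq_zero_or_pos u with h | h
    · subst h; simp at hm
    · exact h
  obtain ⟨v, w, hv, hv1, hw1, huv, hw⟩ := Pool.Agent.ARU.rough_split z' u hu1
  refine ⟨s * v, w, by rw [huv]; ring, ?_, hw, ?_⟩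
  · exact Nat.mul_mem_smoothNumbers (Nat.smoothNumbers_mono hzz hs) hv
  · calc N < z ^ K * s := hN
      _ ≤ z' ^ K * s := Nat.mul_le_mul_right _ (Nat.pow_le_pow_left hzz K)
      _ ≤ z' ^ K * (s * v) := Nat.mul_le_mul_left _ (Nat.le_mul_of_pos_right s hv1)

theorem log55 : (4 : ℝ) < Real.log 55 := by
  rw [Real.lt_log_iff_exp_lt (by norm_num)]
  have h1 := Real.exp_one_lt_d9
  have h2 : Real.exp 4 = Real.exp 1 ^ 4 := by
    rw [← Real.exp_nat_mul]
    norm_num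
  rw [h2]
  have h3 : Real.exp 1 ^ 4 < (2.7182818286 : ℝ) ^ 4 :=
    pow_lt_pow_left₀ h1 (Real.exp_pos _).le (by norm_num)
  refine h3.trans ?_
  norm_num

/-- the mean value of `hh` -/
theorem sum_hh : ∃ C : ℝ, 0 < C ∧ ∀ (N z : ℕ) (α : ℝ), 2 ≤ z → z ≤ N → 0 ≤ α → α ≤ 1 / 4 →
    α * Real.log z ≤ 1 → ∑ n ∈ Finset.Icc 1 N, hh z α n ≤ C * N := by
  obtain ⟨C1, hC1, h1⟩ := sum_hh_div
  obtain ⟨C2, hC2, h2⟩ := sum_hh_log
  refine ⟨2 * C2 * C1 + 1, by positivity, fun N z α hz hzN hα0 hα hαz => ?_⟩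
  have hN2 : 2 ≤ N := by omega
  have hN1 : (1 : ℝ) ≤ N := by exact_mod_cast (by omega : 1 ≤ N)
  have hN0 : (0 : ℝ) < N := by linarith
  have hlog : 0 < Real.log N := Real.log_pos (by exact_mod_cast (by omega : 1 < N))
  have h3 := h1 N z α hz hzN hα0 hα hαz
  have h4 := h2 N z α (by omega) hz hα0 hα hαz
  have h5 : ∑ n ∈ Finset.Icc 1 N, hh z α n * Real.log n ≤ C2 * C1 * N * Real.log N := by
    refine h4.trans ?_
    calc C2 * N * ∑ m ∈ Finset.Icc 1 N, hh z α m / m ≤ C2 * N * (C1 * Real.log N) := by gcongr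
      _ = C2 * C1 * N * Real.log N := by ring
  have hpos : ∀ n, 0 ≤ hh z α n := fun n => zero_le_one.trans (hh_one_le z α hα0 n)
  -- split
  rw [← Finset.sum_filter_add_sum_filter_not (Finset.Icc 1 N) (fun n => N < n ^ 2)]
  have h6 : ∑ n ∈ (Finset.Icc 1 N).filter (fun n => N < n ^ 2), hh z α n ≤ 2 * C2 * C1 * N := by
    have h7 : ∑ n ∈ (Finset.Icc 1 N).filter (fun n => N < n ^ 2), hh z α n * (Real.log N / 2) ≤
        C2 * C1 * N * Real.log N := by
      refine le_trans ?_ h5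
      refine le_trans (Finset.sum_le_sum fun n hn => ?_)
        (Finset.sum_le_sum_of_subset_of_nonneg (Finset.filter_subset (fun n => N < n ^ 2) _)
          fun n hn _ => ?_)
      · obtain ⟨hn1, hn2⟩ := Finset.mem_filter.1 hn
        refine mul_le_mul_of_nonneg_left ?_ (hpos n)
        have hn0 : (0 : ℝ) < n := by
          have := (Finset.mem_Icc.1 hn1).1
          exact_mod_cast this
        have h8 : Real.log N ≤ Real.log ((n : ℝ) ^ 2) :=
          Real.log_le_log hN0 (by exact_mod_cast hn2.le)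
        rw [Real.log_pow] at h8
        push_cast at h8
        linarith
      · have hn1 : (1 : ℝ) ≤ n := by exact_mod_cast (Finset.mem_Icc.1 hn).1
        exact mul_nonneg (hpos n) (Real.log_nonneg hn1)
    rw [← Finset.sum_mul] at h7
    have h8 : (∑ n ∈ (Finset.Icc 1 N).filter (fun n => N < n ^ 2), hh z α n) * Real.log N ≤
        (2 * C2 * C1 * N) * Real.log N := by linarith
    exact le_of_mul_le_mul_right h8 hlog
  have h7 : ∑ n ∈ (Finset.Icc 1 N).filter (fun n => ¬ N < n ^ 2), hh z α n ≤ N := by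
    have hsq : (0 : ℝ) ≤ √(N : ℝ) := Real.sqrt_nonneg _
    have h8 : ∀ n ∈ (Finset.Icc 1 N).filter (fun n => ¬ N < n ^ 2), hh z α n ≤ √(N : ℝ) := by
      intro n hn
      obtain ⟨hn1, hn2⟩ := Finset.mem_filter.1 hn
      obtain ⟨hn3, hn4⟩ := Finset.mem_Icc.1 hn1
      have hn1' : (1 : ℝ) ≤ n := by exact_mod_cast hn3
      have hnN : (n : ℝ) ≤ N := by exact_mod_cast hn4
      calc hh z α n ≤ (n : ℝ) ^ α := hh_le z α hα0 (by omega)
        _ ≤ (N : ℝ) ^ α := Real.rpow_le_rpow (by linarith) hnN hα0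
        _ ≤ (N : ℝ) ^ (1 / 2 : ℝ) := Real.rpow_le_rpow_of_exponent_le hN1 (by linarith)
        _ = √(N : ℝ) := (Real.sqrt_eq_rpow _).symm
    have h9 : (((Finset.Icc 1 N).filter (fun n => ¬ N < n ^ 2)).card : ℝ) ≤ √(N : ℝ) := by
      have h10 : (Finset.Icc 1 N).filter (fun n => ¬ N < n ^ 2) ⊆ Finset.Icc 1 (Nat.sqrt N) := by
        intro n hn
        obtain ⟨hn1, hn2⟩ := Finset.mem_filter.1 hn
        rw [Finset.mem_Icc] at hn1 ⊢
        refine ⟨hn1.1, ?_⟩
        rw [Nat.le_sqrt']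
        omega
      have h11 := Finset.card_le_card h10
      rw [Nat.card_Icc] at h11
      have h12 : (Nat.sqrt N : ℝ) ≤ √(N : ℝ) := Real.nat_sqrt_le_real_sqrt
      have h13 : (((Finset.Icc 1 N).filter (fun n => ¬ N < n ^ 2)).card : ℝ) ≤ Nat.sqrt N := by
        exact_mod_cast (by omega : ((Finset.Icc 1 N).filter (fun n => ¬ N < n ^ 2)).card ≤
          Nat.sqrt N)
      exact h13.trans h12
    calc ∑ n ∈ (Finset.Icc 1 N).filter (fun n => ¬ N < n ^ 2), hh z α n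
        ≤ ∑ n ∈ (Finset.Icc 1 N).filter (fun n => ¬ N < n ^ 2), √(N : ℝ) := Finset.sum_le_sum h8
      _ = (((Finset.Icc 1 N).filter (fun n => ¬ N < n ^ 2)).card : ℝ) * √(N : ℝ) := by
          rw [Finset.sum_const, nsmul_eq_mul]
      _ ≤ √(N : ℝ) * √(N : ℝ) := by gcongr
      _ = N := Real.mul_self_sqrt hN0.le
  calc _ ≤ 2 * C2 * C1 * N + N := add_le_add h6 h7
    _ = (2 * C2 * C1 + 1) * N := by ring

/-- the case `z ≥ 55` -/
theorem near_smooth_big (K : ℕ) : ∃ C : ℝ, 0 < C ∧ ∀ N z : ℕ, 1 ≤ N → 55 ≤ z →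
    ∀ E : Finset ℕ, (∀ m ∈ E, 1 ≤ m ∧ m ≤ N ∧ NSm z K N m) →
      (E.card : ℝ) ≤ C * (N : ℝ) ^ (1 - 1 / Real.log z) := by
  obtain ⟨C, hC, hS⟩ := sum_hh
  refine ⟨C * Real.exp K + Real.exp 1, by positivity, fun N z hN hz E hE => ?_⟩
  have hN1 : (1 : ℝ) ≤ N := by exact_mod_cast hN
  have hN0 : (0 : ℝ) < N := by linarith
  have hz0 : (0 : ℝ) < z := by exact_mod_cast (by omega : 0 < z)
  have hlz : 4 < Real.log z := by
    have : Real.log 55 ≤ Real.log z := Real.log_le_log (by norm_num) (by exact_mod_cast hz)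
    linarith [log55]
  have hlz0 : 0 < Real.log z := by linarith
  set α : ℝ := 1 / Real.log z with hα
  have hα0 : 0 ≤ α := by positivity
  have hα4 : α ≤ 1 / 4 := by
    rw [hα]
    exact one_div_le_one_div_of_le (by norm_num) hlz.le
  have hαz : α * Real.log z = 1 := by
    rw [hα]
    field_simp
  have hNα : (N : ℝ) ^ (1 - α) * (N : ℝ) ^ α = N := by
    rw [← Real.rpow_add hN0]
    have : (1 - α + α : ℝ) = 1 := by ring
    rw [this, Real.rpow_one]
  have hNα0 : (0 : ℝ) < (N : ℝ) ^ α := by positivity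
  have hNα1 : (0 : ℝ) < (N : ℝ) ^ (1 - α) := by positivity
  rcases Nat.lt_or_ge N z with hNz | hzN
  · -- trivial case
    have h1 : (E.card : ℝ) ≤ N := by
      have h2 : E ⊆ Finset.Icc 1 N := fun m hm => Finset.mem_Icc.2 ⟨(hE m hm).1, (hE m hm).2.1⟩
      have h3 := Finset.card_le_card h2
      rw [Nat.card_Icc] at h3
      exact_mod_cast (by omega : E.card ≤ N)
    have h2 : (N : ℝ) ^ α ≤ Real.exp 1 := by
      rw [Real.rpow_def_of_pos hN0]
      apply Real.exp_le_exp.2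
      have : Real.log N ≤ Real.log z := Real.log_le_log hN0 (by exact_mod_cast hNz.le)
      calc Real.log N * α ≤ Real.log z * α := by gcongr
        _ = 1 := by rw [mul_comm]; exact hαz
    calc (E.card : ℝ) ≤ N := h1
      _ = (N : ℝ) ^ (1 - α) * (N : ℝ) ^ α := hNα.symm
      _ ≤ (N : ℝ) ^ (1 - α) * Real.exp 1 := by gcongr
      _ ≤ (C * Real.exp K + Real.exp 1) * (N : ℝ) ^ (1 - α) := by
        have : 0 ≤ C * Real.exp K * (N : ℝ) ^ (1 - α) := by positivity
        linarith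
  · have h1 := hS N z α (by omega) hzN hα0 hα4 hαz.le
    have h2 : ∀ m ∈ E, (N : ℝ) ^ α * Real.exp (-(K : ℝ)) ≤ hh z α m := by
      intro m hm
      obtain ⟨hm1, hm2, hm3⟩ := hE m hm
      refine le_trans (le_of_eq ?_) (hh_near z K N m α hα0 (by omega) hm1 hm3)
      rw [Real.div_rpow hN0.le (by positivity), div_eq_mul_inv]
      congr 1
      rw [← Real.rpow_natCast, ← Real.rpow_mul hz0.le, Real.rpow_def_of_pos hz0, ← Real.exp_neg]
      congr 1
      have : Real.log z * ((K : ℝ) * α) = K * (α * Real.log z) := by ring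
      rw [this, hαz, mul_one]
    have h3 : (E.card : ℝ) * ((N : ℝ) ^ α * Real.exp (-(K : ℝ))) ≤ C * N := by
      calc (E.card : ℝ) * ((N : ℝ) ^ α * Real.exp (-(K : ℝ)))
          = ∑ m ∈ E, (N : ℝ) ^ α * Real.exp (-(K : ℝ)) := by
            rw [Finset.sum_const, nsmul_eq_mul]
        _ ≤ ∑ m ∈ E, hh z α m := Finset.sum_le_sum h2
        _ ≤ ∑ m ∈ Finset.Icc 1 N, hh z α m :=
            Finset.sum_le_sum_of_subset_of_nonneg
              (fun m hm => Finset.mem_Icc.2 ⟨(hE m hm).1, (hE m hm).2.1⟩)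
              fun m _ _ => zero_le_one.trans (hh_one_le z α hα0 m)
        _ ≤ C * N := h1
    have hK0 : 0 < Real.exp (-(K : ℝ)) := Real.exp_pos _
    have hKK : Real.exp (-(K : ℝ)) * Real.exp K = 1 := by
      rw [← Real.exp_add, neg_add_cancel, Real.exp_zero]
    have h4 : (E.card : ℝ) ≤ C * Real.exp K * (N : ℝ) ^ (1 - α) := by
      have h5 : (E.card : ℝ) * ((N : ℝ) ^ α * Real.exp (-(K : ℝ))) ≤
          (C * Real.exp K * (N : ℝ) ^ (1 - α)) * ((N : ℝ) ^ α * Real.exp (-(K : ℝ))) := by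
        refine h3.trans (le_of_eq ?_)
        calc C * N = C * ((N : ℝ) ^ (1 - α) * (N : ℝ) ^ α) *
              (Real.exp (-(K : ℝ)) * Real.exp K) := by rw [hNα, hKK, mul_one]
          _ = _ := by ring
      exact le_of_mul_le_mul_right h5 (by positivity)
    refine h4.trans ?_
    have : 0 ≤ Real.exp 1 * (N : ℝ) ^ (1 - α) := by positivity
    linarith

theorem near_smooth (K : ℕ) :
    ∃ κ : ℝ, 0 < κ ∧ ∃ C : ℝ, 0 < C ∧ ∀ N z : ℕ, 1 ≤ N → 2 ≤ z → ∀ E : Finset ℕ,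
      (∀ m ∈ E, 1 ≤ m ∧ m ≤ N ∧ NSm z K N m) →
      (E.card : ℝ) ≤ C * (N : ℝ) ^ (1 - κ / Real.log z) := by
  obtain ⟨C, hC, h⟩ := near_smooth_big K
  have hl2 : 0 < Real.log 2 := Real.log_pos (by norm_num)
  have hl55 : 0 < Real.log 55 := Real.log_pos (by norm_num)
  have hκ1 : Real.log 2 / Real.log 55 ≤ 1 := by
    rw [div_le_one hl55]
    exact Real.log_le_log (by norm_num) (by norm_num)
  refine ⟨Real.log 2 / Real.log 55, by positivity, C, hC, fun N z hN hz E hE => ?_⟩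
  have hN1 : (1 : ℝ) ≤ N := by exact_mod_cast hN
  have hlz : Real.log 2 ≤ Real.log z := Real.log_le_log (by norm_num) (by exact_mod_cast hz)
  have hlz0 : 0 < Real.log z := by linarith
  rcases Nat.lt_or_ge z 55 with hz55 | hz55
  · have h1 := h N 55 hN (le_refl _) E fun m hm =>
      ⟨(hE m hm).1, (hE m hm).2.1, nsm_mono (hE m hm).1 hz55.le (hE m hm).2.2⟩
    refine h1.trans (mul_le_mul_of_nonneg_left ?_ hC.le)
    refine Real.rpow_le_rpow_of_exponent_le hN1 ?_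
    have h2 : Real.log 2 / Real.log 55 / Real.log z ≤ 1 / Real.log 55 := by
      rw [div_div, div_le_div_iff₀ (by positivity) hl55]
      nlinarith
    push_cast
    linarith
  · refine (h N z hN hz55 E hE).trans (mul_le_mul_of_nonneg_left ?_ hC.le)
    refine Real.rpow_le_rpow_of_exponent_le hN1 ?_
    have h2 : Real.log 2 / Real.log 55 / Real.log z ≤ 1 / Real.log z := by gcongr
    linarith

end Pool.Agent.ARS
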