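import Pool.Agent.ARS.Rst
import Pool.Agent.ARS.Nsd
import Pool.Agent.ARS.Sca
import Pool.Agent.ARS.Cnb
import Pool.Agent.ARU.Cn4

set_option autoImplicit false

/-!
# ARS module CNT: all scales, arbitrary range `x ≤ exp T`, for a family

Constants: `lam, ε', L₀` from `scale_cover` (`ARS/Sca.lean`) for `F`; `T₁` from `scale_T (ε'/4)`;
`κ₁, C₁` from `near_smooth 400`; `X₂` such that for `x ≥ X₂`: `|Em x / π(x) - δ₀| ≤ ε'/2` (`F.main`)
and `C (1 + log x) ≤ (ε'/4) π(x)` (`Pool.Agent.ARU.log_le_pi`), `x ≥ 2`.  `N₀` with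
`N₀ ≥ X₂, L₀, 2 lam` etc.  `T₂ ≥ T₁, 2 + 2 log lam, 4 / log lam, …`.

For `N < N₀`: `|E| ≤ N ≤ N₀^(κ/log 2) N^(1 - κ/log T)` (`log T ≥ log 2`).
For `N ≥ N₀`: put `T' = 2 max(T, T₂)`, `z = ⌈T'^20⌉₊`.  Then `T'^20 ≤ z`, `log z ≤ 21 log T'`,
`log T' ≤ c log T` with `c = 2 + log T₂ / log 2` (`T ≥ 2`), so `1 / log z ≥ 1 / (21 c log T)`.
The elements of `E` with `NSm z 400 N m` number at most `C₁ N^(1 - κ₁/log z)` (`near_smooth`).  For
every other `m ∈ E` `scale_cover` (`lo = N^11`, `hi = exp T`) gives a scale `j` with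
`N^11 / lam ≤ lam^j ≤ lam exp T ≤ exp T'`, hence `j ≤ T' / log lam`; at `x = scl lam j`
(`N^10 ≤ x`, because `N^11/lam ≥ 2 N^10`; `log x ≤ T'`) `unnormalise` gives
`(ε'/2) π(x) < |P m x - Em x|`, then `(ε'/4) π(x) ≤ |Dv m x|` by `F.err` and
`C (1 + log m) ≤ C (1 + log x)`; so `scale_T` with `g = fun m => Dv m x` bounds the number of such
`m` by `N^(1 - 1/log z) / z`.  The number of scales is at most `T'/log lam + 1 ≤ z`.  Total
`(C₁ + 1) N^(1 - κ/log T)` with `κ = min(1, κ₁) / (21 c)`.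
-/

namespace Pool.Agent.ARS

open Filter Topology Pool.Agent.Helper8.ArtinLS Pool.Agent.Helper6

lemma cnt_z {T' : ℝ} (hT : 4 ≤ T') : T' ^ 20 ≤ (⌈T' ^ 20⌉₊ : ℝ) ∧
    Real.log (⌈T' ^ 20⌉₊ : ℝ) ≤ 21 * Real.log T' ∧ (2 : ℝ) ≤ (⌈T' ^ 20⌉₊ : ℝ) := by
  have h0 : (0 : ℝ) < T' := by linarith
  have h1 : T' ^ 20 ≤ (⌈T' ^ 20⌉₊ : ℝ) := Nat.le_ceil _
  have h2 : (⌈T' ^ 20⌉₊ : ℝ) < T' ^ 20 + 1 := Nat.ceil_lt_add_one (by positivity)
  have h3 : (4 : ℝ) ≤ T' ^ 20 := by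
    calc (4 : ℝ) ≤ T' := hT
      _ = T' ^ 1 := (pow_one _).symm
      _ ≤ T' ^ 20 := pow_le_pow_right₀ (by linarith) (by norm_num)
  refine ⟨h1, ?_, by linarith⟩
  have h4 : (⌈T' ^ 20⌉₊ : ℝ) ≤ T' ^ 21 := by
    have h5 : T' ^ 21 = T' ^ 20 * T' := by ring
    nlinarith
  calc Real.log (⌈T' ^ 20⌉₊ : ℝ) ≤ Real.log (T' ^ 21) := Real.log_le_log (by linarith) h4
    _ = 21 * Real.log T' := by rw [Real.log_pow]; norm_num

/-- The number of `m ≤ N` which are bad at some `x` with `N ^ 11 ≤ x ≤ exp T`. -/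
theorem count_T {P Dv f : ℕ → ℕ → ℝ} {Em : ℕ → ℝ} {C δ₀ : ℝ} (F : Fam P Dv f Em C δ₀)
    (ε : ℝ) (hε : 0 < ε) :
    ∃ κ : ℝ, 0 < κ ∧ ∃ C' : ℝ, 0 < C' ∧ ∀ N : ℕ, 1 ≤ N → ∀ T : ℝ, 2 ≤ T → ∀ E : Finset ℕ,
      (∀ m ∈ E, 1 ≤ m ∧ m ≤ N) →
      (∀ m ∈ E, ∃ x : ℕ, N ^ 11 ≤ x ∧ (x : ℝ) ≤ Real.exp T ∧
        ε < |P m x / Nat.primeCounting x - δ₀|) →
      (E.card : ℝ) ≤ C' * (N : ℝ) ^ (1 - κ / Real.log T) := by
  classical
  obtain ⟨lam, hlam, ε', hε', L₀, hL₀, hcov⟩ := scale_cover δ₀ F.d0 F.d2 ε hε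
  obtain ⟨T₁, hT₁2, hsc⟩ := scale_T (ε' / 4) (by positivity)
  obtain ⟨κ₁, hκ₁, C₁, hC₁, hns⟩ := near_smooth 400
  obtain ⟨X₂, hX₂⟩ := eventually_atTop.mp ((fam_close F (ε' / 2) (by positivity)).and
    (fam_log F (ε' / 4) (by positivity)))
  have hlam0 : 0 < lam := by linarith
  have hll : 0 < Real.log lam := Real.log_pos hlam
  set T₂ : ℝ := max T₁ (max (2 + 2 * Real.log lam) (4 / Real.log lam)) with hT₂
  have hT₂1 : T₁ ≤ T₂ := le_max_left _ _
  have hT₂2 : 2 + 2 * Real.log lam ≤ T₂ := (le_max_left _ _).trans (le_max_right _ _)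
  have hT₂3 : 4 / Real.log lam ≤ T₂ := (le_max_right _ _).trans (le_max_right _ _)
  have hT₂0 : 2 ≤ T₂ := hT₁2.trans hT₂1
  have hlog2 : 0 < Real.log 2 := Real.log_pos (by norm_num)
  set c : ℝ := 2 + Real.log (2 * T₂) / Real.log 2 with hc
  have hlT₂ : 0 < Real.log (2 * T₂) := Real.log_pos (by linarith)
  have hc0 : 0 < c := by positivity
  set κ : ℝ := min 1 κ₁ / (21 * c) with hκ
  have hmin : 0 < min 1 κ₁ := lt_min one_pos hκ₁
  have hκ0 : 0 < κ := by positivity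
  set N₀ : ℕ := max (max ⌈L₀⌉₊ ⌈2 * lam⌉₊) (max X₂ 2) with hN₀
  have hN₀2 : 2 ≤ N₀ := (le_max_right _ _).trans (le_max_right _ _)
  refine ⟨κ, hκ0, max ((N₀ : ℝ) ^ (κ / Real.log 2)) (C₁ + 1), ?_, ?_⟩
  · exact lt_of_lt_of_le (by positivity) (le_max_right _ _)
  intro N hN T hT E hE hbad
  have hNr : (1 : ℝ) ≤ N := by exact_mod_cast hN
  have hNpos : (0 : ℝ) < N := by linarith
  have hlT : Real.log 2 ≤ Real.log T := Real.log_le_log (by norm_num) hT
  have hlT0 : 0 < Real.log T := lt_of_lt_of_le hlog2 hlT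
  have hXpos : 0 < (N : ℝ) ^ (1 - κ / Real.log T) := Real.rpow_pos_of_pos hNpos _
  rcases lt_or_ge N N₀ with hNN | hNN
  · -- small `N`
    have h1 : (E.card : ℝ) ≤ N := by
      have h2 : E ⊆ Finset.Icc 1 N := fun m hm => Finset.mem_Icc.2 (hE m hm)
      have h3 := Finset.card_le_card h2
      rw [Nat.card_Icc, Nat.add_sub_cancel] at h3
      exact_mod_cast h3
    have hN₀r : (N : ℝ) ≤ N₀ := by exact_mod_cast hNN.le
    have h2 : (N : ℝ) ≤ (N₀ : ℝ) ^ (κ / Real.log 2) * (N : ℝ) ^ (1 - κ / Real.log T) := by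
      have h3 : (N : ℝ) ^ (κ / Real.log T) ≤ (N₀ : ℝ) ^ (κ / Real.log 2) := by
        calc (N : ℝ) ^ (κ / Real.log T) ≤ (N : ℝ) ^ (κ / Real.log 2) := by
              apply Real.rpow_le_rpow_of_exponent_le hNr
              exact div_le_div_of_nonneg_left hκ0.le hlog2 hlT
          _ ≤ (N₀ : ℝ) ^ (κ / Real.log 2) :=
              Real.rpow_le_rpow hNpos.le hN₀r (by positivity)
      calc (N : ℝ) = (N : ℝ) ^ (κ / Real.log T) * (N : ℝ) ^ (1 - κ / Real.log T) := by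
            rw [← Real.rpow_add hNpos]
            have : κ / Real.log T + (1 - κ / Real.log T) = 1 := by ring
            rw [this, Real.rpow_one]
        _ ≤ _ := mul_le_mul_of_nonneg_right h3 hXpos.le
    calc (E.card : ℝ) ≤ N := h1
      _ ≤ (N₀ : ℝ) ^ (κ / Real.log 2) * (N : ℝ) ^ (1 - κ / Real.log T) := h2
      _ ≤ _ := mul_le_mul_of_nonneg_right (le_max_left _ _) hXpos.le
  -- large `N`
  have hNL : L₀ ≤ N := by
    have h1 : ⌈L₀⌉₊ ≤ N := ((le_max_left _ _).trans (le_max_left _ _)).trans hNN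
    exact (Nat.le_ceil _).trans (by exact_mod_cast h1)
  have hNlam : 2 * lam ≤ N := by
    have h1 : ⌈2 * lam⌉₊ ≤ N := ((le_max_right _ _).trans (le_max_left _ _)).trans hNN
    exact (Nat.le_ceil _).trans (by exact_mod_cast h1)
  have hNX₂ : X₂ ≤ N := ((le_max_left _ _).trans (le_max_right _ _)).trans hNN
  have hN2 : 2 ≤ N := hN₀2.trans hNN
  set T' : ℝ := 2 * max T T₂ with hT'
  have hT'T : 2 * T ≤ T' := by
    have := le_max_left T T₂
    linarith
  have hT'T₂ : 2 * T₂ ≤ T' := by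
    have := le_max_right T T₂
    linarith
  have hT'4 : 4 ≤ T' := by linarith
  set z : ℕ := ⌈T' ^ 20⌉₊ with hz
  obtain ⟨hz1, hz2, hz3⟩ := cnt_z hT'4
  have hz2' : 2 ≤ z := by exact_mod_cast hz3
  have hlogz0 : 0 < Real.log (z : ℝ) := Real.log_pos (by linarith)
  have hlogT' : Real.log T' ≤ c * Real.log T := by
    have h1 : Real.log (2 * T₂) ≤ Real.log (2 * T₂) / Real.log 2 * Real.log T := by
      rw [div_mul_eq_mul_div, le_div_iff₀ hlog2]
      exact mul_le_mul_of_nonneg_left hlT hlT₂.le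
    rcases le_total T T₂ with h2 | h2
    · rw [hT', max_eq_right h2, hc]
      nlinarith
    · rw [hT', max_eq_left h2, hc, Real.log_mul (by norm_num) (by linarith)]
      have h3 : 0 ≤ Real.log (2 * T₂) / Real.log 2 * Real.log T := by positivity
      nlinarith
  have hlogz : Real.log (z : ℝ) ≤ 21 * c * Real.log T := by
    calc Real.log (z : ℝ) ≤ 21 * Real.log T' := hz2
      _ ≤ 21 * (c * Real.log T) := by linarith
      _ = _ := by ring
  have hexp : κ / Real.log T ≤ min 1 κ₁ / Real.log (z : ℝ) := by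
    rw [div_le_div_iff₀ hlT0 hlogz0, hκ, div_mul_eq_mul_div, div_le_iff₀ (by positivity)]
    have := mul_le_mul_of_nonneg_left hlogz hmin.le
    linarith
  -- the scales
  set hi : ℝ := Real.exp T with hhi
  set lo : ℝ := (N : ℝ) ^ 11 with hlo
  have hloL : L₀ ≤ lo := by
    calc L₀ ≤ N := hNL
      _ = (N : ℝ) ^ 1 := (pow_one _).symm
      _ ≤ (N : ℝ) ^ 11 := pow_le_pow_right₀ hNr (by norm_num)
  have hN10 : (1 : ℝ) ≤ (N : ℝ) ^ 10 := one_le_pow₀ hNr
  have hNN10 : N ≤ N ^ 10 := by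
    calc N = N ^ 1 := (pow_one _).symm
      _ ≤ N ^ 10 := Nat.pow_le_pow_right hN (by norm_num)
  have hlolam : (N : ℝ) ^ 10 + 1 ≤ lo / lam := by
    rw [le_div_iff₀ hlam0, hlo]
    have h1 : (N : ℝ) ^ 11 = (N : ℝ) ^ 10 * N := by ring
    rw [h1]
    nlinarith
  have hloglam : Real.log lam + T ≤ T' := by linarith
  set J : ℕ := ⌊T' / Real.log lam⌋₊ with hJ
  set S : Finset ℕ := (Finset.range (J + 1)).filter
    (fun j => lo / lam ≤ lam ^ j ∧ lam ^ j ≤ lam * hi) with hS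
  set Es : Finset ℕ := E.filter (fun m => NSm z 400 N m) with hEs
  set Fs : ℕ → Finset ℕ := fun j => E.filter (fun m => ¬ NSm z 400 N m ∧ ε' <
    |P m (scl lam j) / Nat.primeCounting (scl lam j) - δ₀|) with hFs
  have hcover : E ⊆ Es ∪ S.biUnion Fs := by
    intro m hm
    by_cases hmn : NSm z 400 N m
    · exact Finset.mem_union_left _ (Finset.mem_filter.2 ⟨hm, hmn⟩)
    · apply Finset.mem_union_right
      obtain ⟨x, hx1, hx2, hx3⟩ := hbad m hm
      obtain ⟨j, hj1, hj2, hj3⟩ := hcov (P m) (F.mono m) (F.nonneg m) lo hi hloL x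
        (by rw [hlo]; exact_mod_cast hx1) hx2 hx3
      rw [Finset.mem_biUnion]
      refine ⟨j, ?_, ?_⟩
      · rw [hS, Finset.mem_filter, Finset.mem_range]
        refine ⟨?_, hj1, hj2⟩
        have h2 := Real.log_le_log (by positivity) hj2
        rw [Real.log_pow, Real.log_mul hlam0.ne' (Real.exp_pos _).ne', Real.log_exp] at h2
        have h3 : (j : ℝ) ≤ T' / Real.log lam := by
          rw [le_div_iff₀ hll]
          linarith
        have h4 : j ≤ ⌊T' / Real.log lam⌋₊ := Nat.le_floor h3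
        omega
      · rw [hFs, Finset.mem_filter]
        exact ⟨hm, hmn, hj3⟩
  have hFj : ∀ j ∈ S, ((Fs j).card : ℝ) ≤ (N : ℝ) ^ (1 - 1 / Real.log (z : ℝ)) / z := by
    intro j hj
    rw [hS, Finset.mem_filter] at hj
    obtain ⟨_, hj1, hj2⟩ := hj
    set x : ℕ := scl lam j with hx
    have hxle : (x : ℝ) ≤ lam ^ j := by
      rw [hx]; unfold scl
      exact Nat.floor_le (by positivity)
    have hxge : N ^ 10 ≤ x := by
      have h1 : lam ^ j < (x : ℝ) + 1 := by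
        rw [hx]; unfold scl; exact Nat.lt_floor_add_one _
      have h2 : (N : ℝ) ^ 10 ≤ x := by linarith
      exact_mod_cast h2
    have hxN : N ≤ x := hNN10.trans hxge
    have hxX₂ : X₂ ≤ x := hNX₂.trans hxN
    have hx2 : 2 ≤ x := hN2.trans hxN
    have hpi := primeCounting_pos hx2
    have hx0 : (0 : ℝ) < x := by exact_mod_cast (by omega : 0 < x)
    have hlogx : Real.log x ≤ T' := by
      calc Real.log x ≤ Real.log (lam * hi) := Real.log_le_log hx0 (hxle.trans hj2)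
        _ = Real.log lam + T := by
            rw [Real.log_mul hlam0.ne' (Real.exp_pos _).ne', Real.log_exp]
        _ ≤ T' := hloglam
    refine hsc T' (by linarith) x z N hz1 hxge hlogx (fun m => Dv m x) (F.sieve x (by omega)) (Fs j)
      ?_ ?_
    · intro m hm
      have h1 := Finset.mem_filter.mp hm
      exact ⟨(hE m h1.1).1, (hE m h1.1).2, h1.2.1⟩
    · intro m hm
      have h1 := Finset.mem_filter.mp hm
      exact fam_dev F (hE m h1.1).1 (by omega) (by exact_mod_cast (hE m h1.1).2.trans hxN)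
        (hX₂ x hxX₂).2 (unnormalise hpi h1.2.2 (hX₂ x hxX₂).1)
  have hScard : (S.card : ℝ) ≤ z := by
    have h1 : S.card ≤ J + 1 := (Finset.card_filter_le _ _).trans (by simp)
    have h2 : ((J : ℕ) : ℝ) ≤ T' / Real.log lam := Nat.floor_le (by positivity)
    have h3 : 1 / Real.log lam ≤ T' / 8 := by
      have h4 : 4 * (1 / Real.log lam) ≤ T₂ := by
        calc 4 * (1 / Real.log lam) = 4 / Real.log lam := by ring
          _ ≤ T₂ := hT₂3
      linarith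
    have h5 : T' / Real.log lam ≤ T' ^ 2 / 8 := by
      calc T' / Real.log lam = T' * (1 / Real.log lam) := by ring
        _ ≤ T' * (T' / 8) := by gcongr
        _ = T' ^ 2 / 8 := by ring
    have h6 : T' ^ 2 ≤ T' ^ 20 := pow_le_pow_right₀ (by linarith) (by norm_num)
    have h7 : (4 : ℝ) ^ 2 ≤ T' ^ 2 := pow_le_pow_left₀ (by norm_num) hT'4 2
    have h8 : (S.card : ℝ) ≤ (J : ℝ) + 1 := by exact_mod_cast h1
    linarith
  have hEscard := hns N z hN hz2' Es (fun m hm => by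
    have h1 := Finset.mem_filter.mp hm
    exact ⟨(hE m h1.1).1, (hE m h1.1).2, h1.2⟩)
  have hzpos : (0 : ℝ) < z := by linarith
  have e1 : (N : ℝ) ^ (1 - κ₁ / Real.log (z : ℝ)) ≤ (N : ℝ) ^ (1 - κ / Real.log T) := by
    apply Real.rpow_le_rpow_of_exponent_le hNr
    have : min 1 κ₁ / Real.log (z : ℝ) ≤ κ₁ / Real.log (z : ℝ) :=
      div_le_div_of_nonneg_right (min_le_right _ _) hlogz0.le
    linarith
  have e2 : (N : ℝ) ^ (1 - 1 / Real.log (z : ℝ)) ≤ (N : ℝ) ^ (1 - κ / Real.log T) := by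
    apply Real.rpow_le_rpow_of_exponent_le hNr
    have : min 1 κ₁ / Real.log (z : ℝ) ≤ 1 / Real.log (z : ℝ) :=
      div_le_div_of_nonneg_right (min_le_left _ _) hlogz0.le
    linarith
  have e3 : ((S.biUnion Fs).card : ℝ) ≤ (N : ℝ) ^ (1 - κ / Real.log T) := by
    calc ((S.biUnion Fs).card : ℝ) ≤ ((∑ j ∈ S, (Fs j).card : ℕ) : ℝ) := by
          exact_mod_cast Finset.card_biUnion_le
      _ = ∑ j ∈ S, ((Fs j).card : ℝ) := by push_cast; rfl
      _ ≤ ∑ j ∈ S, (N : ℝ) ^ (1 - 1 / Real.log (z : ℝ)) / z := Finset.sum_le_sum hFj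
      _ = S.card * ((N : ℝ) ^ (1 - 1 / Real.log (z : ℝ)) / z) := by
          rw [Finset.sum_const, nsmul_eq_mul]
      _ ≤ z * ((N : ℝ) ^ (1 - 1 / Real.log (z : ℝ)) / z) := by gcongr
      _ = (N : ℝ) ^ (1 - 1 / Real.log (z : ℝ)) := by field_simp
      _ ≤ _ := e2
  calc (E.card : ℝ) ≤ ((Es ∪ S.biUnion Fs).card : ℝ) := by
        exact_mod_cast Finset.card_le_card hcover
    _ ≤ (Es.card : ℝ) + ((S.biUnion Fs).card : ℝ) := by exact_mod_cast Finset.card_union_le _ _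
    _ ≤ C₁ * (N : ℝ) ^ (1 - κ / Real.log T) + (N : ℝ) ^ (1 - κ / Real.log T) := by
        refine add_le_add (hEscard.trans ?_) e3
        exact mul_le_mul_of_nonneg_left e1 hC₁.le
    _ = (C₁ + 1) * (N : ℝ) ^ (1 - κ / Real.log T) := by ring
    _ ≤ _ := mul_le_mul_of_nonneg_right (le_max_right _ _) hXpos.le

end Pool.Agent.ARS
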