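import Pool.Agent.Helper8.ArtinOpt
import Pool.Agent.Helper6.Scales
import Pool.Agent.Helper6.ArtinDefs

set_option autoImplicit false

/-!
# ARS: definitions

Common frame for the two families `n = ± m` and `n = b m ^ 2`: `P m x` is the number of primes up to
`x` with primitive root `n`, `Em x` the expected number, `Dv m x` the character sum part of the
deviation, `f p m` the centred indicator modulo the odd prime `p`.
-/

namespace Pool.Agent.ARS

open Filter Topology Pool.Agent.Helper8.ArtinLS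

/-- every number has at most `R` ordered factorisations of length `r` with factors in `E` -/
def Rep (E : Finset ℕ) (r R : ℕ) : Prop :=
  ∀ n : ℕ, ((Fintype.piFinset fun _ : Fin r => E).filter (fun t => ∏ i, t i = n)).card ≤ R

/-- the large sieve property at `x` -/
def Sieve (x : ℕ) (g : ℕ → ℝ) : Prop :=
  ∀ (s M r R : ℕ) (E : Finset ℕ), 1 ≤ r → (∀ m ∈ E, m ≤ M) → Rep E r R →
    ∀ T : ℝ, 0 ≤ T → (∀ m ∈ E, T ≤ |g (s * m)|) →
    (x : ℝ) * ((E.card : ℝ) * T ^ 2) ^ r ≤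
      2 * R * (((x : ℝ) * (1 + Real.log x)) ^ 2) ^ r *
        ((x : ℝ) ^ 2 + 4 * Real.pi * ((M : ℝ) ^ r + 1))

/-- the common frame -/
structure Fam (P Dv f : ℕ → ℕ → ℝ) (Em : ℕ → ℝ) (C δ₀ : ℝ) : Prop where
  mono : ∀ m, Monotone (P m)
  nonneg : ∀ m x, 0 ≤ P m x
  one_le : 1 ≤ C
  d0 : 0 ≤ δ₀
  d2 : δ₀ ≤ 2
  main : Tendsto (fun x : ℕ => Em x / Nat.primeCounting x) atTop (𝓝 δ₀)
  err : ∀ m x : ℕ, 1 ≤ m → 1 ≤ x → |P m x - Em x - Dv m x| ≤ C * (1 + Real.log m)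
  sieve : ∀ x : ℕ, 1 ≤ x → Sieve x (fun m => Dv m x)
  err2 : ∀ m x : ℕ, 1 ≤ x →
    |P m x - Em x - ∑ p ∈ oddPrimes x, f p m| ≤ C * (1 + Real.log x)
  per : ∀ p n : ℕ, f p (n + p) = f p n
  mean : ∀ p : ℕ, p.Prime → p ≠ 2 → ∑ j ∈ Finset.range p, f p j = 0
  bd : ∀ p n : ℕ, |f p n| ≤ 1

/-- `m ≤ N` is nearly `z`-smooth: its rough cofactor leaves `N / s < z ^ K` -/
def NSm (z K N m : ℕ) : Prop :=
  ∃ s u : ℕ, m = s * u ∧ s ∈ Nat.smoothNumbers z ∧ (∀ p : ℕ, p.Prime → p ∣ u → z ≤ p) ∧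
    N < z ^ K * s

/-- completely multiplicative, `p ^ α` at the primes `p < z`, `1` at the other primes -/
noncomputable def hh (z : ℕ) (α : ℝ) (n : ℕ) : ℝ :=
  (n.primeFactorsList.map (fun p => if p < z then (p : ℝ) ^ α else 1)).prod

end Pool.Agent.ARS
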