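import Pool.Agent.ARS.Opt
import Pool.Agent.ARU.Cn2
import Pool.Agent.ARU.Rgs
import Pool.Agent.Helper6.ArtinExtra

set_option autoImplicit false

/-!
# ARS module FMB: the family `n = b m ^ 2`

`f p m = gg - mm`, `gg p m = 1` if `b m^2` has order `p - 1` modulo `p`, otherwise `0`,
`mm p = (∑ j < p, gg p j) / p` (as in `ARU/Defs.lean`; periodicity, bound and mean as there).

`err`: `artin_decomp` (`Helper6/ArtinDefs.lean`), `artinD_eq` (`Helper6/ArtinLSHyps.lean`:
`artinD b m x = D b m x`), `Pool.Agent.ARU.omegaX_le'` with `N = m`; constant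
`≥ 1 + 2 |primeFactors b| + 4`.  `main`: `Pool.Agent.Helper7.main_term hb hb4` (used in
`Helper6/ArtinPrimes.lean`/`ARX/Res.lean`), `δ₀` is its limit; `d0`, `d2`: `delta_bounds`
(`Helper6/ArtinExtra.lean`).  `sieve`: `sieve_D` (module OPT, stub).

`err2`: let `p` be odd.  If `p ∤ b`: by `expansion_sq` (`Helper8/ArtinChar.lean`), for `m ≠ 0`,
`gg p m - M_p = ∑_{χ ∈ Q p} coef p χ * χ b * (χ^2) m` with
`M_p = φ(p-1)/(p-1) (1 - (b/p))` (`jacobiSym` = `quadraticChar`, see the proof of `D_eq` in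
`Helper8/ArtinMain.lean`), `∑_m (χ^2) m = 0` for `χ^2 ≠ 1` (`MulChar.sum_eq_zero_of_ne_one`), and
`gg p 0 = 0` (the order of `0` is `0 ≠ p - 1`).  So `∑_{m mod p} gg p m = (p - 1) M_p`,
`mm p = (1 - 1/p) M_p`, `|M_p - mm p| ≤ 2/p` (`artinMain_bounds`).  If `p ∣ b`: `gg p m = 0`,
`mm p = 0`, `|M_p| ≤ 2`; there are at most `|primeFactors b|` such `p`.  As in
`Pool.Agent.ARU.main_error` (`ARU/Mea.lean`):
`P m x = (contribution of 2, at most 1) + ∑_{odd p ≤ x} gg p m`,
`Em x = artinE b x = ∑_{odd p ≤ x} M_p`, `∑_{p ≤ x} 1/p ≤ 1 + log x`.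
-/

namespace Pool.Agent.ARS

open Filter Topology Pool.Agent.Helper8.ArtinLS Pool.Agent.Helper6

/-- indicator of `b m ^ 2` being a primitive root modulo `p` -/
noncomputable def gb (b : ℤ) (p m : ℕ) : ℝ :=
  if orderOf ((b * (m : ℤ) ^ 2 : ℤ) : ZMod p) = p - 1 then 1 else 0

/-- the mean over the residues modulo `p` -/
noncomputable def mb (b : ℤ) (p : ℕ) : ℝ := (∑ j ∈ Finset.range p, gb b p j) / p

/-- the centred indicator -/
noncomputable def fb (b : ℤ) (p m : ℕ) : ℝ := gb b p m - mb b p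

theorem gb_nonneg (b : ℤ) (p m : ℕ) : 0 ≤ gb b p m := by unfold gb; split_ifs <;> norm_num

theorem gb_le_one (b : ℤ) (p m : ℕ) : gb b p m ≤ 1 := by unfold gb; split_ifs <;> norm_num

theorem mb_nonneg (b : ℤ) (p : ℕ) : 0 ≤ mb b p :=
  div_nonneg (Finset.sum_nonneg fun j _ => gb_nonneg b p j) (Nat.cast_nonneg p)

theorem mb_le_one (b : ℤ) (p : ℕ) : mb b p ≤ 1 := by
  unfold mb
  apply div_le_one_of_le₀ _ (Nat.cast_nonneg p)
  calc ∑ j ∈ Finset.range p, gb b p j ≤ ∑ j ∈ Finset.range p, (1 : ℝ) :=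
        Finset.sum_le_sum fun j _ => gb_le_one b p j
    _ = p := by simp

theorem abs_fb_le (b : ℤ) (p m : ℕ) : |fb b p m| ≤ 1 := by
  unfold fb
  rw [abs_le]
  constructor <;> linarith [gb_nonneg b p m, gb_le_one b p m, mb_nonneg b p, mb_le_one b p]

theorem fb_periodic (b : ℤ) (p m : ℕ) : fb b p (m + p) = fb b p m := by
  unfold fb gb
  have : ((b * ((m + p : ℕ) : ℤ) ^ 2 : ℤ) : ZMod p) = ((b * (m : ℤ) ^ 2 : ℤ) : ZMod p) := by
    push_cast
    simp
  rw [this]

theorem fb_sum (b : ℤ) {p : ℕ} (hp : 0 < p) : ∑ j ∈ Finset.range p, fb b p j = 0 := by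
  unfold fb
  rw [Finset.sum_sub_distrib, Finset.sum_const, Finset.card_range, nsmul_eq_mul]
  unfold mb
  have : (p : ℝ) ≠ 0 := by exact_mod_cast hp.ne'
  field_simp
  ring

/-- the expected density at `p` -/
noncomputable def eb (b : ℤ) (p : ℕ) : ℝ :=
  ((Nat.totient (p - 1) : ℝ) / ((p - 1 : ℕ) : ℝ)) * (1 - (jacobiSym b p : ℝ))

private lemma sum_range_zmodC (p : ℕ) [Fact p.Prime] (F : ZMod p → ℂ) :
    ∑ j ∈ Finset.range p, F (j : ZMod p) = ∑ x : ZMod p, F x := by
  refine Finset.sum_nbij' (fun j => (j : ZMod p)) (fun x => x.val) ?_ ?_ ?_ ?_ ?_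
  · intro j _
    exact Finset.mem_univ _
  · intro x _
    exact Finset.mem_range.2 (ZMod.val_lt x)
  · intro j hj
    exact ZMod.val_natCast_of_lt (Finset.mem_range.1 hj)
  · intro x _
    exact ZMod.natCast_zmod_val x
  · intro j _
    rfl

private lemma sum_gb (b : ℤ) (p : ℕ) (hp : p.Prime) (hp2 : p ≠ 2) (hpb : ¬ (p : ℤ) ∣ b) :
    ∑ j ∈ Finset.range p, gb b p j = ((p - 1 : ℕ) : ℝ) * eb b p := by
  classical
  have : Fact p.Prime := ⟨hp⟩
  have hb : (b : ZMod p) ≠ 0 := by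
    intro h
    exact hpb ((ZMod.intCast_zmod_eq_zero_iff_dvd b p).1 h)
  have h3 : (jacobiSym b p : ℤ) = quadraticChar (ZMod p) (b : ZMod p) := by
    rw [← jacobiSym.legendreSym.to_jacobiSym]
    rfl
  have h4 : ((eb b p : ℝ) : ℂ) = ((Nat.totient (p - 1) : ℕ) : ℂ) / ((p : ℂ) - 1) *
        (1 - ((quadraticChar (ZMod p) (b : ZMod p) : ℤ) : ℂ)) := by
    unfold eb
    rw [h3]
    push_cast
    rw [natCast_sub_one]
  have hcp : ((∑ j ∈ Finset.range p, gb b p j : ℝ) : ℂ) =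
      ∑ x : ZMod p, (if orderOf ((b : ZMod p) * x ^ 2) = p - 1 then (1 : ℂ) else 0) := by
    rw [← sum_range_zmodC p (fun x => if orderOf ((b : ZMod p) * x ^ 2) = p - 1 then (1 : ℂ)
      else 0)]
    push_cast
    refine Finset.sum_congr rfl fun j _ => ?_
    unfold gb
    push_cast
    split_ifs <;> simp
  have key : ∑ x : ZMod p, (if orderOf ((b : ZMod p) * x ^ 2) = p - 1 then (1 : ℂ) else 0) =
      ((p - 1 : ℕ) : ℂ) * ((eb b p : ℝ) : ℂ) := by
    have h5 : ∀ x : ZMod p, (if orderOf ((b : ZMod p) * x ^ 2) = p - 1 then (1 : ℂ) else 0) =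
        (if x = 0 then 0 else ((eb b p : ℝ) : ℂ)) +
          ∑ χ ∈ Q p, coef p χ * χ (b : ZMod p) * (χ ^ 2) x := by
      intro x
      by_cases hx : x = 0
      · subst hx
        have h6 : ¬ orderOf ((b : ZMod p) * 0 ^ 2) = p - 1 := by
          intro h
          have := ne_zero_of_orderOf h
          simp at this
        rw [if_neg h6, if_pos rfl, zero_add]
        symm
        refine Finset.sum_eq_zero fun χ _ => ?_
        rw [DirichletCharacter.map_zero' _ hp.one_lt.ne']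
        simp
      · rw [if_neg hx, ← expansion_sq hp2 hb hx, h4]
        ring
    rw [Finset.sum_congr rfl fun x _ => h5 x, Finset.sum_add_distrib, Finset.sum_comm]
    have h6 : ∑ χ ∈ Q p, ∑ x : ZMod p, coef p χ * χ (b : ZMod p) * (χ ^ 2) x = 0 := by
      refine Finset.sum_eq_zero fun χ hχ => ?_
      rw [← Finset.mul_sum, MulChar.sum_eq_zero_of_ne_one, mul_zero]
      exact mem_Q.1 hχ
    rw [h6, add_zero]
    have h7 : ∑ x : ZMod p, (if x = 0 then (0 : ℂ) else ((eb b p : ℝ) : ℂ)) =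
        ∑ x : ZMod p, (((eb b p : ℝ) : ℂ) - if x = 0 then ((eb b p : ℝ) : ℂ) else 0) := by
      refine Finset.sum_congr rfl fun x _ => ?_
      split_ifs <;> simp
    rw [h7, Finset.sum_sub_distrib, Finset.sum_ite_eq' Finset.univ (0 : ZMod p)]
    simp only [Finset.mem_univ, if_true, Finset.sum_const, Finset.card_univ, ZMod.card,
      nsmul_eq_mul]
    rw [natCast_sub_one]
    ring
  have h8 : ((∑ j ∈ Finset.range p, gb b p j : ℝ) : ℂ) =
      ((((p - 1 : ℕ) : ℝ) * eb b p : ℝ) : ℂ) := by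
    rw [hcp, key]
    push_cast
    rfl
  exact_mod_cast h8

private lemma mb_close (b : ℤ) (p : ℕ) (hp : p.Prime) (hp2 : p ≠ 2) :
    |eb b p - mb b p| ≤ 2 / p + if (p : ℤ) ∣ b then 2 else 0 := by
  have hb := artinMain_bounds b p
  change 0 ≤ eb b p ∧ eb b p ≤ 2 at hb
  have hp0 : (0 : ℝ) < p := by exact_mod_cast hp.pos
  by_cases hpb : (p : ℤ) ∣ b
  · rw [if_pos hpb]
    have hz : ∀ j, gb b p j = 0 := by
      intro j
      unfold gb
      rw [if_neg]
      intro h
      have h1 : ((b * (j : ℤ) ^ 2 : ℤ) : ZMod p) = 0 := by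
        rw [ZMod.intCast_zmod_eq_zero_iff_dvd]
        exact Dvd.dvd.mul_right hpb _
      have : Fact p.Prime := ⟨hp⟩
      rw [h1, orderOf_zero] at h
      have := hp.two_le
      omega
    have hm : mb b p = 0 := by
      unfold mb
      rw [Finset.sum_congr rfl fun j _ => hz j]
      simp
    rw [hm, sub_zero, abs_of_nonneg hb.1]
    have : 0 ≤ 2 / (p : ℝ) := by positivity
    linarith [hb.2]
  · rw [if_neg hpb, add_zero]
    unfold mb
    rw [sum_gb b p hp hp2 hpb]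
    have h1 : ((p - 1 : ℕ) : ℝ) = (p : ℝ) - 1 := by
      rw [Nat.cast_sub hp.one_le]
      simp
    rw [h1]
    have h2 : eb b p - ((p : ℝ) - 1) * eb b p / p = eb b p / p := by
      field_simp
      ring
    rw [h2, abs_of_nonneg (div_nonneg hb.1 hp0.le)]
    exact div_le_div_of_nonneg_right hb.2 hp0.le

private lemma sum_inv_leb (x : ℕ) : ∑ p ∈ oddPrimes x, (1 : ℝ) / p ≤ 1 + Real.log x := by
  have h1 : ∑ p ∈ oddPrimes x, (1 : ℝ) / p ≤ ∑ p ∈ Finset.Icc 1 x, (1 : ℝ) / p := by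
    refine Finset.sum_le_sum_of_subset_of_nonneg ?_ (fun p _ _ => by positivity)
    intro p hp
    rw [mem_oddPrimes] at hp
    exact Finset.mem_Icc.2 ⟨hp.2.1.one_le, hp.1⟩
  have h2 : ∑ p ∈ Finset.Icc 1 x, (1 : ℝ) / p = ((harmonic x : ℚ) : ℝ) := by
    rw [harmonic_eq_sum_Icc]
    push_cast
    exact Finset.sum_congr rfl (fun p _ => one_div _)
  rw [h2] at h1
  exact h1.trans (harmonic_le_one_add_log x)

private lemma main_error_b (b : ℤ) (hb0 : b ≠ 0) (m x : ℕ) (hx : 1 ≤ x) :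
    |artinP (b * (m : ℤ) ^ 2) x - artinE b x - ∑ p ∈ oddPrimes x, fb b p m| ≤
      1 + 2 * (1 + Real.log x) + 2 * b.natAbs.primeFactors.card := by
  classical
  have hP : artinP (b * (m : ℤ) ^ 2) x =
      ∑ p ∈ (Finset.range (x + 1)).filter (fun p : ℕ => p.Prime), gb b p m := by
    unfold artinP
    rw [← Finset.filter_filter, Finset.card_filter]
    unfold gb
    push_cast
    rfl
  set S := (Finset.range (x + 1)).filter (fun p : ℕ => p.Prime) with hS
  have hsplit : ∑ p ∈ S, gb b p m = ∑ p ∈ S.filter (fun p => p = 2), gb b p m +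
      ∑ p ∈ S.filter (fun p => ¬ p = 2), gb b p m :=
    (Finset.sum_filter_add_sum_filter_not _ _ _).symm
  have hodd : S.filter (fun p => ¬ p = 2) = oddPrimes x := by
    rw [hS, Finset.filter_filter]
    rfl
  have hE : artinE b x = ∑ p ∈ oddPrimes x, eb b p := rfl
  have key : artinP (b * (m : ℤ) ^ 2) x - artinE b x - ∑ p ∈ oddPrimes x, fb b p m =
      ∑ p ∈ S.filter (fun p => p = 2), gb b p m - ∑ p ∈ oddPrimes x, (eb b p - mb b p) := by
    rw [hP, hE, hsplit, hodd]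
    unfold fb
    rw [Finset.sum_sub_distrib, Finset.sum_sub_distrib]
    ring
  have hb1 : |∑ p ∈ S.filter (fun p => p = 2), gb b p m| ≤ 1 := by
    have h1 : S.filter (fun p => p = 2) ⊆ {2} := by
      intro p hp
      simp only [Finset.mem_filter] at hp
      simp [hp.2]
    rw [abs_of_nonneg (Finset.sum_nonneg fun p _ => gb_nonneg b p m)]
    calc ∑ p ∈ S.filter (fun p => p = 2), gb b p m ≤ ∑ p ∈ ({2} : Finset ℕ), gb b p m :=
          Finset.sum_le_sum_of_subset_of_nonneg h1 fun p _ _ => gb_nonneg b p m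
      _ = gb b 2 m := Finset.sum_singleton _ _
      _ ≤ 1 := gb_le_one b 2 m
  have hb2 : |∑ p ∈ oddPrimes x, (eb b p - mb b p)| ≤
      2 * (1 + Real.log x) + 2 * b.natAbs.primeFactors.card := by
    refine (Finset.abs_sum_le_sum_abs _ _).trans ?_
    have h1 : ∑ p ∈ oddPrimes x, |eb b p - mb b p| ≤
        ∑ p ∈ oddPrimes x, (2 / (p : ℝ) + if (p : ℤ) ∣ b then 2 else 0) := by
      refine Finset.sum_le_sum fun p hp => ?_
      rw [mem_oddPrimes] at hp
      exact mb_close b p hp.2.1 hp.2.2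
    refine h1.trans ?_
    rw [Finset.sum_add_distrib]
    have h2 : ∑ p ∈ oddPrimes x, 2 / (p : ℝ) = 2 * ∑ p ∈ oddPrimes x, (1 : ℝ) / p := by
      rw [Finset.mul_sum]
      exact Finset.sum_congr rfl fun p _ => by ring
    have h3 : ∑ p ∈ oddPrimes x, (if (p : ℤ) ∣ b then (2 : ℝ) else 0) ≤
        2 * b.natAbs.primeFactors.card := by
      rw [← Finset.sum_filter, Finset.sum_const, nsmul_eq_mul, mul_comm]
      have h4 : (oddPrimes x).filter (fun p : ℕ => (p : ℤ) ∣ b) ⊆ b.natAbs.primeFactors := by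
        intro p hp
        rw [Finset.mem_filter, mem_oddPrimes] at hp
        rw [Nat.mem_primeFactors]
        exact ⟨hp.1.2.1, Int.natCast_dvd.mp hp.2, by simpa using hb0⟩
      have h5 : (((oddPrimes x).filter (fun p : ℕ => (p : ℤ) ∣ b)).card : ℝ) ≤
          b.natAbs.primeFactors.card := by exact_mod_cast Finset.card_le_card h4
      linarith
    rw [h2]
    linarith [sum_inv_leb x]
  rw [key]
  calc |∑ p ∈ S.filter (fun p => p = 2), gb b p m - ∑ p ∈ oddPrimes x, (eb b p - mb b p)|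
      ≤ |∑ p ∈ S.filter (fun p => p = 2), gb b p m| + |∑ p ∈ oddPrimes x, (eb b p - mb b p)| :=
        abs_sub _ _
    _ ≤ _ := by linarith

theorem fam_b (b : ℤ) (hb : Squarefree b) (hb4 : b % 4 = 1) (δ₀ : ℝ)
    (hδ : Tendsto (fun x : ℕ => artinE b x / Nat.primeCounting x) atTop (𝓝 δ₀)) :
    ∃ (f : ℕ → ℕ → ℝ) (C : ℝ), Fam (fun m x => artinP (b * (m : ℤ) ^ 2) x) (fun m x => D b m x)
      f (artinE b) C δ₀ := by
  have hb0 : b ≠ 0 := hb.ne_zero
  set c : ℝ := (b.natAbs.primeFactors.card : ℝ) with hc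
  have hc0 : 0 ≤ c := Nat.cast_nonneg _
  refine ⟨fb b, 5 + 2 * c, ?_⟩
  have hd := delta_bounds hδ
  refine ⟨?_, ?_, by linarith, hd.1, hd.2, hδ, ?_, fun x hx => sieve_D b x hx, ?_,
    fb_periodic b, fun p hp _ => fb_sum b hp.pos, abs_fb_le b⟩
  · intro m x y hxy
    change artinP (b * (m : ℤ) ^ 2) x ≤ artinP (b * (m : ℤ) ^ 2) y
    unfold artinP
    exact_mod_cast Finset.card_le_card
      (Finset.filter_subset_filter _ (Finset.range_subset_range.2 (by omega)))
  · intro m x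
    change 0 ≤ artinP (b * (m : ℤ) ^ 2) x
    unfold artinP
    positivity
  · intro m x hm hx
    have h1 := artin_decomp b hb0 m x
    rw [artinD_eq] at h1
    have h2 := Pool.Agent.ARU.omegaX_le' (x := x) hm (le_refl m)
    have h3 : 0 ≤ Real.log m := Real.log_nonneg (by exact_mod_cast hm)
    have h4 : 0 ≤ c * Real.log m := mul_nonneg hc0 h3
    rw [← hc] at h1
    nlinarith
  · intro m x hx
    have h1 := main_error_b b hb0 m x hx
    have h3 : 0 ≤ Real.log x := Real.log_nonneg (by exact_mod_cast hx)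
    have h4 : 0 ≤ c * Real.log x := mul_nonneg hc0 h3
    rw [← hc] at h1
    nlinarith

end Pool.Agent.ARS
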