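import Pool.Agent.ARS.Cn2
import Pool.Agent.ARS.Cnb
import Pool.Agent.ARS.Cnt
import Pool.Agent.ARS.Fmb
import Pool.Agent.ARX.Res
import Pool.Agent.ARU.Fin4

set_option autoImplicit false

/-!
# ARS: the final theorem for one square class
-/

namespace Pool.Agent.ARS

open Filter Topology Pool.Agent.Helper8.ArtinLS Pool.Agent.Helper6 Pool.Agent.ARX Pool.Agent.ARU

/-- the bad `m ≤ M` for the range `[Y, X]` -/
noncomputable def SqBad (b : ℤ) (ε : ℝ) (M Y : ℕ) (X : ℝ) : Finset ℕ := by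
  classical
  exact (Finset.Icc 1 M).filter (fun m : ℕ =>
    ¬ (∀ x : ℕ, Y ≤ x → (x : ℝ) ≤ X → |share (b * (m : ℤ) ^ 2) x - dens b| ≤ ε))

lemma mem_SqBad {b : ℤ} {ε : ℝ} {M Y m : ℕ} {X : ℝ} : m ∈ SqBad b ε M Y X ↔
    (1 ≤ m ∧ m ≤ M) ∧ ∃ x : ℕ, Y ≤ x ∧ (x : ℝ) ≤ X ∧
      ε < |artinP (b * (m : ℤ) ^ 2) x / Nat.primeCounting x - dens b| := by
  classical
  unfold SqBad
  rw [Finset.mem_filter, Finset.mem_Icc]
  constructor
  · rintro ⟨h1, h2⟩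
    refine ⟨h1, ?_⟩
    push Not at h2
    obtain ⟨x, hx1, hx2, hx3⟩ := h2
    rw [share_artinP] at hx3
    exact ⟨x, hx1, hx2, hx3⟩
  · rintro ⟨h1, x, hx1, hx2, hx3⟩
    refine ⟨h1, ?_⟩
    push Not
    refine ⟨x, hx1, hx2, ?_⟩
    rw [share_artinP]
    exact hx3

lemma dens_eq_dlt {b : ℤ} (hb4 : b % 4 = 1) : Tendsto
    (fun x : ℕ => artinE b x / Nat.primeCounting x) atTop (𝓝 (dens b)) ↔ Tendsto
    (fun x : ℕ => artinE b x / Nat.primeCounting x) atTop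
      (𝓝 ((1 - ((ArithmeticFunction.moebius b.natAbs : ℤ) : ℝ) *
        ∏ q ∈ b.natAbs.primeFactors, (1 / ((q : ℝ) ^ 2 - (q : ℝ) - 1))) *
        ∏' p : Nat.Primes, (1 - 1 / (((p : ℕ) : ℝ) * (((p : ℕ) : ℝ) - 1))))) := by
  unfold dens
  rw [if_pos hb4]

/-- regime I meets regime II -/
lemma meet (τ δ : ℝ) (hτ : 0 < τ) (hδ : 0 < δ) :
    ∀ᶠ N : ℕ in atTop, Real.exp ((Real.log N) ^ (1 - τ)) ≤ (N : ℝ) ^ (δ / 20) := by
  have hcast : Tendsto (fun N : ℕ => (N : ℝ)) atTop atTop := tendsto_natCast_atTop_atTop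
  have hlog : Tendsto (fun N : ℕ => Real.log (N : ℝ)) atTop atTop :=
    Real.tendsto_log_atTop.comp hcast
  have hlt : Tendsto (fun N : ℕ => (Real.log N) ^ τ) atTop atTop :=
    (tendsto_rpow_atTop hτ).comp hlog
  filter_upwards [hlt.eventually_ge_atTop (20 / δ), eventually_ge_atTop 3] with N h1 h2
  have hL1 := one_le_log h2
  have hN0 : (0 : ℝ) < N := by exact_mod_cast (by omega : 0 < N)
  rw [Real.rpow_def_of_pos hN0]
  apply Real.exp_le_exp.mpr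
  have hL0 : 0 < Real.log N := by linarith
  have h5 : (Real.log N) ^ (1 - τ) * (Real.log N) ^ τ = Real.log N := by
    rw [← Real.rpow_add hL0]; simp
  have h6 : 0 < (Real.log N) ^ (1 - τ) := Real.rpow_pos_of_pos hL0 _
  have h7 : (Real.log N) ^ (1 - τ) * (20 / δ) ≤ Real.log N := by
    calc (Real.log N) ^ (1 - τ) * (20 / δ) ≤ (Real.log N) ^ (1 - τ) * (Real.log N) ^ τ := by
          gcongr
      _ = _ := h5
  rw [mul_div_assoc', div_le_iff₀ hδ] at h7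
  linarith

lemma card_SqBad_le (b : ℤ) (ε : ℝ) (M Y : ℕ) (X : ℝ) : ((SqBad b ε M Y X).card : ℝ) ≤ M := by
  have h1 : SqBad b ε M Y X ⊆ Finset.Icc 1 M := by
    intro m hm
    rw [mem_SqBad] at hm
    exact Finset.mem_Icc.mpr hm.1
  have h2 := Finset.card_le_card h1
  rw [Nat.card_Icc] at h2
  exact_mod_cast (by omega : (SqBad b ε M Y X).card ≤ M)

/-- regimes I and II for a square class -/
lemma square_low (b : ℤ) (hb : Squarefree b) (hb4 : b % 4 = 1) (hb1 : b ≠ 1) (A δ ε : ℝ)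
    (hA : 0 < A) (hδ : 0 < δ) (hδ1 : δ ≤ 1) (hε : 0 < ε) :
    ∃ κ : ℝ, 0 < κ ∧ ∃ Y₀ M₀ : ℕ, ∀ M Y : ℕ, M₀ ≤ M → Y₀ ≤ Y →
      ((SqBad b ε M Y ((M : ℝ) ^ A)).card : ℝ) ≤
        M * Real.exp (-((Y : ℝ) ^ κ)) + 2 * (M : ℝ) ^ (1 / 2 + δ) := by
  classical
  have hmain : Tendsto (fun x : ℕ => artinE b x / Nat.primeCounting x) atTop (𝓝 (dens b)) :=
    (dens_eq_dlt hb4).2 (Pool.Agent.Helper7.main_term hb hb4)
  obtain ⟨f, C, F⟩ := fam_b b hb hb4 (dens b) hmain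
  obtain ⟨κ, hκ, Y₁, h2⟩ := count_two F δ ε hδ hδ1 hε
  obtain ⟨τ, hτ, hτ1, M₁, h1⟩ := square_class b hb hb4 hb1 A δ ε hA hδ hε
  obtain ⟨M₂, hM₂⟩ := eventually_atTop.mp (meet τ δ hτ hδ)
  refine ⟨κ, hκ, Y₁, max M₁ M₂, ?_⟩
  intro M Y hM hY
  have hm := hM₂ M ((le_max_right _ _).trans hM)
  have h3 := (h1 M ((le_max_left _ _).trans hM)).2
  set D₁ : Finset ℕ := (Finset.Icc 1 M).filter (fun m : ℕ =>
            ¬ (∀ x : ℕ, InRange A τ M x →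
              |share (b * (m : ℤ) ^ 2) x - dens b| ≤ ε)) with hD₁
  set D₂ : Finset ℕ := SqBad b ε M Y ((M : ℝ) ^ (δ / 20)) with hD₂
  have h4 : (D₂.card : ℝ) ≤ M * Real.exp (-((Y : ℝ) ^ κ)) + (M : ℝ) ^ (1 / 2 + δ) := by
    apply h2 M Y hY D₂
    · intro m hm
      rw [hD₂, mem_SqBad] at hm
      exact hm.1.2
    · intro m hm
      rw [hD₂, mem_SqBad] at hm
      exact hm.2
  have hsub : SqBad b ε M Y ((M : ℝ) ^ A) ⊆ D₁ ∪ D₂ := by
    intro m hm'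
    rw [mem_SqBad] at hm'
    obtain ⟨hmI, x, hx1, hx2, hx3⟩ := hm'
    rw [Finset.mem_union]
    by_cases hx : (x : ℝ) ≤ (M : ℝ) ^ (δ / 20)
    · right
      rw [hD₂, mem_SqBad]
      exact ⟨hmI, x, hx1, hx, hx3⟩
    · left
      rw [hD₁, Finset.mem_filter, Finset.mem_Icc]
      refine ⟨hmI, ?_⟩
      push Not
      refine ⟨x, ⟨hm.trans (not_le.mp hx).le, hx2⟩, ?_⟩
      rw [share_artinP]
      exact hx3
  have h5 : ((SqBad b ε M Y ((M : ℝ) ^ A)).card : ℝ) ≤ D₁.card + D₂.card := by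
    exact_mod_cast (Finset.card_le_card hsub).trans (Finset.card_union_le _ _)
  linarith

/-- first clause -/
theorem square_B (b : ℤ) (hb : Squarefree b) (hb4 : b % 4 = 1) (hb1 : b ≠ 1) (Bx δ' ε : ℝ)
    (hBx : 1 ≤ Bx) (hδ' : 0 < δ') (hε : 0 < ε) :
    ∃ κ : ℝ, 0 < κ ∧ ∃ Y₀ : ℕ, ∀ M Y : ℕ, Y₀ ≤ Y →
      ((SqBad b ε M Y (Real.exp ((Real.log M) ^ Bx))).card : ℝ) ≤
        M * Real.exp (-((Y : ℝ) ^ κ)) + (M : ℝ) ^ (1 - 1 / (2 * Bx) + δ') := by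
  classical
  set δ : ℝ := min δ' 1 with hδdef
  have hδ : 0 < δ := lt_min hδ' one_pos
  have hδ1 : δ ≤ 1 := min_le_right _ _
  have hδδ' : δ ≤ δ' := min_le_left _ _
  have hmain : Tendsto (fun x : ℕ => artinE b x / Nat.primeCounting x) atTop (𝓝 (dens b)) :=
    (dens_eq_dlt hb4).2 (Pool.Agent.Helper7.main_term hb hb4)
  obtain ⟨f, C, F⟩ := fam_b b hb hb4 (dens b) hmain
  obtain ⟨A, hA, M₁, h3⟩ := count_B F Bx (δ / 2) ε hBx (by positivity) (by linarith) hε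
  obtain ⟨κ, hκ, Y₁, M₂, h1⟩ := square_low b hb hb4 hb1 A (δ / 2) ε hA (by positivity)
    (by linarith) hε
  have hcast : Tendsto (fun N : ℕ => (N : ℝ)) atTop atTop := tendsto_natCast_atTop_atTop
  have hNδ : Tendsto (fun N : ℕ => (N : ℝ) ^ (δ / 2)) atTop atTop :=
    (tendsto_rpow_atTop (by positivity)).comp hcast
  obtain ⟨M₀, hM₀⟩ := eventually_atTop.mp (((eventually_ge_atTop M₁).and
    (eventually_ge_atTop (max M₂ 3))).and (hNδ.eventually_ge_atTop 3))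
  set Y₃ : ℕ := ⌈Real.exp ((Real.log M₀) ^ Bx)⌉₊ + 2 with hY₃
  refine ⟨κ, hκ, max Y₁ Y₃, ?_⟩
  intro M Y hY
  have hYY₁ : Y₁ ≤ Y := (le_max_left _ _).trans hY
  have hYY₃ : Y₃ ≤ Y := (le_max_right _ _).trans hY
  have hMr0 : (0 : ℝ) ≤ M := Nat.cast_nonneg M
  by_cases hM : M < M₀
  · have hemp : SqBad b ε M Y (Real.exp ((Real.log M) ^ Bx)) = ∅ := by
      rw [Finset.eq_empty_iff_forall_notMem]
      intro m hm
      rw [mem_SqBad] at hm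
      obtain ⟨_, x, hx1, hx2, _⟩ := hm
      have h4 : Real.exp ((Real.log M) ^ Bx) ≤ Real.exp ((Real.log M₀) ^ Bx) := by
        apply Real.exp_le_exp.mpr
        have hlogM : 0 ≤ Real.log M := Real.log_natCast_nonneg M
        apply Real.rpow_le_rpow hlogM _ (by positivity)
        rcases Nat.eq_zero_or_pos M with h0 | h0
        · rw [h0, Nat.cast_zero, Real.log_zero]
          exact Real.log_natCast_nonneg M₀
        · apply Real.log_le_log (by exact_mod_cast h0)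
          exact_mod_cast hM.le
      have h5 : Real.exp ((Real.log M₀) ^ Bx) ≤ (⌈Real.exp ((Real.log M₀) ^ Bx)⌉₊ : ℝ) :=
        Nat.le_ceil _
      have h6 : (x : ℝ) ≤ (⌈Real.exp ((Real.log M₀) ^ Bx)⌉₊ : ℝ) := by linarith
      have h7 : x ≤ ⌈Real.exp ((Real.log M₀) ^ Bx)⌉₊ := by exact_mod_cast h6
      omega
    rw [hemp, Finset.card_empty, Nat.cast_zero]
    positivity
  push Not at hM
  obtain ⟨⟨g1, g2⟩, g4⟩ := hM₀ M hM
  have hM₂ : M₂ ≤ M := (le_max_left _ _).trans g2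
  have hM3 : 3 ≤ M := (le_max_right _ _).trans g2
  have hMr : (1 : ℝ) ≤ M := by exact_mod_cast (by omega : 1 ≤ M)
  have hM0 : (0 : ℝ) < M := by linarith
  have h5 := h1 M Y hM₂ hYY₁
  set D₃ : Finset ℕ := (Finset.Icc 1 M).filter (fun m : ℕ => ∃ x : ℕ, (M : ℝ) ^ A ≤ x ∧
    (x : ℝ) ≤ Real.exp ((Real.log M) ^ Bx) ∧
    ε < |artinP (b * (m : ℤ) ^ 2) x / Nat.primeCounting x - dens b|) with hD₃
  have h6 : (D₃.card : ℝ) ≤ (M : ℝ) ^ (1 - 1 / (2 * Bx) + δ / 2) := by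
    apply h3 M g1 D₃
    · intro m hm
      rw [hD₃, Finset.mem_filter, Finset.mem_Icc] at hm
      exact hm.1
    · intro m hm
      rw [hD₃, Finset.mem_filter] at hm
      exact hm.2
  have hsub : SqBad b ε M Y (Real.exp ((Real.log M) ^ Bx)) ⊆
      SqBad b ε M Y ((M : ℝ) ^ A) ∪ D₃ := by
    intro m hm'
    rw [mem_SqBad] at hm'
    obtain ⟨hmI, x, hx1, hx2, hx3⟩ := hm'
    rw [Finset.mem_union]
    by_cases hx : (x : ℝ) ≤ (M : ℝ) ^ A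
    · left
      rw [mem_SqBad]
      exact ⟨hmI, x, hx1, hx, hx3⟩
    · right
      rw [hD₃, Finset.mem_filter, Finset.mem_Icc]
      exact ⟨hmI, x, (not_le.mp hx).le, hx2, hx3⟩
  have h7 : ((SqBad b ε M Y (Real.exp ((Real.log M) ^ Bx))).card : ℝ) ≤
      (SqBad b ε M Y ((M : ℝ) ^ A)).card + D₃.card := by
    exact_mod_cast (Finset.card_le_card hsub).trans (Finset.card_union_le _ _)
  have hBx2 : 1 / (2 * Bx) ≤ 1 / 2 := by
    apply one_div_le_one_div_of_le (by norm_num); linarith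
  have hhalf2 : (M : ℝ) ^ (1 / 2 + δ / 2) ≤ (M : ℝ) ^ (1 - 1 / (2 * Bx) + δ / 2) :=
    Real.rpow_le_rpow_of_exponent_le hMr (by linarith)
  have hfin : 3 * (M : ℝ) ^ (1 - 1 / (2 * Bx) + δ / 2) ≤ (M : ℝ) ^ (1 - 1 / (2 * Bx) + δ') := by
    calc 3 * (M : ℝ) ^ (1 - 1 / (2 * Bx) + δ / 2)
        ≤ (M : ℝ) ^ (δ / 2) * (M : ℝ) ^ (1 - 1 / (2 * Bx) + δ / 2) := by gcongr
      _ = (M : ℝ) ^ (1 - 1 / (2 * Bx) + δ) := by rw [← Real.rpow_add hM0]; congr 1; ring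
      _ ≤ (M : ℝ) ^ (1 - 1 / (2 * Bx) + δ') :=
          Real.rpow_le_rpow_of_exponent_le hMr (by linarith)
  linarith

/-- the trivial bound for small `M` -/
lemma small_M (M M₀ : ℕ) (κ T : ℝ) (hM : M < M₀) (hκ : 0 < κ) (hT : 2 ≤ T) :
    (M : ℝ) ≤ (M₀ : ℝ) ^ (κ / Real.log 2) * (M : ℝ) ^ (1 - κ / Real.log T) := by
  have hl2 : 0 < Real.log 2 := Real.log_pos (by norm_num)
  have hlT : Real.log 2 ≤ Real.log T := Real.log_le_log (by norm_num) hT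
  rcases Nat.eq_zero_or_pos M with h0 | h0
  · rw [h0, Nat.cast_zero]
    positivity
  have hM1 : (1 : ℝ) ≤ M := by exact_mod_cast h0
  have hM0 : (0 : ℝ) < M := by linarith
  have hMM₀ : (M : ℝ) ≤ M₀ := by exact_mod_cast hM.le
  have h1 : κ / Real.log T ≤ κ / Real.log 2 := by
    apply div_le_div_of_nonneg_left hκ.le hl2 hlT
  calc (M : ℝ) = (M : ℝ) ^ (κ / Real.log T) * (M : ℝ) ^ (1 - κ / Real.log T) := by
        rw [← Real.rpow_add hM0]; simp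
    _ ≤ (M₀ : ℝ) ^ (κ / Real.log 2) * (M : ℝ) ^ (1 - κ / Real.log T) := by
        apply mul_le_mul_of_nonneg_right _ (by positivity)
        calc (M : ℝ) ^ (κ / Real.log T) ≤ (M : ℝ) ^ (κ / Real.log 2) :=
              Real.rpow_le_rpow_of_exponent_le hM1 h1
          _ ≤ (M₀ : ℝ) ^ (κ / Real.log 2) := Real.rpow_le_rpow hM0.le hMM₀ (by positivity)

/-- second clause -/
theorem square_T (b : ℤ) (hb : Squarefree b) (hb4 : b % 4 = 1) (hb1 : b ≠ 1) (ε : ℝ)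
    (hε : 0 < ε) :
    ∃ κ : ℝ, 0 < κ ∧ ∃ C : ℝ, 0 < C ∧ ∃ Y₀ : ℕ, ∀ M Y : ℕ, Y₀ ≤ Y → ∀ T : ℝ, 2 ≤ T →
      ((SqBad b ε M Y (Real.exp T)).card : ℝ) ≤
        M * Real.exp (-((Y : ℝ) ^ κ)) + C * (M : ℝ) ^ (1 - κ / Real.log T) := by
  classical
  have hmain : Tendsto (fun x : ℕ => artinE b x / Nat.primeCounting x) atTop (𝓝 (dens b)) :=
    (dens_eq_dlt hb4).2 (Pool.Agent.Helper7.main_term hb hb4)
  obtain ⟨f, Cf, F⟩ := fam_b b hb hb4 (dens b) hmain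
  obtain ⟨κ₃, hκ₃, C₃, hC₃, h3⟩ := count_T F ε hε
  obtain ⟨κ₁, hκ₁, Y₁, M₂, h1⟩ := square_low b hb hb4 hb1 11 (1 / 4) ε (by norm_num)
    (by norm_num) (by norm_num) hε
  set κ : ℝ := min (min κ₁ κ₃) (1 / 8) with hκdef
  have hκ : 0 < κ := by positivity
  have hκκ₁ : κ ≤ κ₁ := (min_le_left _ _).trans (min_le_left _ _)
  have hκκ₃ : κ ≤ κ₃ := (min_le_left _ _).trans (min_le_right _ _)
  have hκ8 : κ ≤ 1 / 8 := min_le_right _ _
  set M₀ : ℕ := max M₂ 2 with hM₀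
  refine ⟨κ, hκ, max ((M₀ : ℝ) ^ (κ / Real.log 2)) (C₃ + 2), by positivity, max Y₁ 1, ?_⟩
  intro M Y hY T hT
  have hYY₁ : Y₁ ≤ Y := (le_max_left _ _).trans hY
  have hY1 : (1 : ℝ) ≤ Y := by exact_mod_cast (le_max_right _ _).trans hY
  have hl2 : 0 < Real.log 2 := Real.log_pos (by norm_num)
  have hl2' : (1 : ℝ) / 2 ≤ Real.log 2 := by linarith [Real.log_two_gt_d9]
  have hlT : Real.log 2 ≤ Real.log T := Real.log_le_log (by norm_num) hT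
  have hMr0 : (0 : ℝ) ≤ M := Nat.cast_nonneg M
  have hpow0 : (0 : ℝ) ≤ (M : ℝ) ^ (1 - κ / Real.log T) := Real.rpow_nonneg hMr0 _
  by_cases hM : M < M₀
  · have h4 := card_SqBad_le b ε M Y (Real.exp T)
    have h5 := small_M M M₀ κ T hM hκ hT
    have h6 : (M₀ : ℝ) ^ (κ / Real.log 2) * (M : ℝ) ^ (1 - κ / Real.log T) ≤
        max ((M₀ : ℝ) ^ (κ / Real.log 2)) (C₃ + 2) * (M : ℝ) ^ (1 - κ / Real.log T) :=
      mul_le_mul_of_nonneg_right (le_max_left _ _) hpow0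
    have h7 : 0 ≤ (M : ℝ) * Real.exp (-((Y : ℝ) ^ κ)) := by positivity
    linarith
  push Not at hM
  have hM₂ : M₂ ≤ M := (le_max_left _ _).trans hM
  have hM2 : 2 ≤ M := (le_max_right _ _).trans hM
  have hMr : (1 : ℝ) ≤ M := by exact_mod_cast (by omega : 1 ≤ M)
  have hM0 : (0 : ℝ) < M := by linarith
  have h5 := h1 M Y hM₂ hYY₁
  set D₃ : Finset ℕ := (Finset.Icc 1 M).filter (fun m : ℕ => ∃ x : ℕ, M ^ 11 ≤ x ∧
    (x : ℝ) ≤ Real.exp T ∧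
    ε < |artinP (b * (m : ℤ) ^ 2) x / Nat.primeCounting x - dens b|) with hD₃
  have h6 : (D₃.card : ℝ) ≤ C₃ * (M : ℝ) ^ (1 - κ₃ / Real.log T) := by
    apply h3 M (by omega) T hT D₃
    · intro m hm
      rw [hD₃, Finset.mem_filter, Finset.mem_Icc] at hm
      exact hm.1
    · intro m hm
      rw [hD₃, Finset.mem_filter] at hm
      exact hm.2
  have hsub : SqBad b ε M Y (Real.exp T) ⊆ SqBad b ε M Y ((M : ℝ) ^ (11 : ℝ)) ∪ D₃ := by
    intro m hm'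
    rw [mem_SqBad] at hm'
    obtain ⟨hmI, x, hx1, hx2, hx3⟩ := hm'
    rw [Finset.mem_union]
    by_cases hx : (x : ℝ) ≤ (M : ℝ) ^ (11 : ℝ)
    · left
      rw [mem_SqBad]
      exact ⟨hmI, x, hx1, hx, hx3⟩
    · right
      rw [hD₃, Finset.mem_filter, Finset.mem_Icc]
      refine ⟨hmI, x, ?_, hx2, hx3⟩
      have h8 := (not_le.mp hx).le
      rw [show (11 : ℝ) = ((11 : ℕ) : ℝ) by norm_num, Real.rpow_natCast] at h8
      exact_mod_cast h8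
  have h7 : ((SqBad b ε M Y (Real.exp T)).card : ℝ) ≤
      (SqBad b ε M Y ((M : ℝ) ^ (11 : ℝ))).card + D₃.card := by
    exact_mod_cast (Finset.card_le_card hsub).trans (Finset.card_union_le _ _)
  have h8 : (M : ℝ) ^ (1 - κ₃ / Real.log T) ≤ (M : ℝ) ^ (1 - κ / Real.log T) := by
    apply Real.rpow_le_rpow_of_exponent_le hMr
    have : κ / Real.log T ≤ κ₃ / Real.log T := by
      apply div_le_div_of_nonneg_right hκκ₃; linarith
    linarith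
  have h9 : (M : ℝ) ^ (1 / 2 + 1 / 4 : ℝ) ≤ (M : ℝ) ^ (1 - κ / Real.log T) := by
    apply Real.rpow_le_rpow_of_exponent_le hMr
    have : κ / Real.log T ≤ 1 / 4 := by
      rw [div_le_iff₀ (by linarith)]; linarith
    linarith
  have h10 : (M : ℝ) * Real.exp (-((Y : ℝ) ^ κ₁)) ≤ M * Real.exp (-((Y : ℝ) ^ κ)) := by
    apply mul_le_mul_of_nonneg_left _ hMr0
    apply Real.exp_le_exp.mpr
    have := Real.rpow_le_rpow_of_exponent_le hY1 hκκ₁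
    linarith
  have h11 : (C₃ + 2) * (M : ℝ) ^ (1 - κ / Real.log T) ≤
        max ((M₀ : ℝ) ^ (κ / Real.log 2)) (C₃ + 2) * (M : ℝ) ^ (1 - κ / Real.log T) :=
      mul_le_mul_of_nonneg_right (le_max_right _ _) hpow0
  have h12 : C₃ * (M : ℝ) ^ (1 - κ₃ / Real.log T) ≤ C₃ * (M : ℝ) ^ (1 - κ / Real.log T) :=
    mul_le_mul_of_nonneg_left h8 hC₃.le
  linarith

end Pool.Agent.ARS
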