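import Pool.Agent.ARS.Opt
import Pool.Agent.ARU.Cn2
import Pool.Agent.ARU.Rgs

set_option autoImplicit false

/-!
# ARS module FMA: the family `n = a m`, `a = 1` or `a = -1`

All fields are in the library: `artinP_mono`, `artinP_nonneg` (`Helper6/ArtinAssembly.lean`),
`CA_bounds`, `main_CA` (`Helper8/ArtinAllD.lean`), `artinC_decomp` (`Helper8/ArtinAllC.lean`; the
error `1 + 2 (a.natAbs.primeFactors.card + omegaX m x)`, `a.natAbs = 1`, and
`Pool.Agent.ARU.omegaX_le'` in `ARU/Rgs.lean` with `N = m`), `sieve_DC` (module OPT, stub),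
`Pool.Agent.ARU.main_error` (`ARU/Mea.lean`), `Pool.Agent.ARU.ff_periodic`, `ff_sum`, `abs_ff_le`
(`ARU/Defs.lean`).
-/

namespace Pool.Agent.ARS

open Filter Topology Pool.Agent.Helper8.ArtinLS Pool.Agent.Helper8.ArtinC Pool.Agent.Helper6

theorem fam_a (a : ℤ) (ha : a = 1 ∨ a = -1) :
    ∃ C : ℝ, Fam (fun m x => artinP (a * (m : ℤ)) x) (fun m x => DC a m x)
      (fun p m => Pool.Agent.ARU.ff a p m) artinEC C CA := by
  have ha0 : a ≠ 0 := by rcases ha with h | h <;> rw [h] <;> norm_num
  have hcard : a.natAbs.primeFactors.card = 0 := by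
    rcases ha with h | h <;> rw [h] <;> simp
  refine ⟨3, ?_⟩
  refine
    { mono := fun m => artinP_mono _
      nonneg := fun m x => artinP_nonneg _ _
      one_le := by norm_num
      d0 := CA_bounds.1
      d2 := by linarith [CA_bounds.2]
      main := main_CA
      err := ?_
      sieve := fun x hx => sieve_DC a x hx
      err2 := ?_
      per := fun p n => Pool.Agent.ARU.ff_periodic a p n
      mean := fun p hp _ => Pool.Agent.ARU.ff_sum a hp.pos
      bd := fun p n => Pool.Agent.ARU.abs_ff_le a p n }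
  · intro m x hm hx
    have h1 := artinC_decomp a ha0 m x
    have h2 := Pool.Agent.ARU.omegaX_le' (x := x) hm (le_refl m)
    rw [hcard, Nat.cast_zero] at h1
    have h3 : 0 ≤ Real.log m := Real.log_nonneg (by exact_mod_cast hm)
    linarith
  · intro m x hx
    have h1 := Pool.Agent.ARU.main_error a ha m x hx
    have h3 : 0 ≤ Real.log x := Real.log_nonneg (by exact_mod_cast hx)
    linarith

end Pool.Agent.ARS
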