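import Pool.Agent.ARS.Cnt
import Pool.Agent.ARS.Fma
import Pool.Agent.ARS.Fin2
import Pool.Agent.ARU.Fin4

set_option autoImplicit false

/-!
# ARS: all integers, arbitrary range `x ≤ exp T`
-/

namespace Pool.Agent.ARS

open Filter Topology Pool.Agent.Helper8.ArtinLS Pool.Agent.Helper8.ArtinC Pool.Agent.Helper6
  Pool.Agent.ARX Pool.Agent.ARU

/-- `count_T` for both signs -/
lemma count_T_signed (ε : ℝ) (hε : 0 < ε) :
    ∃ κ : ℝ, 0 < κ ∧ ∃ C' : ℝ, 0 < C' ∧ ∀ N : ℕ, 1 ≤ N → ∀ T : ℝ, 2 ≤ T → ∀ a : ℤ,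
      (a = 1 ∨ a = -1) → ∀ E : Finset ℕ, (∀ m ∈ E, 1 ≤ m ∧ m ≤ N) →
      (∀ m ∈ E, ∃ x : ℕ, N ^ 11 ≤ x ∧ (x : ℝ) ≤ Real.exp T ∧
        ε < |artinP (a * (m : ℤ)) x / Nat.primeCounting x - CA|) →
      (E.card : ℝ) ≤ C' * (N : ℝ) ^ (1 - κ / Real.log T) := by
  obtain ⟨C₁, F₁⟩ := fam_a 1 (Or.inl rfl)
  obtain ⟨C₂, F₂⟩ := fam_a (-1) (Or.inr rfl)
  obtain ⟨κ₁, hκ₁, K₁, hK₁, h1⟩ := count_T F₁ ε hε
  obtain ⟨κ₂, hκ₂, K₂, hK₂, h2⟩ := count_T F₂ ε hε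
  refine ⟨min κ₁ κ₂, lt_min hκ₁ hκ₂, max K₁ K₂, lt_of_lt_of_le hK₁ (le_max_left _ _), ?_⟩
  intro N hN T hT a ha E hE hbad
  have hNr : (1 : ℝ) ≤ N := by exact_mod_cast hN
  have hl2 : 0 < Real.log 2 := Real.log_pos (by norm_num)
  have hlT : Real.log 2 ≤ Real.log T := Real.log_le_log (by norm_num) hT
  have hmono : ∀ κ' K' : ℝ, min κ₁ κ₂ ≤ κ' → K' ≤ max K₁ K₂ → 0 < K' →
      K' * (N : ℝ) ^ (1 - κ' / Real.log T) ≤
        max K₁ K₂ * (N : ℝ) ^ (1 - min κ₁ κ₂ / Real.log T) := by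
    intro κ' K' h3 h4 h5
    apply mul_le_mul h4 _ (by positivity) (by linarith)
    apply Real.rpow_le_rpow_of_exponent_le hNr
    have : min κ₁ κ₂ / Real.log T ≤ κ' / Real.log T := by
      apply div_le_div_of_nonneg_right h3; linarith
    linarith
  rcases ha with rfl | rfl
  · exact (h1 N hN T hT E hE hbad).trans (hmono κ₁ K₁ (min_le_left _ _) (le_max_left _ _) hK₁)
  · exact (h2 N hN T hT E hE hbad).trans (hmono κ₂ K₂ (min_le_right _ _) (le_max_right _ _) hK₂)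

open Classical in
/-- Second clause of the full range theorem. -/
theorem full_range_T :
    ∀ ε : ℝ, 0 < ε → ∃ κ : ℝ, 0 < κ ∧ ∃ C : ℝ, 0 < C ∧ ∃ Y₀ : ℕ, ∀ N Y : ℕ, Y₀ ≤ Y →
      ∀ T : ℝ, 2 ≤ T →
      (((Finset.Icc (-(N : ℤ)) N).filter (fun n : ℤ => n ≠ 0 ∧
          ∃ n' : ℤ, Squarefree n' ∧ (∃ k : ℤ, n = n' * k ^ 2) ∧
            ¬ (∀ x : ℕ, Y ≤ x → (x : ℝ) ≤ Real.exp T → |share n x - dens n'| ≤ ε))).card : ℝ) ≤
        N * Real.exp (-((Y : ℝ) ^ κ)) + C * (N : ℝ) ^ (1 - κ / Real.log T) := by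
  intro ε hε
  obtain ⟨κ₂, hκ₂, Y₁, h2⟩ := Pool.Agent.ARU.count_two (1 / 8) (ε / 2) (by positivity) (by norm_num)
    (by positivity)
  obtain ⟨κ₃, hκ₃, C₃, hC₃, h3⟩ := count_T_signed (ε / 2) (by positivity)
  obtain ⟨τ₁, hτ₁, hτ₁1, N₁, h1⟩ := integers 11 (1 / 8) ε (by norm_num) (by positivity) hε
  obtain ⟨Y₂, hY₂⟩ := eventually_atTop.mp (half_exp κ₂ hκ₂)
  obtain ⟨N₂, hN₂⟩ := eventually_atTop.mp (meet τ₁ (1 / 8) hτ₁ (by norm_num))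
  set B : ℕ := ⌈2 / ε⌉₊ with hB
  set κ : ℝ := min (min (κ₂ / 2) κ₃) (1 / 8) with hκdef
  have hκ : 0 < κ := by positivity
  have hκκ₂ : κ ≤ κ₂ / 2 := (min_le_left _ _).trans (min_le_left _ _)
  have hκκ₃ : κ ≤ κ₃ := (min_le_left _ _).trans (min_le_right _ _)
  have hκ8 : κ ≤ 1 / 8 := min_le_right _ _
  set N₀ : ℕ := max (max N₁ N₂) 3 with hN₀
  set Cb : ℝ := 3 + 2 * C₃ + ((2 * B + 1 : ℕ) : ℝ) * 2 with hCb
  have hCb0 : 0 < Cb := by positivity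
  refine ⟨κ, hκ, max (2 * (N₀ : ℝ) ^ (κ / Real.log 2)) Cb, by positivity, max (max Y₁ Y₂) 1, ?_⟩
  intro N Y hY T hT
  have hYY₁ : Y₁ ≤ Y := (le_max_left _ _).trans ((le_max_left _ _).trans hY)
  have hYY₂ : Y₂ ≤ Y := (le_max_right _ _).trans ((le_max_left _ _).trans hY)
  have hY1 : (1 : ℝ) ≤ Y := by exact_mod_cast (le_max_right _ _).trans hY
  have hl2 : 0 < Real.log 2 := Real.log_pos (by norm_num)
  have hl2' : (1 : ℝ) / 2 ≤ Real.log 2 := by linarith [Real.log_two_gt_d9]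
  have hlT : Real.log 2 ≤ Real.log T := Real.log_le_log (by norm_num) hT
  have hNr0 : (0 : ℝ) ≤ N := Nat.cast_nonneg N
  have hpow0 : (0 : ℝ) ≤ (N : ℝ) ^ (1 - κ / Real.log T) := Real.rpow_nonneg hNr0 _
  set D : Finset ℤ := (Finset.Icc (-(N : ℤ)) N).filter (fun n : ℤ => n ≠ 0 ∧
          ∃ n' : ℤ, Squarefree n' ∧ (∃ k : ℤ, n = n' * k ^ 2) ∧
            ¬ (∀ x : ℕ, Y ≤ x → (x : ℝ) ≤ Real.exp T → |share n x - dens n'| ≤ ε)) with hD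
  by_cases hN : N < N₀
  · have h4 : (D.card : ℝ) ≤ 2 * N := by
      have h5 := signed_count N (N : ℝ) (fun _ => True) (fun a _ E hE _ => by
        have h6 : E ⊆ Finset.Icc 1 N := fun m hm => Finset.mem_Icc.mpr (hE m hm)
        have h7 := Finset.card_le_card h6
        rw [Nat.card_Icc] at h7
        exact_mod_cast (by omega : E.card ≤ N)) D (fun n hn => by
        rw [hD, Finset.mem_filter, Finset.mem_Icc] at hn
        exact ⟨hn.2.1, by omega, trivial⟩)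
      exact h5
    have h5 := small_M N N₀ κ T hN hκ hT
    have h6 : 2 * (N₀ : ℝ) ^ (κ / Real.log 2) * (N : ℝ) ^ (1 - κ / Real.log T) ≤
        max (2 * (N₀ : ℝ) ^ (κ / Real.log 2)) Cb * (N : ℝ) ^ (1 - κ / Real.log T) :=
      mul_le_mul_of_nonneg_right (le_max_left _ _) hpow0
    have h7 : 0 ≤ (N : ℝ) * Real.exp (-((Y : ℝ) ^ κ)) := by positivity
    linarith
  push Not at hN
  have hNN₁ : N₁ ≤ N := (le_max_left _ _).trans ((le_max_left _ _).trans hN)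
  have hNN₂ : N₂ ≤ N := (le_max_right _ _).trans ((le_max_left _ _).trans hN)
  have hN3 : 3 ≤ N := (le_max_right _ _).trans hN
  have hNr : (1 : ℝ) ≤ N := by exact_mod_cast (by omega : 1 ≤ N)
  have hN0 : (0 : ℝ) < N := by linarith
  have hmeet := hN₂ N hNN₂
  set D₁ : Finset ℤ := (Finset.Icc (-(N : ℤ)) N).filter (fun n : ℤ => n ≠ 0 ∧
          ∃ n' : ℤ, Squarefree n' ∧ (∃ k : ℤ, n = n' * k ^ 2) ∧
            ¬ (∀ x : ℕ, InRange 11 τ₁ N x → |share n x - dens n'| ≤ ε)) with hD₁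
  set Q₂ : ℤ → Prop := fun n => ∃ x : ℕ, Y ≤ x ∧ (x : ℝ) ≤ (N : ℝ) ^ ((1 / 8 : ℝ) / 20) ∧
    ε / 2 < |artinP n x / Nat.primeCounting x - CA| with hQ₂
  set Q₃ : ℤ → Prop := fun n => ∃ x : ℕ, N ^ 11 ≤ x ∧
    (x : ℝ) ≤ Real.exp T ∧
    ε / 2 < |artinP n x / Nat.primeCounting x - CA| with hQ₃
  set D₂ : Finset ℤ := (Finset.Icc (-(N : ℤ)) N).filter (fun n : ℤ => n ≠ 0 ∧ Q₂ n) with hD₂
  set D₃ : Finset ℤ := (Finset.Icc (-(N : ℤ)) N).filter (fun n : ℤ => n ≠ 0 ∧ Q₃ n) with hD₃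
  set D₄ : Finset ℤ := (Finset.Icc (-(N : ℤ)) N).filter (fun n : ℤ => n ≠ 0 ∧
    ∃ b : ℤ, b.natAbs ≤ B ∧ ∃ m : ℤ, n = b * m ^ 2) with hD₄
  have hD₁c : (D₁.card : ℝ) ≤ (N : ℝ) ^ (1 / 2 + 1 / 8 : ℝ) := (h1 N hNN₁).2
  have hD₂c : (D₂.card : ℝ) ≤
      2 * (N * Real.exp (-((Y : ℝ) ^ κ₂)) + (N : ℝ) ^ (1 / 2 + 1 / 8 : ℝ)) := by
    refine signed_count N _ Q₂ (fun a ha E hE hQ => h2 N Y hYY₁ a ha E (fun m hm => (hE m hm).2)
      hQ) D₂ ?_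
    intro n hn
    rw [hD₂, Finset.mem_filter, Finset.mem_Icc] at hn
    exact ⟨hn.2.1, by omega, hn.2.2⟩
  have hD₃c : (D₃.card : ℝ) ≤ 2 * (C₃ * (N : ℝ) ^ (1 - κ₃ / Real.log T)) := by
    refine signed_count N _ Q₃ (fun a ha E hE hQ => h3 N (by omega) T hT a ha E hE hQ) D₃ ?_
    intro n hn
    rw [hD₃, Finset.mem_filter, Finset.mem_Icc] at hn
    exact ⟨hn.2.1, by omega, hn.2.2⟩
  have hD₄c : (D₄.card : ℝ) ≤ ((2 * B + 1 : ℕ) : ℝ) * 2 * (N : ℝ) ^ (1 / 2 : ℝ) := by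
    have h4 := small_part_count B N D₄ (fun n hn => by
      rw [hD₄, Finset.mem_filter, Finset.mem_Icc] at hn
      exact ⟨by omega, hn.2.1⟩) (fun n hn => (Finset.mem_filter.mp hn).2.2)
    have h5 : (D₄.card : ℝ) ≤ ((2 * B + 1 : ℕ) : ℝ) * ((Nat.sqrt N : ℝ) + 1) := by
      exact_mod_cast h4
    have h6 : (Nat.sqrt N : ℝ) ≤ (N : ℝ) ^ (1/2 : ℝ) := by
      rw [← Real.sqrt_eq_rpow]
      exact Real.nat_sqrt_le_real_sqrt
    have h7 : (1 : ℝ) ≤ (N : ℝ) ^ (1/2 : ℝ) := Real.one_le_rpow hNr (by norm_num)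
    calc (D₄.card : ℝ) ≤ ((2 * B + 1 : ℕ) : ℝ) * ((Nat.sqrt N : ℝ) + 1) := h5
      _ ≤ ((2 * B + 1 : ℕ) : ℝ) * (2 * (N : ℝ) ^ (1 / 2 : ℝ)) := by
          apply mul_le_mul_of_nonneg_left _ (Nat.cast_nonneg _)
          linarith
      _ = _ := by ring
  have hsub : D ⊆ D₁ ∪ D₂ ∪ D₃ ∪ D₄ := by
    intro n hn
    rw [hD, Finset.mem_filter] at hn
    obtain ⟨hnI, hn0, n', hsq, ⟨k, hk⟩, hbad⟩ := hn
    rw [Finset.mem_union, Finset.mem_union, Finset.mem_union]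
    by_cases hnB : n'.natAbs ≤ B
    · right
      rw [hD₄, Finset.mem_filter]
      exact ⟨hnI, hn0, n', hnB, k, hk⟩
    left
    push Not at hnB
    have hclose := dens_close hsq hε hnB
    obtain ⟨x, hx⟩ := not_forall.mp hbad
    obtain ⟨hx1, hx⟩ := Classical.not_imp.mp hx
    obtain ⟨hx2, hx3⟩ := Classical.not_imp.mp hx
    rw [not_le] at hx3
    have hkey : ε / 2 < |artinP n x / Nat.primeCounting x - CA| := by
      rw [share_artinP] at hx3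
      have h10 := abs_sub_le (artinP n x / Nat.primeCounting x) CA (dens n')
      rw [abs_sub_comm] at hclose
      linarith
    by_cases hxa : (x : ℝ) ≤ (N : ℝ) ^ ((1 / 8 : ℝ) / 20)
    · left; right
      rw [hD₂, Finset.mem_filter]
      exact ⟨hnI, hn0, x, hx1, hxa, hkey⟩
    · by_cases hxb : (x : ℝ) ≤ (N : ℝ) ^ (11 : ℝ)
      · left; left
        rw [hD₁, Finset.mem_filter]
        refine ⟨hnI, hn0, n', hsq, ⟨k, hk⟩, ?_⟩
        intro hcon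
        have := hcon x ⟨hmeet.trans (not_le.mp hxa).le, hxb⟩
        linarith
      · right
        rw [hD₃, Finset.mem_filter]
        refine ⟨hnI, hn0, x, ?_, hx2, hkey⟩
        have h8 := (not_le.mp hxb).le
        rw [show (11 : ℝ) = ((11 : ℕ) : ℝ) by norm_num, Real.rpow_natCast] at h8
        exact_mod_cast h8
  have hcard : (D.card : ℝ) ≤ D₁.card + D₂.card + D₃.card + D₄.card := by
    have h4 := Finset.card_le_card hsub
    have h5 := Finset.card_union_le (D₁ ∪ D₂ ∪ D₃) D₄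
    have h6 := Finset.card_union_le (D₁ ∪ D₂) D₃
    have h7 := Finset.card_union_le D₁ D₂
    exact_mod_cast (by omega : D.card ≤ D₁.card + D₂.card + D₃.card + D₄.card)
  set W : ℝ := (N : ℝ) ^ (1 - κ / Real.log T) with hW
  have hκT : κ / Real.log T ≤ 1 / 4 := by
    rw [div_le_iff₀ (by linarith)]; linarith
  have hhalf : (N : ℝ) ^ (1 / 2 : ℝ) ≤ W :=
    Real.rpow_le_rpow_of_exponent_le hNr (by linarith)
  have hhalf2 : (N : ℝ) ^ (1 / 2 + 1 / 8 : ℝ) ≤ W :=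
    Real.rpow_le_rpow_of_exponent_le hNr (by linarith)
  have h8 : (N : ℝ) ^ (1 - κ₃ / Real.log T) ≤ W := by
    apply Real.rpow_le_rpow_of_exponent_le hNr
    have : κ / Real.log T ≤ κ₃ / Real.log T := by
      apply div_le_div_of_nonneg_right hκκ₃; linarith
    linarith
  have hexp := hY₂ Y hYY₂
  have h9 : 2 * (N * Real.exp (-((Y : ℝ) ^ κ₂))) ≤ N * Real.exp (-((Y : ℝ) ^ κ)) := by
    calc 2 * (N * Real.exp (-((Y : ℝ) ^ κ₂))) = N * (2 * Real.exp (-((Y : ℝ) ^ κ₂))) := by ring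
      _ ≤ N * Real.exp (-((Y : ℝ) ^ (κ₂ / 2))) := by gcongr
      _ ≤ _ := by
        apply mul_le_mul_of_nonneg_left _ hNr0
        apply Real.exp_le_exp.mpr
        have := Real.rpow_le_rpow_of_exponent_le hY1 hκκ₂
        linarith
  have h10 : 2 * (C₃ * (N : ℝ) ^ (1 - κ₃ / Real.log T)) ≤ 2 * C₃ * W := by
    rw [mul_assoc]
    gcongr
  have h11 : ((2 * B + 1 : ℕ) : ℝ) * 2 * (N : ℝ) ^ (1 / 2 : ℝ) ≤
      ((2 * B + 1 : ℕ) : ℝ) * 2 * W := by gcongr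
  have h12 : Cb * W ≤ max (2 * (N₀ : ℝ) ^ (κ / Real.log 2)) Cb * W :=
    mul_le_mul_of_nonneg_right (le_max_right _ _) hpow0
  have h13 : Cb * W = W + 2 * W + 2 * C₃ * W + ((2 * B + 1 : ℕ) : ℝ) * 2 * W := by
    rw [hCb]; ring
  linarith

end Pool.Agent.ARS
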