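import Pool.Agent.ARS.Defs

set_option autoImplicit false

/-!
# ARS module NSA: the completely multiplicative function `hh z α`

`hh z α n = ∏ over the prime factors of n with multiplicity of (p ^ α if p < z, otherwise 1)`.
`Nat.perm_primeFactorsList_mul` gives multiplicativity; for a prime `p`,
`Nat.primeFactorsList_prime`.  For `m = s u` with `s` `z`-smooth (all prime factors `< z`,
`Nat.mem_smoothNumbers`) and `u` `z`-rough: `hh z α s = s ^ α`, `hh z α u = 1`.
-/

namespace Pool.Agent.ARS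

theorem hh_one (z : ℕ) (α : ℝ) : hh z α 1 = 1 := by
  simp [hh]

theorem hh_mul (z : ℕ) (α : ℝ) {m n : ℕ} (hm : m ≠ 0) (hn : n ≠ 0) :
    hh z α (m * n) = hh z α m * hh z α n := by
  unfold hh
  rw [((Nat.perm_primeFactorsList_mul hm hn).map _).prod_eq, List.map_append, List.prod_append]

theorem hh_prime (z : ℕ) (α : ℝ) {p : ℕ} (hp : p.Prime) :
    hh z α p = if p < z then (p : ℝ) ^ α else 1 := by
  unfold hh
  rw [Nat.primeFactorsList_prime hp]
  simp

theorem hh_pow (z : ℕ) (α : ℝ) {n : ℕ} (hn : n ≠ 0) (k : ℕ) : hh z α (n ^ k) = hh z α n ^ k := by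
  induction k with
  | zero => simp [hh_one]
  | succ k ih => rw [pow_succ, hh_mul z α (pow_ne_zero k hn) hn, ih, pow_succ]

theorem hh_one_le (z : ℕ) (α : ℝ) (hα : 0 ≤ α) (n : ℕ) : 1 ≤ hh z α n := by
  unfold hh
  have key : ∀ l : List ℕ, (∀ p ∈ l, 1 ≤ p) →
      1 ≤ (l.map (fun p => if p < z then (p : ℝ) ^ α else 1)).prod := by
    intro l
    induction l with
    | nil => intro _; simp
    | cons a l ih =>
      intro h
      rw [List.map_cons, List.prod_cons]
      have h1 : (1 : ℝ) ≤ a := by exact_mod_cast h a (by simp)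
      have h2 : (1 : ℝ) ≤ if a < z then (a : ℝ) ^ α else 1 := by
        split_ifs
        · exact Real.one_le_rpow h1 hα
        · exact le_refl _
      exact one_le_mul_of_one_le_of_one_le h2 (ih fun p hp => h p (by simp [hp]))
  exact key _ fun p hp => (Nat.prime_of_mem_primeFactorsList hp).one_lt.le

theorem hh_le (z : ℕ) (α : ℝ) (hα : 0 ≤ α) {n : ℕ} (hn : n ≠ 0) : hh z α n ≤ (n : ℝ) ^ α := by
  unfold hh
  have key : ∀ l : List ℕ, (∀ p ∈ l, 1 ≤ p) →
      (l.map (fun p => if p < z then (p : ℝ) ^ α else 1)).prod ≤ ((l.prod : ℕ) : ℝ) ^ α := by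
    intro l
    induction l with
    | nil => intro _; simp
    | cons a l ih =>
      intro h
      rw [List.map_cons, List.prod_cons, List.prod_cons]
      have h1 : (1 : ℝ) ≤ a := by exact_mod_cast h a (by simp)
      have h2 : (if a < z then (a : ℝ) ^ α else 1) ≤ (a : ℝ) ^ α := by
        split_ifs
        · exact le_refl _
        · exact Real.one_le_rpow h1 hα
      have h3 := ih fun p hp => h p (by simp [hp])
      have h4 : 0 ≤ (l.map (fun p => if p < z then (p : ℝ) ^ α else 1)).prod := by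
        refine List.prod_nonneg fun x hx => ?_
        obtain ⟨p, -, rfl⟩ := List.mem_map.1 hx
        split_ifs <;> positivity
      rw [Nat.cast_mul, Real.mul_rpow (Nat.cast_nonneg _) (Nat.cast_nonneg _)]
      exact mul_le_mul h2 h3 h4 (by positivity)
  have h := key n.primeFactorsList fun p hp => (Nat.prime_of_mem_primeFactorsList hp).one_lt.le
  rw [Nat.prod_primeFactorsList hn] at h
  exact h

theorem hh_smooth (z : ℕ) (α : ℝ) {s : ℕ} (hs : s ∈ Nat.smoothNumbers z) :
    hh z α s = (s : ℝ) ^ α := by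
  obtain ⟨hs0, hs1⟩ := Nat.mem_smoothNumbers.1 hs
  unfold hh
  have key : ∀ l : List ℕ, (∀ p ∈ l, p < z) →
      (l.map (fun p => if p < z then (p : ℝ) ^ α else 1)).prod = ((l.prod : ℕ) : ℝ) ^ α := by
    intro l
    induction l with
    | nil => intro _; simp
    | cons a l ih =>
      intro h
      rw [List.map_cons, List.prod_cons, List.prod_cons, if_pos (h a (by simp)),
        ih fun p hp => h p (by simp [hp]), Nat.cast_mul,
        Real.mul_rpow (Nat.cast_nonneg _) (Nat.cast_nonneg _)]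
  rw [key _ hs1, Nat.prod_primeFactorsList hs0]

/-- lower bound at the nearly smooth numbers -/
theorem hh_near (z K N m : ℕ) (α : ℝ) (hα : 0 ≤ α) (hz : 1 ≤ z) (hm : 1 ≤ m) (h : NSm z K N m) :
    ((N : ℝ) / (z : ℝ) ^ K) ^ α ≤ hh z α m := by
  obtain ⟨s, u, rfl, hs, hu, hN⟩ := h
  have hs0 : s ≠ 0 := by
    rintro rfl
    simp at hm
  have hu0 : u ≠ 0 := by
    rintro rfl
    simp at hm
  have hz0 : (0 : ℝ) < (z : ℝ) ^ K := by
    have : (0 : ℝ) < z := by exact_mod_cast hz
    positivity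
  rw [hh_mul z α hs0 hu0, hh_smooth z α hs]
  have h1 : (N : ℝ) / (z : ℝ) ^ K ≤ s := by
    rw [div_le_iff₀ hz0]
    have : (N : ℝ) < (z : ℝ) ^ K * s := by exact_mod_cast hN
    linarith
  calc ((N : ℝ) / (z : ℝ) ^ K) ^ α ≤ (s : ℝ) ^ α :=
        Real.rpow_le_rpow (by positivity) h1 hα
    _ ≤ (s : ℝ) ^ α * hh z α u := le_mul_of_one_le_right (by positivity) (hh_one_le z α hα u)

end Pool.Agent.ARS
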