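import Pool.Agent.ARS.Nsa
import Pool.Agent.Helper76.OB.MER
import Pool.Agent.Helper35.Primes

set_option autoImplicit false

/-!
# ARS module NSB: the logarithmic mean value of `hh`

`hh z α` is completely multiplicative and positive, so `∑_{m ≤ N} hh m / m` is at most the sum over
all `(N+1)`-smooth numbers, which is `∏_{p ≤ N} (1 - hh p / p)⁻¹` (Mathlib
`EulerProduct.summable_and_hasSum_smoothNumbers_prod_primesBelow_geometric`, used in the same way in
`Pool.Agent.ARU.smooth_sum`, `ARU/Smo.lean`; use the completely multiplicative function with value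
`0` at `0`).  For `p < z`, `t = p^(α-1) ≤ 2^(-3/4) ≤ 3/5` (`α ≤ 1/4`) and
`1 / (1 - t) = 1 / (1 - 1/p) * (1 + (t - 1/p)/(1 - t)) ≤ 1 / (1 - 1/p) * exp (5/2 (t - 1/p))`,
`t - 1/p = (p^α - 1)/p ≤ e α log p / p` (`p^α = exp (α log p)`, `α log p ≤ α log z ≤ 1`,
`e^u - 1 ≤ e u` for `0 ≤ u ≤ 1`).  Hence the product is at most
`∏_{p ≤ N} (1 - 1/p)⁻¹ * exp (5/2 e α ∑_{p < z} log p / p)`; the first factor is at most `C log N`
(`Pool.Agent.Helper76.OB.mertens_product`), and `∑_{p < z} log p / p ≤ log z + 2`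
(`Pool.Agent.Helper35.mertens_upper`), `α (log z + 2) ≤ 1 + 2 α ≤ 3/2`.
-/

namespace Pool.Agent.ARS

/-- `hh z α n / n` as a completely multiplicative function -/
private noncomputable def rf (z : ℕ) (α : ℝ) : ℕ →* ℝ where
  toFun n := if n = 0 then 0 else hh z α n / n
  map_one' := by simp [hh_one]
  map_mul' a b := by
    by_cases ha : a = 0
    · simp [ha]
    by_cases hb : b = 0
    · simp [hb]
    rw [if_neg (mul_ne_zero ha hb), if_neg ha, if_neg hb, hh_mul z α ha hb, Nat.cast_mul]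
    have ha' : (a : ℝ) ≠ 0 := by exact_mod_cast ha
    have hb' : (b : ℝ) ≠ 0 := by exact_mod_cast hb
    field_simp

private lemma rf_apply (z : ℕ) (α : ℝ) {n : ℕ} (hn : n ≠ 0) : rf z α n = hh z α n / n := if_neg hn

private lemma rf_nonneg (z : ℕ) (α : ℝ) (hα : 0 ≤ α) (n : ℕ) : 0 ≤ rf z α n := by
  by_cases hn : n = 0
  · exact le_of_eq (if_pos hn).symm
  · rw [rf_apply z α hn]
    have := hh_one_le z α hα n
    positivity

private lemma rf_prime_le (z : ℕ) (α : ℝ) (hα0 : 0 ≤ α) (hα : α ≤ 1 / 4) {p : ℕ} (hp : p.Prime) :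
    rf z α p ≤ 3 / 5 := by
  have hp2 : (2 : ℝ) ≤ p := by exact_mod_cast hp.two_le
  have hp0 : (0 : ℝ) < p := by linarith
  rw [rf_apply z α hp.ne_zero]
  have h1 : hh z α p ≤ (p : ℝ) ^ α := hh_le z α hα0 hp.ne_zero
  have h2 : (p : ℝ) ^ α / p = (p : ℝ) ^ (α - 1) := by
    rw [Real.rpow_sub_one hp0.ne']
  have h3 : (p : ℝ) ^ (α - 1) ≤ (2 : ℝ) ^ (α - 1) :=
    Real.rpow_le_rpow_of_nonpos (by norm_num) hp2 (by linarith)
  have h4 : (2 : ℝ) ^ (α - 1) ≤ (2 : ℝ) ^ (-(3 / 4) : ℝ) :=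
    Real.rpow_le_rpow_of_exponent_le (by norm_num) (by linarith)
  have h5 : (2 : ℝ) ^ (-(3 / 4) : ℝ) ≤ 3 / 5 := by
    have h6 : ((2 : ℝ) ^ (-(3 / 4) : ℝ)) ^ 4 = 1 / 8 := by
      rw [← Real.rpow_natCast, ← Real.rpow_mul (by norm_num)]
      norm_num
    by_contra h
    push Not at h
    have h7 : (3 / 5 : ℝ) ^ 4 < ((2 : ℝ) ^ (-(3 / 4) : ℝ)) ^ 4 :=
      pow_lt_pow_left₀ h (by norm_num) (by norm_num)
    rw [h6] at h7
    norm_num at h7
  calc hh z α p / p ≤ (p : ℝ) ^ α / p := by gcongr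
    _ = (p : ℝ) ^ (α - 1) := h2
    _ ≤ 3 / 5 := h3.trans (h4.trans h5)

private lemma factor_le {t u : ℝ} (hut : u ≤ t) (ht : t ≤ 3 / 5) (hu : 0 ≤ u) :
    (1 - t)⁻¹ ≤ (1 - u)⁻¹ * Real.exp (5 / 2 * (t - u)) := by
  have h1 : 0 < 1 - t := by linarith
  have h2 : 0 < 1 - u := by linarith
  have h3 : 1 + 5 / 2 * (t - u) ≤ Real.exp (5 / 2 * (t - u)) := by
    have := Real.add_one_le_exp (5 / 2 * (t - u))
    linarith
  have h4 : (1 - t)⁻¹ ≤ (1 - u)⁻¹ * (1 + 5 / 2 * (t - u)) := by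
    rw [inv_eq_one_div, inv_eq_one_div, div_mul_eq_mul_div, one_mul, div_le_div_iff₀ h1 h2]
    nlinarith [mul_nonneg (sub_nonneg.2 hut) (by linarith : (0 : ℝ) ≤ 3 / 5 - t)]
  exact h4.trans (mul_le_mul_of_nonneg_left h3 (by positivity))

theorem sum_hh_div : ∃ C : ℝ, 0 < C ∧ ∀ (N z : ℕ) (α : ℝ), 2 ≤ z → z ≤ N → 0 ≤ α → α ≤ 1 / 4 →
    α * Real.log z ≤ 1 → ∑ m ∈ Finset.Icc 1 N, hh z α m / m ≤ C * Real.log N := by
  obtain ⟨C, hC, hMer⟩ := Pool.Agent.Helper76.OB.mertens_product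
  refine ⟨C * Real.exp (15 / 2), by positivity, fun N z α hz hzN hα0 hα hαz => ?_⟩
  have hlt : ∀ {p : ℕ}, p.Prime → ‖rf z α p‖ < 1 := by
    intro p hp
    rw [Real.norm_of_nonneg (rf_nonneg z α hα0 p)]
    have := rf_prime_le z α hα0 hα hp
    linarith
  have hsum := (EulerProduct.summable_and_hasSum_smoothNumbers_prod_primesBelow_geometric
    (f := rf z α) hlt (N + 1)).2
  have hsum2 : HasSum ((Nat.smoothNumbers (N + 1)).indicator (fun n => rf z α n))
      (∏ p ∈ (N + 1).primesBelow, (1 - rf z α p)⁻¹) := by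
    rw [← hasSum_subtype_iff_indicator]
    exact hsum
  have h1 : ∑ m ∈ Finset.Icc 1 N, hh z α m / m ≤ ∏ p ∈ (N + 1).primesBelow, (1 - rf z α p)⁻¹ := by
    have h2 : ∑ m ∈ Finset.Icc 1 N, hh z α m / m = ∑ m ∈ Finset.Icc 1 N,
        (Nat.smoothNumbers (N + 1)).indicator (fun n => rf z α n) m := by
      refine Finset.sum_congr rfl fun m hm => ?_
      obtain ⟨hm1, hmN⟩ := Finset.mem_Icc.1 hm
      rw [Set.indicator_of_mem, rf_apply z α (by omega)]
      rw [Nat.mem_smoothNumbers]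
      refine ⟨by omega, fun p hp => ?_⟩
      have := Nat.le_of_mem_primeFactorsList hp
      omega
    rw [h2]
    refine sum_le_hasSum _ (fun i _ => ?_) hsum2
    exact Set.indicator_nonneg (fun n _ => rf_nonneg z α hα0 n) _
  refine h1.trans ?_
  have hf0 : ∀ p ∈ (N + 1).primesBelow, 1 / (p : ℝ) ≤ rf z α p := by
    intro p hp
    have hpp := Nat.prime_of_mem_primesBelow hp
    rw [rf_apply z α hpp.ne_zero]
    have := hh_one_le z α hα0 p
    gcongr
  have h2 : ∏ p ∈ (N + 1).primesBelow, (1 - rf z α p)⁻¹ ≤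
      ∏ p ∈ (N + 1).primesBelow, ((1 - 1 / (p : ℝ))⁻¹ *
        Real.exp (5 / 2 * (rf z α p - 1 / (p : ℝ)))) := by
    refine Finset.prod_le_prod (fun p hp => ?_) fun p hp => ?_
    · have hpp := Nat.prime_of_mem_primesBelow hp
      have := rf_prime_le z α hα0 hα hpp
      exact inv_nonneg.2 (by linarith)
    · have hpp := Nat.prime_of_mem_primesBelow hp
      exact factor_le (hf0 p hp) (rf_prime_le z α hα0 hα hpp) (by positivity)
  refine h2.trans ?_
  rw [Finset.prod_mul_distrib, ← Real.exp_sum]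
  have hPR : (N + 1).primesBelow = Pool.Agent.Helper76.OB.PR 1 N := by
    ext p
    rw [Nat.mem_primesBelow, Pool.Agent.Helper76.OB.PR, Finset.mem_filter, Finset.mem_Ioc]
    constructor
    · rintro ⟨ha, hb⟩
      exact ⟨⟨hb.one_lt, by omega⟩, hb⟩
    · rintro ⟨⟨ha, hb⟩, hc⟩
      exact ⟨by omega, hc⟩
  have h3 : ∏ p ∈ (N + 1).primesBelow, (1 - 1 / (p : ℝ))⁻¹ ≤ C * Real.log N := by
    rw [hPR]
    exact hMer N (by omega)
  have h4 : ∑ p ∈ (N + 1).primesBelow, 5 / 2 * (rf z α p - 1 / (p : ℝ)) ≤ 15 / 2 := by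
    have h5 : ∀ p ∈ (N + 1).primesBelow, rf z α p - 1 / (p : ℝ) ≤
        if p < z then 2 * α * (Real.log p / p) else 0 := by
      intro p hp
      have hpp := Nat.prime_of_mem_primesBelow hp
      have hp0 : (0 : ℝ) < p := by exact_mod_cast hpp.pos
      have hp1 : (1 : ℝ) ≤ p := by exact_mod_cast hpp.one_lt.le
      rw [rf_apply z α hpp.ne_zero, hh_prime z α hpp]
      by_cases hpz : p < z
      · rw [if_pos hpz, if_pos hpz]
        have hlog0 : 0 ≤ Real.log p := Real.log_nonneg hp1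
        have hu : α * Real.log p ≤ 1 := by
          refine le_trans (mul_le_mul_of_nonneg_left ?_ hα0) hαz
          exact Real.log_le_log hp0 (by exact_mod_cast hpz.le)
        have hu0 : 0 ≤ α * Real.log p := mul_nonneg hα0 hlog0
        have h6 := Real.abs_exp_sub_one_le (x := α * Real.log p) (by rw [abs_of_nonneg hu0]; exact hu)
        rw [abs_of_nonneg hu0] at h6
        have h7 := (le_abs_self _).trans h6
        have h8 : (p : ℝ) ^ α = Real.exp (α * Real.log p) := by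
          rw [Real.rpow_def_of_pos hp0, mul_comm]
        rw [h8, ← sub_div]
        calc (Real.exp (α * Real.log p) - 1) / p ≤ (2 * (α * Real.log p)) / p := by gcongr
          _ = 2 * α * (Real.log p / p) := by ring
      · rw [if_neg hpz, if_neg hpz, sub_self]
    rw [← Finset.mul_sum]
    have h6 : ∑ p ∈ (N + 1).primesBelow, (rf z α p - 1 / (p : ℝ)) ≤ 3 := by
      calc ∑ p ∈ (N + 1).primesBelow, (rf z α p - 1 / (p : ℝ))
          ≤ ∑ p ∈ (N + 1).primesBelow, (if p < z then 2 * α * (Real.log p / p) else 0) :=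
            Finset.sum_le_sum h5
        _ = ∑ p ∈ (N + 1).primesBelow.filter (fun p => p < z), 2 * α * (Real.log p / p) := by
            rw [Finset.sum_filter]
        _ ≤ ∑ p ∈ Pool.Agent.Helper35.prm 0 z, 2 * α * (Real.log p / p) := by
            refine Finset.sum_le_sum_of_subset_of_nonneg (fun p hp => ?_) fun p hp _ => ?_
            · rw [Finset.mem_filter, Nat.mem_primesBelow] at hp
              rw [Pool.Agent.Helper35.mem_prm]
              exact ⟨⟨hp.1.2.pos, hp.2.le⟩, hp.1.2⟩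
            · rw [Pool.Agent.Helper35.mem_prm] at hp
              have : (1 : ℝ) ≤ p := by exact_mod_cast hp.2.one_lt.le
              have := Real.log_nonneg this
              positivity
        _ = 2 * α * ∑ p ∈ Pool.Agent.Helper35.prm 0 z, Real.log p / p := by
            rw [Finset.mul_sum]
        _ ≤ 2 * α * (Real.log z + 2) :=
            mul_le_mul_of_nonneg_left (Pool.Agent.Helper35.mertens_upper z (by omega))
              (by positivity)
        _ ≤ 3 := by nlinarith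
    linarith
  have hlogN : 0 ≤ Real.log N := Real.log_nonneg (by
    have : 1 ≤ N := by omega
    exact_mod_cast this)
  calc (∏ p ∈ (N + 1).primesBelow, (1 - 1 / (p : ℝ))⁻¹) *
        Real.exp (∑ p ∈ (N + 1).primesBelow, 5 / 2 * (rf z α p - 1 / (p : ℝ)))
      ≤ (C * Real.log N) * Real.exp (15 / 2) := by
        have h7 := Real.exp_le_exp.2 h4
        have h8 : 0 ≤ C * Real.log N := by positivity
        exact mul_le_mul h3 h7 (Real.exp_pos _).le h8
    _ = C * Real.exp (15 / 2) * Real.log N := by ring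

end Pool.Agent.ARS
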