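import Pool.Agent.ARS.Defs

set_option autoImplicit false

/-!
# ARS module OPT: the large sieve property of the two deviations

`DC` and `D` are defined in `Helper8/ArtinAll.lean`, `Helper8/ArtinMain.lean`
(namespace `Pool.Agent.Helper8.ArtinLS`).

`sieve_DC`: `DC (a * s) m x = DC a (s * m) x` (the definition depends only on the product), then
`exceptional_opt (a * s)` of `Helper8/ArtinOpt.lean` (our bound has an additional factor 2).

`sieve_D`: copy the proof of `exceptional_opt` with the changes which lead from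
`exceptional_setC` (`Helper8/ArtinAll.lean`) to `exceptional_set` (`Helper8/ArtinMain.lean`): the
index set is `(oddPrimes x).sigma Q`, by `D_eq b (s * m) x` the deviation is
`∑_p ∑_{χ ∈ Q p} coef p χ * χ b * (χ ^ 2) (s m)`, `(χ ^ 2) (s m) = (χ ^ 2) s * (χ ^ 2) m` with
`‖(χ ^ 2) s‖ ≤ 1`, `sum_sq_le` gives the factor `2`, `moment_bound_opt` bounds the moments.
-/

namespace Pool.Agent.ARS

open Finset ComplexConjugate Pool.Agent.Helper8.ArtinLS

theorem sieve_DC (a : ℤ) (x : ℕ) (hx : 1 ≤ x) : Sieve x (fun m => DC a m x) := by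
  intro s M r R E hr hE hR T hT hD
  have h1 : ∀ m : ℕ, DC a (s * m) x = DC (a * s) m x := by
    intro m
    have h2 : a * ((s * m : ℕ) : ℤ) = a * s * m := by
      push_cast
      ring
    unfold DC
    rw [h2]
  have h3 := exceptional_opt (a * s) x M r R hx hr E hE hR T hT fun m hm => by
    rw [← h1]
    exact hD m hm
  refine h3.trans ?_
  have hpi := Real.pi_pos
  have h4 : 0 ≤ (R : ℝ) * (((x : ℝ) * (1 + Real.log x)) ^ 2) ^ r *
      ((x : ℝ) ^ 2 + 4 * Real.pi * ((M : ℝ) ^ r + 1)) := by positivity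
  have h5 : 2 * (R : ℝ) * (((x : ℝ) * (1 + Real.log x)) ^ 2) ^ r *
      ((x : ℝ) ^ 2 + 4 * Real.pi * ((M : ℝ) ^ r + 1)) =
      2 * ((R : ℝ) * (((x : ℝ) * (1 + Real.log x)) ^ 2) ^ r *
      ((x : ℝ) ^ 2 + 4 * Real.pi * ((M : ℝ) ^ r + 1))) := by ring
  rw [h5]
  linarith

theorem sieve_D (b : ℤ) (x : ℕ) (hx : 1 ≤ x) : Sieve x (fun m => D b m x) := by
  classical
  intro s M r R E hr hE hR T hT hD
  simp only at hD
  -- trivial case
  have hx1 : (1 : ℝ) ≤ x := by exact_mod_cast hx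
  have hlog : 0 ≤ Real.log x := Real.log_nonneg hx1
  set W : ℝ := (x : ℝ) * (1 + Real.log x) with hW
  have hWx : (x : ℝ) ≤ W := by rw [hW]; nlinarith
  have hW0 : 0 < W := lt_of_lt_of_le (by linarith) hWx
  rcases Finset.eq_empty_or_nonempty E with rfl | hEne
  · rw [Finset.card_empty, Nat.cast_zero, zero_mul, zero_pow (by omega), mul_zero]
    positivity
  have hEpos : (0 : ℝ) < E.card := by exact_mod_cast Finset.card_pos.2 hEne
  -- signs
  set ε : ℕ → ℂ := fun m => ((SignType.sign (D b (s * m) x) : ℤ) : ℂ) with hε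
  have hεn : ∀ m, ‖ε m‖ ≤ 1 := by
    intro m
    rw [hε]
    simp only
    rcases lt_trichotomy (D b (s * m) x) 0 with h | h | h
    · rw [sign_neg h]; simp
    · rw [h, sign_zero]; simp
    · rw [sign_pos h]; simp
  have hεD : ∀ m, ε m * (D b (s * m) x : ℂ) = ((|D b (s * m) x| : ℝ) : ℂ) := by
    intro m
    have := sign_mul_self (D b (s * m) x)
    have h2 : ((SignType.sign (D b (s * m) x) : ℝ) : ℂ) * (D b (s * m) x : ℂ) =
        ((|D b (s * m) x| : ℝ) : ℂ) := by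
      exact_mod_cast congrArg (fun z : ℝ => (z : ℂ)) this
    rw [← h2, hε]
    congr 1
    rcases lt_trichotomy (D b (s * m) x) 0 with h | h | h
    · simp only [sign_neg h]; simp
    · simp only [h, sign_zero]; simp
    · simp only [sign_pos h]; simp
  -- the index set
  set I : Finset (Σ p : ℕ, DirichletCharacter ℂ p) := (oddPrimes x).sigma Q with hI
  set w : (Σ p : ℕ, DirichletCharacter ℂ p) → ℝ := fun j => ‖coef j.1 j.2‖ with hw
  set z : (Σ p : ℕ, DirichletCharacter ℂ p) → ℝ := fun j =>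
    ‖∑ m ∈ E, ε m * (j.2 ^ 2) (m : ZMod j.1)‖ with hz
  have h1 : (E.card : ℝ) * T ≤ ∑ j ∈ I, w j * z j := by
    have h2 : (E.card : ℝ) * T ≤ ∑ m ∈ E, |D b (s * m) x| := by
      rw [← nsmul_eq_mul]
      exact Finset.card_nsmul_le_sum E _ T hD
    refine h2.trans ?_
    have h3 : ((∑ m ∈ E, |D b (s * m) x| : ℝ) : ℂ) =
        ∑ j ∈ I, coef j.1 j.2 * (j.2 (b : ZMod j.1) * (j.2 ^ 2) (s : ZMod j.1)) *
          ∑ m ∈ E, ε m * (j.2 ^ 2) (m : ZMod j.1) := by
      push_cast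
      have h4 : ∀ m ∈ E, ((|D b (s * m) x| : ℝ) : ℂ) = ∑ j ∈ I,
          ε m * (coef j.1 j.2 * j.2 (b : ZMod j.1) * ((j.2 ^ 2) (s : ZMod j.1) *
            (j.2 ^ 2) (m : ZMod j.1))) := by
        intro m _
        rw [← hεD, D_eq, ← Finset.mul_sum]
        rw [hI, Finset.sum_sigma]
        congr 1
        refine Finset.sum_congr rfl fun p _ => Finset.sum_congr rfl fun χ _ => ?_
        rw [Nat.cast_mul, map_mul]
      rw [Finset.sum_congr rfl h4, Finset.sum_comm]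
      refine Finset.sum_congr rfl fun j _ => ?_
      rw [Finset.mul_sum]
      refine Finset.sum_congr rfl fun m _ => ?_
      ring
    have h5 : ∑ m ∈ E, |D b (s * m) x| = ‖((∑ m ∈ E, |D b (s * m) x| : ℝ) : ℂ)‖ := by
      rw [Complex.norm_real, Real.norm_of_nonneg (Finset.sum_nonneg fun m _ => abs_nonneg _)]
    rw [h5, h3]
    refine (norm_sum_le _ _).trans (Finset.sum_le_sum fun j _ => ?_)
    rw [norm_mul, norm_mul]
    refine mul_le_mul_of_nonneg_right ?_ (norm_nonneg _)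
    refine mul_le_of_le_one_right (norm_nonneg _) ?_
    rw [norm_mul]
    exact mul_le_one₀ (norm_char_le_one _ _) (norm_nonneg _) (norm_char_le_one _ _)
  -- Hölder
  obtain ⟨k, hk⟩ : ∃ k, 2 * r = k + 1 := ⟨2 * r - 1, by omega⟩
  have h6 := holder_pow I w z (fun j _ => norm_nonneg _) (fun j _ => norm_nonneg _) k
  rw [← hk] at h6
  have h7 : ∑ j ∈ I, w j ≤ W := by
    rw [hI, Finset.sum_sigma]
    refine (Finset.sum_le_sum fun p hp => ?_).trans (sum_divisors_oddPrimes_le x)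
    have : Fact p.Prime := ⟨(mem_oddPrimes.1 hp).2.1⟩
    refine (Finset.sum_le_sum_of_subset_of_nonneg (Finset.subset_univ _)
      fun _ _ _ => norm_nonneg _).trans ?_
    exact sum_norm_coef_le
  have h8 : ∑ j ∈ I, w j * z j ^ (2 * r) ≤
      2 * (((x : ℝ) ^ 2 + 4 * Real.pi * ((M : ℝ) ^ r + 1)) * (R * (E.card : ℝ) ^ r)) := by
    have h9 : ∑ j ∈ I, w j * z j ^ (2 * r) ≤ ∑ p ∈ oddPrimes x, ∑ χ ∈ Q p,
        ‖∑ m ∈ E, ε m * (χ ^ 2) (m : ZMod p)‖ ^ (2 * r) := by
      rw [hI, Finset.sum_sigma]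
      refine Finset.sum_le_sum fun p hp => Finset.sum_le_sum fun χ _ => ?_
      have : Fact p.Prime := ⟨(mem_oddPrimes.1 hp).2.1⟩
      have h10 : ‖coef p χ‖ ≤ 1 := norm_coef_le_one χ
      calc _ ≤ 1 * ‖∑ m ∈ E, ε m * (χ ^ 2) (m : ZMod p)‖ ^ (2 * r) := by
            refine mul_le_mul_of_nonneg_right h10 (by positivity)
        _ = _ := one_mul _
    refine h9.trans ?_
    have h11 : ∑ p ∈ oddPrimes x, ∑ χ ∈ Q p,
        ‖∑ m ∈ E, ε m * (χ ^ 2) (m : ZMod p)‖ ^ (2 * r) ≤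
        ∑ p ∈ oddPrimes x, 2 * ∑ ψ ∈ NT p, ‖∑ m ∈ E, ε m * ψ (m : ZMod p)‖ ^ (2 * r) := by
      refine Finset.sum_le_sum fun p hp => ?_
      have : Fact p.Prime := ⟨(mem_oddPrimes.1 hp).2.1⟩
      exact sum_sq_le (mem_oddPrimes.1 hp).2.2
        (fun ψ => ‖∑ m ∈ E, ε m * ψ (m : ZMod p)‖ ^ (2 * r)) (fun ψ => by positivity)
    refine h11.trans ?_
    rw [← Finset.mul_sum]
    refine mul_le_mul_of_nonneg_left ?_ zero_le_two
    refine le_trans ?_ (moment_bound_opt x M r R E hE ε hεn hR)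
    unfold fam
    rw [Finset.sum_sigma]
    refine Finset.sum_le_sum_of_subset_of_nonneg ?_ fun _ _ _ =>
      Finset.sum_nonneg fun _ _ => by positivity
    intro p hp
    rw [mem_oddPrimes] at hp
    rw [Finset.mem_filter, Finset.mem_range]
    exact ⟨by omega, hp.2.1⟩
  set V : ℝ := (x : ℝ) ^ 2 + 4 * Real.pi * ((M : ℝ) ^ r + 1) with hV
  have hpi := Real.pi_pos
  have hV0 : 0 ≤ V := by positivity
  have h12 : ((E.card : ℝ) * T) ^ (2 * r) ≤ W ^ k * (2 * (V * (R * (E.card : ℝ) ^ r))) := by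
    calc ((E.card : ℝ) * T) ^ (2 * r) ≤ (∑ j ∈ I, w j * z j) ^ (2 * r) := by gcongr
      _ ≤ (∑ j ∈ I, w j) ^ k * ∑ j ∈ I, w j * z j ^ (2 * r) := h6
      _ ≤ W ^ k * (2 * (V * (R * (E.card : ℝ) ^ r))) := by
          have : 0 ≤ ∑ j ∈ I, w j := Finset.sum_nonneg fun j _ => norm_nonneg _
          have h13 : 0 ≤ ∑ j ∈ I, w j * z j ^ (2 * r) :=
            Finset.sum_nonneg fun j _ => mul_nonneg (norm_nonneg _) (by positivity)
          gcongr
  -- divide by `|E| ^ r`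
  have hEr : (0 : ℝ) < (E.card : ℝ) ^ r := by positivity
  have h14 : ((E.card : ℝ) * T ^ 2) ^ r ≤ W ^ k * (2 * (V * R)) := by
    have e1 : ((E.card : ℝ) * T) ^ (2 * r) = ((E.card : ℝ) * T ^ 2) ^ r * (E.card : ℝ) ^ r := by
      rw [pow_mul, ← mul_pow]
      congr 1
      ring
    rw [e1] at h12
    have e2 : W ^ k * (2 * (V * (R * (E.card : ℝ) ^ r))) =
        W ^ k * (2 * (V * R)) * (E.card : ℝ) ^ r := by ring
    rw [e2] at h12
    exact le_of_mul_le_mul_right h12 hEr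
  calc (x : ℝ) * ((E.card : ℝ) * T ^ 2) ^ r ≤ W * (W ^ k * (2 * (V * R))) := by gcongr
    _ = 2 * R * W ^ (2 * r) * V := by rw [hk]; ring
    _ = 2 * R * (W ^ 2) ^ r * V := by rw [← pow_mul]

end Pool.Agent.ARS
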