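import Pool.Agent.ARS.Rgh
import Pool.Agent.ARU.Smo
import Pool.Agent.ARU.Rep2

set_option autoImplicit false

/-!
# ARS module RGB: one scale, range `exp ((log N)^B)`

Copy of `Pool.Agent.ARU.scale_four` (`ARU/Rg4.lean`) with `rough_B` (module RGH, use it as a stub)
in the place of `scale_rough`: `m = s u`, `s` smooth, `u` rough (`rough_split`), the fibre of `s`
has at most `N^(δ/2) (N/s)^σ` elements, sum with `smooth_absorb`.
-/

namespace Pool.Agent.ARS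

open Pool.Agent.Helper8.ArtinLS Pool.Agent.Helper6

theorem scale_B (B δ ε : ℝ) (hB : 1 ≤ B) (hδ : 0 < δ) (hδ1 : δ ≤ 1) (hε : 0 < ε) :
    ∃ A : ℝ, 0 < A ∧ ∃ N₀ : ℕ, 2 ≤ N₀ ∧ ∀ x N : ℕ, N₀ ≤ N →
      (N : ℝ) ^ A ≤ x → (x : ℝ) ≤ Real.exp ((Real.log N) ^ B) →
      ∀ g : ℕ → ℝ, Sieve x g → ∀ E : Finset ℕ, (∀ m ∈ E, 1 ≤ m ∧ m ≤ N) →
      (∀ m ∈ E, ε * Nat.primeCounting x ≤ |g m|) →
      (E.card : ℝ) ≤ (N : ℝ) ^ (1 - 1 / (2 * B) + δ) := by
  classical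
  have hB0 : 0 < B := by linarith
  obtain ⟨A, hA, N₁, hN₁2, hone⟩ := rough_B B (δ / 2) ε hB (by positivity) (by linarith) hε
  obtain ⟨N₂, hN₂⟩ := Filter.eventually_atTop.mp
    (Pool.Agent.ARU.smooth_absorb B (δ / 2 / 16) hB (by positivity) (by linarith))
  refine ⟨A, hA, max N₁ N₂, hN₁2.trans (le_max_left _ _), ?_⟩
  intro x N hN hx1 hx2 g hg E hE hbad
  have hNN₁ : N₁ ≤ N := (le_max_left _ _).trans hN
  have hNN₂ : N₂ ≤ N := (le_max_right _ _).trans hN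
  have hsm := hN₂ N hNN₂
  set z : ℕ := ⌊(Real.log N) ^ (2 * B * (1 - δ / 2 / 16))⌋₊ with hz
  set σ : ℝ := 1 - 1 / (2 * B) with hσ
  have hσ0 : 0 ≤ σ := by
    have : 1 / (2 * B) ≤ 1 := by rw [div_le_one (by positivity)]; linarith
    rw [hσ]; linarith
  have hN1 : 1 ≤ N := by omega
  have hN0 : (0 : ℝ) < N := by exact_mod_cast hN1
  have hNr1 : (1 : ℝ) ≤ N := by exact_mod_cast hN1
  set S : Finset ℕ := (Finset.Icc 1 N).filter (fun s => s ∈ Nat.smoothNumbers z) with hS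
  set F : ℕ → Finset ℕ := fun s => (Finset.Icc 1 (N / s)).filter
    (fun u => (∀ p : ℕ, p.Prime → p ∣ u → z ≤ p) ∧ s * u ∈ E) with hF
  have hcover : E ⊆ S.biUnion (fun s => (F s).image (fun u => s * u)) := by
    intro m hm
    obtain ⟨hm1, hmN⟩ := hE m hm
    obtain ⟨s, u, hs, hs1, hu1, hmsu, hu⟩ := Pool.Agent.ARU.rough_split z m hm1
    have hsN : s ≤ N := by
      calc s = s * 1 := (mul_one s).symm
        _ ≤ s * u := Nat.mul_le_mul_left s hu1
        _ = m := hmsu.symm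
        _ ≤ N := hmN
    rw [Finset.mem_biUnion]
    refine ⟨s, ?_, ?_⟩
    · rw [hS, Finset.mem_filter, Finset.mem_Icc]
      exact ⟨⟨hs1, hsN⟩, hs⟩
    · rw [Finset.mem_image]
      refine ⟨u, ?_, hmsu.symm⟩
      simp only [hF, Finset.mem_filter, Finset.mem_Icc]
      refine ⟨⟨hu1, ?_⟩, hu, ?_⟩
      · rw [Nat.le_div_iff_mul_le (by omega)]
        calc u * s = s * u := mul_comm _ _
          _ = m := hmsu.symm
          _ ≤ N := hmN
      · rw [← hmsu]; exact hm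
  have hFs : ∀ s ∈ S, ((F s).card : ℝ) ≤ (N : ℝ) ^ (δ / 2) * ((N : ℝ) ^ σ * (s : ℝ) ^ (-σ)) := by
    intro s hs
    rw [hS, Finset.mem_filter, Finset.mem_Icc] at hs
    obtain ⟨⟨hs1, hsN⟩, _⟩ := hs
    have hs0 : (0 : ℝ) < s := by exact_mod_cast hs1
    have h1 := hone x N hNN₁ hx1 hx2 g hg s (N / s) (Nat.div_le_self N s) (F s)
      (fun u hu => by
        simp only [hF, Finset.mem_filter, Finset.mem_Icc] at hu
        exact hu.1)
      (fun u hu => by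
        simp only [hF, Finset.mem_filter, Finset.mem_Icc] at hu
        exact hu.2.1)
      (fun u hu => by
        simp only [hF, Finset.mem_filter, Finset.mem_Icc] at hu
        exact hbad (s * u) hu.2.2)
    refine h1.trans ?_
    apply mul_le_mul_of_nonneg_left _ (by positivity)
    have h4 : ((N / s : ℕ) : ℝ) ≤ (N : ℝ) / s := Nat.cast_div_le
    calc ((N / s : ℕ) : ℝ) ^ σ ≤ ((N : ℝ) / s) ^ σ :=
          Real.rpow_le_rpow (Nat.cast_nonneg _) h4 hσ0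
      _ = (N : ℝ) ^ σ * (s : ℝ) ^ (-σ) := by
          rw [Real.div_rpow hN0.le hs0.le, Real.rpow_neg hs0.le, div_eq_mul_inv]
  calc (E.card : ℝ) ≤ ((S.biUnion (fun s => (F s).image (fun u => s * u))).card : ℝ) := by
        exact_mod_cast Finset.card_le_card hcover
    _ ≤ ((∑ s ∈ S, ((F s).image (fun u => s * u)).card : ℕ) : ℝ) := by
        exact_mod_cast Finset.card_biUnion_le
    _ ≤ ∑ s ∈ S, ((F s).card : ℝ) := by
        push_cast
        apply Finset.sum_le_sum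
        intro s _
        exact_mod_cast Finset.card_image_le
    _ ≤ ∑ s ∈ S, (N : ℝ) ^ (δ / 2) * ((N : ℝ) ^ σ * (s : ℝ) ^ (-σ)) := Finset.sum_le_sum hFs
    _ = (N : ℝ) ^ (δ / 2) * (N : ℝ) ^ σ * ∑ s ∈ S, (s : ℝ) ^ (-σ) := by
        rw [Finset.mul_sum]
        apply Finset.sum_congr rfl
        intro s _
        ring
    _ ≤ (N : ℝ) ^ (δ / 2) * (N : ℝ) ^ σ * (N : ℝ) ^ (δ / 2 / 16) := by
        apply mul_le_mul_of_nonneg_left hsm (by positivity)
    _ = (N : ℝ) ^ (δ / 2 + σ + δ / 2 / 16) := by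
        rw [← Real.rpow_add hN0, ← Real.rpow_add hN0]
    _ ≤ (N : ℝ) ^ (σ + δ) := Real.rpow_le_rpow_of_exponent_le hNr1 (by linarith)

end Pool.Agent.ARS
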