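import Pool.Agent.ARS.Defs
import Pool.Agent.ARU.Rep2
import Pool.Agent.Helper6.ArtinBounds

set_option autoImplicit false

/-!
# ARS module RGT: one scale, rough variable, arbitrary range `x ≤ exp T`

The proof is the one of `Pool.Agent.ARU.scale_rough` (`ARU/Rgs.lean`), with simpler parameters.
Put `ℓ = log x`, `K = log M`, `r = ⌈2 ℓ / K⌉`, `R = r ^ (Nat.log z (M ^ r))`; `Rep E r R` by
`Pool.Agent.ARU.card_rep_rough` (`E` consists of `z`-rough numbers, see the proof there, products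
are in `[1, M^r]`).  `pi_lower` (`Helper6/ArtinBounds.lean`): `x / (2 ℓ) ≤ π(x)` for `x ≥ X₁`;
take `T₀ ≥ X₁, 53, 16/ε^2 + 3` etc., note `x ≥ M ≥ z ≥ T ≥ T₀`.
With threshold `ε π(x) ≥ ε x / (2 ℓ)` the sieve hypothesis gives, since `M^r ≤ x^2 M`
(`r K ≤ 2 ℓ + K`) and `x^2 + 4 π (M^r + 1) ≤ 26.5 x^2 M`:
`|E|^r ≤ R G^r (53 M x)`, `G = 4 ℓ^2 (1 + ℓ)^2 / ε^2`.
* `x ≤ exp (r K / 2)`, i.e. `x ≤ (M^(1/2))^r`;
* `r ≥ 20` (`ℓ ≥ 10 K`), so `M ≤ (M^(1/20))^r`, `53 ≤ 53 ^ r`, `53 ≤ T ≤ z^(1/20) ≤ M^(1/400)`;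
* `r ≤ 3 ℓ ≤ 3 T ≤ T^2 ≤ z^(1/10)` (`K ≥ 1`, `ℓ ≥ 1`), `Nat.log z (M^r) * log z ≤ r K`, so
  `R ≤ exp (r K / 10)`, i.e. `R ≤ (M^(1/10))^r`;
* `G ≤ 16 T^4 / ε^2 ≤ T^5 ≤ z^(1/4) ≤ M^(1/80)`.
The sum of the exponents is `1/2 + 1/20 + 1/10 + 1/80 + 1/400 < 7/10`; take `r`-th roots
(`le_of_pow_le_pow_left₀`).  It is convenient to write everything with `Real.exp` and `K` as in
`ARU/Rgs.lean`.
-/

namespace Pool.Agent.ARS

open Pool.Agent.Helper8.ArtinLS Pool.Agent.Helper6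

private lemma rgt_natLog {b n : ℕ} (hb : 2 ≤ b) (hn : n ≠ 0) :
    (Nat.log b n : ℝ) * Real.log b ≤ Real.log n := by
  have h1 : b ^ Nat.log b n ≤ n := Nat.pow_log_le_self b hn
  have h2 : ((b : ℝ)) ^ Nat.log b n ≤ n := by exact_mod_cast h1
  rw [← Real.log_pow]
  have hb0 : (0 : ℝ) < b := by exact_mod_cast (by omega : 0 < b)
  exact Real.log_le_log (by positivity) h2

theorem rough_T (ε : ℝ) (hε : 0 < ε) :
    ∃ T₀ : ℝ, 2 ≤ T₀ ∧ ∀ T : ℝ, T₀ ≤ T → ∀ x z M : ℕ, T ^ 20 ≤ z → z ^ 20 ≤ M → M ^ 10 ≤ x →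
      Real.log x ≤ T → ∀ g : ℕ → ℝ, Sieve x g → ∀ s : ℕ, ∀ E : Finset ℕ,
      (∀ m ∈ E, 1 ≤ m ∧ m ≤ M) → (∀ m ∈ E, ∀ p : ℕ, p.Prime → p ∣ m → z ≤ p) →
      (∀ m ∈ E, ε * Nat.primeCounting x ≤ |g (s * m)|) →
      (E.card : ℝ) ≤ (M : ℝ) ^ (7 / 10 : ℝ) := by
  obtain ⟨X₁, hX₁3, hX₁⟩ := pi_lower
  refine ⟨max (max (X₁ : ℝ) 56) (16 / ε ^ 2), ?_, ?_⟩
  · exact le_trans (by norm_num) ((le_max_right _ _).trans (le_max_left _ _))
  intro T hT x z M hTz hzM hMx hxT g hg s E hE hrough hbad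
  have hTX : (X₁ : ℝ) ≤ T := (le_max_left _ _).trans ((le_max_left _ _).trans hT)
  have hT56 : (56 : ℝ) ≤ T := (le_max_right _ _).trans ((le_max_left _ _).trans hT)
  have hTε : 16 / ε ^ 2 ≤ T := (le_max_right _ _).trans hT
  have hT0 : (0 : ℝ) < T := by linarith
  have hT1 : (1 : ℝ) ≤ T := by linarith
  have hTz' : T ≤ z := (le_self_pow₀ hT1 (by norm_num)).trans hTz
  have hz0 : (0 : ℝ) < z := by linarith
  have hz1 : (1 : ℝ) ≤ z := by linarith
  have hz2 : 2 ≤ z := by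
    have h1 : (2 : ℝ) ≤ z := by linarith
    exact_mod_cast h1
  have hzM' : (z : ℝ) ^ 20 ≤ M := by exact_mod_cast hzM
  have hMx' : (M : ℝ) ^ 10 ≤ x := by exact_mod_cast hMx
  have hzM1 : (z : ℝ) ≤ M := (le_self_pow₀ hz1 (by norm_num)).trans hzM'
  have hM1r : (1 : ℝ) ≤ M := by linarith
  have hM0 : (0 : ℝ) < M := by linarith
  have hM1 : 1 ≤ M := by exact_mod_cast hM1r
  have hMx1 : (M : ℝ) ≤ x := (le_self_pow₀ hM1r (by norm_num)).trans hMx'
  have hx1r : (1 : ℝ) ≤ x := by linarith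
  have hx0 : (0 : ℝ) < x := by linarith
  have hx1 : 1 ≤ x := by exact_mod_cast hx1r
  have hxX : X₁ ≤ x := by
    have h1 : (X₁ : ℝ) ≤ x := by linarith
    exact_mod_cast h1
  set LT := Real.log T with hLT
  set Z := Real.log z with hZ
  set K := Real.log M with hKdef
  set ℓ := Real.log x with hℓdef
  have hLT1 : 1 ≤ LT := by
    rw [hLT, Real.le_log_iff_exp_le hT0]
    have := Real.exp_one_lt_d9
    linarith
  have hZL : 20 * LT ≤ Z := by
    have h1 := Real.log_le_log (by positivity) hTz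
    rw [Real.log_pow] at h1
    exact_mod_cast h1
  have hKZ : 20 * Z ≤ K := by
    have h1 := Real.log_le_log (by positivity) hzM'
    rw [Real.log_pow] at h1
    exact_mod_cast h1
  have hℓK : 10 * K ≤ ℓ := by
    have h1 := Real.log_le_log (by positivity) hMx'
    rw [Real.log_pow] at h1
    exact_mod_cast h1
  have hZ0 : 0 < Z := by linarith
  have hK1 : 1 ≤ K := by linarith
  have hK0 : 0 < K := by linarith
  have hℓ1 : 1 ≤ ℓ := by linarith
  have hℓ0 : 0 < ℓ := by linarith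
  have hexpK : Real.exp K = M := Real.exp_log hM0
  have hexpl : Real.exp ℓ = x := Real.exp_log hx0
  have hexpT : Real.exp LT = T := Real.exp_log hT0
  have hπ := hX₁ x hxX
  -- the number r
  set r := ⌈2 * ℓ / K⌉₊ with hrdef
  have hr_lo : 2 * ℓ / K ≤ r := Nat.le_ceil _
  have hr_hi : (r : ℝ) < 2 * ℓ / K + 1 := Nat.ceil_lt_add_one (by positivity)
  have hrL_lo : 2 * ℓ ≤ r * K := by rwa [div_le_iff₀ hK0] at hr_lo
  have hrL_hi : r * K ≤ 2 * ℓ + K := by
    have h5 := mul_le_mul_of_nonneg_right hr_hi.le hK0.le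
    have h6 : (2 * ℓ / K + 1) * K = 2 * ℓ + K := by field_simp
    linarith
  have hr20 : (20 : ℝ) ≤ r := by
    have h5 : 20 ≤ 2 * ℓ / K := by
      rw [le_div_iff₀ hK0]
      linarith
    linarith
  have hr1 : 1 ≤ r := by
    have h5 : (1 : ℝ) ≤ r := by linarith
    exact_mod_cast h5
  have hr0 : (0 : ℝ) < r := by linarith
  have hrT : (r : ℝ) ≤ T ^ 2 := by
    have h5 : 2 * ℓ / K ≤ 2 * ℓ := div_le_self (by positivity) hK1
    have h6 : 56 * T ≤ T ^ 2 := by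
      rw [sq]
      exact mul_le_mul_of_nonneg_right hT56 hT0.le
    linarith
  have hlogr : Real.log r ≤ 2 * LT := by
    have h5 := Real.log_le_log hr0 hrT
    rw [Real.log_pow] at h5
    exact_mod_cast h5
  -- the representation bound
  set R := r ^ (Nat.log z (M ^ r)) with hR
  have hMr0 : M ^ r ≠ 0 := pow_ne_zero _ (by omega)
  have hRb : (R : ℝ) ≤ Real.exp (r * K / 10) := by
    have hk1 : (Nat.log z (M ^ r) : ℝ) * Z ≤ r * K := by
      have h5 := rgt_natLog hz2 hMr0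
      push_cast at h5
      rwa [Real.log_pow] at h5
    rw [hR]
    push_cast
    have e1 : (r : ℝ) ^ (Nat.log z (M ^ r)) = Real.exp ((Nat.log z (M ^ r) : ℝ) * Real.log r) := by
      rw [← Real.log_pow, Real.exp_log (by positivity)]
    rw [e1]
    apply Real.exp_le_exp.mpr
    have hk0 : (0 : ℝ) ≤ (Nat.log z (M ^ r) : ℝ) := Nat.cast_nonneg _
    calc (Nat.log z (M ^ r) : ℝ) * Real.log r
        ≤ (Nat.log z (M ^ r) : ℝ) * (Z / 10) :=
          mul_le_mul_of_nonneg_left (by linarith) hk0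
      _ = (Nat.log z (M ^ r) : ℝ) * Z / 10 := by ring
      _ ≤ r * K / 10 := by linarith
  have hRep : Rep E r R := by
    intro n
    have hprod : ∀ t ∈ (Fintype.piFinset fun _ : Fin r => E), 1 ≤ ∏ i, t i ∧ ∏ i, t i ≤ M ^ r := by
      intro t ht
      rw [Fintype.mem_piFinset] at ht
      constructor
      · exact Nat.one_le_iff_ne_zero.mpr (Finset.prod_ne_zero_iff.mpr fun i _ => by
          have := (hE _ (ht i)).1
          omega)
      · calc ∏ i, t i ≤ ∏ _i : Fin r, M := Finset.prod_le_prod' fun i _ => (hE _ (ht i)).2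
          _ = M ^ r := by simp
    by_cases hn : 1 ≤ n ∧ n ≤ M ^ r
    · refine (Pool.Agent.ARU.card_rep_rough r z n hr1 hz2 hn.1 E hrough).trans ?_
      rw [hR]
      exact Nat.pow_le_pow_right hr1 (Nat.log_mono_right hn.2)
    · have h5 : (Fintype.piFinset fun _ : Fin r => E).filter (fun t => ∏ i, t i = n) = ∅ := by
        rw [Finset.filter_eq_empty_iff]
        intro t ht h6
        rw [← h6] at hn
        exact hn (hprod t ht)
      rw [h5, Finset.card_empty]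
      exact Nat.zero_le _
  -- the threshold
  set W : ℝ := ε * Nat.primeCounting x with hW
  have hW0 : 0 ≤ W := by positivity
  have hmain := hg s M r R E hr1 (fun m hm => (hE m hm).2) hRep W hW0 hbad
  rw [← hℓdef] at hmain
  -- M ^ r ≤ x ^ 2 M
  have hMr : (M : ℝ) ^ r ≤ (x : ℝ) ^ 2 * M := by
    have h5 : (M : ℝ) ^ r = Real.exp (r * K) := by
      rw [hKdef, ← Real.log_pow, Real.exp_log (by positivity)]
    have h6 : (x : ℝ) ^ 2 * M = Real.exp (2 * ℓ + K) := by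
      rw [Real.exp_add, two_mul, Real.exp_add, hexpl, hexpK]
      ring
    rw [h5, h6]
    exact Real.exp_le_exp.mpr hrL_hi
  have hMr1 : (1 : ℝ) ≤ (M : ℝ) ^ r := one_le_pow₀ hM1r
  have hfac : (x : ℝ) ^ 2 + 4 * Real.pi * ((M : ℝ) ^ r + 1) ≤ 28 * ((x : ℝ) ^ 2 * M) := by
    have h5 : Real.pi < 3.15 := Real.pi_lt_d2
    have h6 : (x : ℝ) ^ 2 ≤ (x : ℝ) ^ 2 * M := le_mul_of_one_le_right (by positivity) hM1r
    have h7 : 4 * Real.pi * ((M : ℝ) ^ r + 1) ≤ 4 * 3.15 * (2 * ((x : ℝ) ^ 2 * M)) := by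
      apply mul_le_mul (by linarith) (by linarith) (by positivity) (by norm_num)
    have h8 : (0 : ℝ) ≤ (x : ℝ) ^ 2 * M := by positivity
    calc (x : ℝ) ^ 2 + 4 * Real.pi * ((M : ℝ) ^ r + 1)
        ≤ (x : ℝ) ^ 2 * M + 4 * 3.15 * (2 * ((x : ℝ) ^ 2 * M)) := add_le_add h6 h7
      _ = 26.2 * ((x : ℝ) ^ 2 * M) := by ring
      _ ≤ 28 * ((x : ℝ) ^ 2 * M) := mul_le_mul_of_nonneg_right (by norm_num) h8
  have hWlow : ε * x / (2 * ℓ) ≤ W := by
    rw [hW]
    calc ε * x / (2 * ℓ) = ε * (x / (2 * ℓ)) := by ring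
      _ ≤ ε * (Nat.primeCounting x : ℝ) := mul_le_mul_of_nonneg_left hπ hε.le
  set G := 4 * ℓ ^ 2 * (1 + ℓ) ^ 2 / ε ^ 2 with hGdef
  have hG0 : 0 < G := by positivity
  have hGT : ((x : ℝ) * (1 + ℓ)) ^ 2 ≤ G * W ^ 2 := by
    have h5 : (ε * x / (2 * ℓ)) ^ 2 ≤ W ^ 2 := pow_le_pow_left₀ (by positivity) hWlow 2
    calc ((x : ℝ) * (1 + ℓ)) ^ 2 = G * (ε * x / (2 * ℓ)) ^ 2 := by
          rw [hGdef]
          field_simp
          ring
      _ ≤ G * W ^ 2 := mul_le_mul_of_nonneg_left h5 hG0.le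
  have hWpos : 0 < W := lt_of_lt_of_le (by positivity) hWlow
  -- conclusion for the r-th power
  have hpow : (E.card : ℝ) ^ r ≤ R * G ^ r * (56 * M * x) := by
    have h5 : (x : ℝ) * ((E.card : ℝ) * W ^ 2) ^ r ≤
        2 * R * (G * W ^ 2) ^ r * (28 * ((x : ℝ) ^ 2 * M)) := by
      refine hmain.trans ?_
      refine mul_le_mul ?_ hfac (by positivity) (by positivity)
      exact mul_le_mul_of_nonneg_left (pow_le_pow_left₀ (by positivity) hGT r) (by positivity)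
    rw [mul_pow (E.card : ℝ) (W ^ 2) r, mul_pow G (W ^ 2) r] at h5
    have h6 : 0 < (x : ℝ) * (W ^ 2) ^ r := by positivity
    have h7 : (E.card : ℝ) ^ r * ((x : ℝ) * (W ^ 2) ^ r) ≤
        (R * G ^ r * (56 * M * x)) * ((x : ℝ) * (W ^ 2) ^ r) := by
      calc (E.card : ℝ) ^ r * ((x : ℝ) * (W ^ 2) ^ r)
          = (x : ℝ) * ((E.card : ℝ) ^ r * (W ^ 2) ^ r) := by ring
        _ ≤ 2 * R * (G ^ r * (W ^ 2) ^ r) * (28 * ((x : ℝ) ^ 2 * M)) := h5
        _ = _ := by ring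
    exact le_of_mul_le_mul_right h7 h6
  have hGb : G ≤ Real.exp (K / 80) := by
    have h5 : G ≤ T ^ 5 := by
      have h6 : 4 * ℓ ^ 2 * (1 + ℓ) ^ 2 ≤ 4 * T ^ 2 * (2 * T) ^ 2 := by
        have h7 : 1 + ℓ ≤ 2 * T := by linarith
        gcongr
      calc G ≤ 4 * T ^ 2 * (2 * T) ^ 2 / ε ^ 2 := by
            rw [hGdef]
            gcongr
        _ = 16 / ε ^ 2 * T ^ 4 := by ring
        _ ≤ T * T ^ 4 := by gcongr
        _ = T ^ 5 := by ring
    have h8 : T ^ 5 = Real.exp (5 * LT) := by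
      rw [← hexpT, ← Real.exp_nat_mul]
      norm_num
    rw [h8] at h5
    refine h5.trans (Real.exp_le_exp.mpr ?_)
    linarith
  have hlast : (56 : ℝ) * M * x ≤ Real.exp (K / 400 + K + ℓ) := by
    calc (56 : ℝ) * M * x ≤ T * M * x := by gcongr
      _ = Real.exp (LT + K + ℓ) := by
          rw [Real.exp_add, Real.exp_add, hexpK, hexpl, hexpT]
      _ ≤ _ := by
          refine Real.exp_le_exp.mpr ?_
          linarith
  have hfin : (E.card : ℝ) ^ r ≤ ((M : ℝ) ^ (7 / 10 : ℝ)) ^ r := by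
    refine hpow.trans ?_
    have h5 : ((M : ℝ) ^ (7 / 10 : ℝ)) ^ r = Real.exp (r * (K * (7 / 10))) := by
      rw [Real.rpow_def_of_pos hM0, ← Real.exp_nat_mul]
    have h6 : G ^ r ≤ Real.exp (r * (K / 80)) := by
      rw [Real.exp_nat_mul]
      exact pow_le_pow_left₀ hG0.le hGb r
    calc (R : ℝ) * G ^ r * (56 * M * x)
        ≤ Real.exp (r * K / 10) * Real.exp (r * (K / 80)) * Real.exp (K / 400 + K + ℓ) := by
          refine mul_le_mul (mul_le_mul hRb h6 (by positivity) (by positivity)) hlast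
            (by positivity) (by positivity)
      _ = Real.exp (r * K / 10 + r * (K / 80) + (K / 400 + K + ℓ)) := by
          rw [← Real.exp_add, ← Real.exp_add]
      _ ≤ ((M : ℝ) ^ (7 / 10 : ℝ)) ^ r := by
          rw [h5]
          refine Real.exp_le_exp.mpr ?_
          have h7 : 20 * K ≤ r * K := mul_le_mul_of_nonneg_right hr20 hK0.le
          have h8 : r * (K / 80) = r * K / 80 := by ring
          have h9 : r * (K * (7 / 10)) = r * K * (7 / 10) := by ring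
          rw [h8, h9]
          linarith
  exact le_of_pow_le_pow_left₀ (by omega) (by positivity) hfin

end Pool.Agent.ARS
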