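import Pool.Agent.ARS.Rgt
import Pool.Agent.ARU.Smo

set_option autoImplicit false

/-!
# ARS module RST: one scale, arbitrary range `x ≤ exp T`, away from the nearly smooth numbers

Structure of the proof as in `Pool.Agent.ARU.scale_four` (`ARU/Rg4.lean`).  Every `m ∈ E` is
`m = s u`, `s` `z`-smooth, `u` `z`-rough (`Pool.Agent.ARU.rough_split`), and `¬ NSm` gives
`z ^ 400 * s ≤ N`.  For such `s` let `M = N / s ≥ z ^ 400 ≥ z ^ 20` (`M ^ 10 ≤ N ^ 10 ≤ x`); by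
`rough_T` (use it as a stub) there are at most `M^(7/10) ≤ (N/s)^(7/10)` numbers `u`.  With
`σ = 1 - 1 / log z ≥ 8/10` (`log z ≥ 5`: `T₀ ≥ 2` large):
`(N/s)^(7/10) = (N/s)^σ (N/s)^(-(σ - 7/10)) ≤ N^σ s^(-σ) z^(-40)`,
and `∑ s^(-σ) ≤ exp (4 (z^(1-σ) (1 + log z)))` (`Pool.Agent.ARU.smooth_sum`), `z^(1-σ) = exp 1`,
`4 e ≤ 11`, so the sum is at most `exp (11 + 11 log z) ≤ z ^ 14` (`log z ≥ 5`).  Total
`N^σ z^(-26) ≤ N^σ / z`.
-/

namespace Pool.Agent.ARS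

open Pool.Agent.Helper8.ArtinLS Pool.Agent.Helper6

theorem scale_T (ε : ℝ) (hε : 0 < ε) :
    ∃ T₀ : ℝ, 2 ≤ T₀ ∧ ∀ T : ℝ, T₀ ≤ T → ∀ x z N : ℕ, T ^ 20 ≤ z → N ^ 10 ≤ x →
      Real.log x ≤ T → ∀ g : ℕ → ℝ, Sieve x g → ∀ E : Finset ℕ,
      (∀ m ∈ E, 1 ≤ m ∧ m ≤ N ∧ ¬ NSm z 400 N m) →
      (∀ m ∈ E, ε * Nat.primeCounting x ≤ |g m|) →
      (E.card : ℝ) ≤ (N : ℝ) ^ (1 - 1 / Real.log z) / z := by
  classical
  obtain ⟨T₀, hT₀2, hrough⟩ := rough_T ε hε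
  refine ⟨T₀, hT₀2, ?_⟩
  intro T hT x z N hz hNx hlx g hg E hE hbad
  have hT2 : (2 : ℝ) ≤ T := hT₀2.trans hT
  have hzr : (2 : ℝ) ^ 20 ≤ z := (pow_le_pow_left₀ (by norm_num) hT2 20).trans hz
  have hz0 : (0 : ℝ) < z := lt_of_lt_of_le (by norm_num) hzr
  have hz1 : 1 ≤ z := by exact_mod_cast hz0
  have hzr1 : (1 : ℝ) ≤ z := by exact_mod_cast hz1
  have hlogz : 13 ≤ Real.log z := by
    have h1 : Real.log ((2 : ℝ) ^ 20) ≤ Real.log z := Real.log_le_log (by norm_num) hzr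
    rw [Real.log_pow] at h1
    have h2 := Real.log_two_gt_d9
    push_cast at h1
    linarith
  set L : ℝ := Real.log z with hL
  have hL0 : 0 < L := by linarith
  set σ : ℝ := 1 - 1 / L with hσ
  have hinv : 1 / L ≤ 1 / 10 := by
    apply one_div_le_one_div_of_le (by norm_num)
    linarith
  have hinv0 : 0 < 1 / L := by positivity
  have hσ9 : 9 / 10 ≤ σ := by rw [hσ]; linarith
  have hσ1 : σ < 1 := by rw [hσ]; linarith
  have hσ0 : 0 ≤ σ := by linarith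
  set S : Finset ℕ := (Finset.Icc 1 N).filter (fun s => s ∈ Nat.smoothNumbers z) with hS
  set F : ℕ → Finset ℕ := fun s => (Finset.Icc 1 (N / s)).filter
    (fun u => (∀ p : ℕ, p.Prime → p ∣ u → z ≤ p) ∧ s * u ∈ E ∧ z ^ 400 * s ≤ N) with hF
  have hcover : E ⊆ S.biUnion (fun s => (F s).image (fun u => s * u)) := by
    intro m hm
    obtain ⟨hm1, hmN, hns⟩ := hE m hm
    obtain ⟨s, u, hs, hs1, hu1, hmsu, hu⟩ := Pool.Agent.ARU.rough_split z m hm1
    have hsN : s ≤ N := by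
      calc s = s * 1 := (mul_one s).symm
        _ ≤ s * u := Nat.mul_le_mul_left s hu1
        _ = m := hmsu.symm
        _ ≤ N := hmN
    have hlt : z ^ 400 * s ≤ N := by
      by_contra hcon
      exact hns ⟨s, u, hmsu, hs, hu, not_le.1 hcon⟩
    rw [Finset.mem_biUnion]
    refine ⟨s, ?_, ?_⟩
    · rw [hS, Finset.mem_filter, Finset.mem_Icc]
      exact ⟨⟨hs1, hsN⟩, hs⟩
    · rw [Finset.mem_image]
      refine ⟨u, ?_, hmsu.symm⟩
      simp only [hF, Finset.mem_filter, Finset.mem_Icc]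
      refine ⟨⟨hu1, ?_⟩, hu, ?_, hlt⟩
      · rw [Nat.le_div_iff_mul_le (by omega)]
        calc u * s = s * u := mul_comm _ _
          _ = m := hmsu.symm
          _ ≤ N := hmN
      · rw [← hmsu]; exact hm
  have hFs : ∀ s ∈ S, ((F s).card : ℝ) ≤
      (N : ℝ) ^ σ * ((z : ℝ) ^ 40)⁻¹ * (s : ℝ) ^ (-σ) := by
    intro s hs
    rw [hS, Finset.mem_filter, Finset.mem_Icc] at hs
    obtain ⟨⟨hs1, hsN⟩, _⟩ := hs
    have hs0 : (0 : ℝ) < s := by exact_mod_cast hs1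
    rcases (F s).eq_empty_or_nonempty with hemp | hne
    · rw [hemp, Finset.card_empty, Nat.cast_zero]
      positivity
    obtain ⟨u₀, hu₀⟩ := hne
    have hlt : z ^ 400 * s ≤ N := by
      simp only [hF, Finset.mem_filter] at hu₀
      exact hu₀.2.2.2
    have hMge : z ^ 400 ≤ N / s := by
      rw [Nat.le_div_iff_mul_le (by omega)]
      exact hlt
    have hM20 : z ^ 20 ≤ N / s :=
      (Nat.pow_le_pow_right (by omega) (by norm_num)).trans hMge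
    have hM10 : (N / s) ^ 10 ≤ x :=
      (Nat.pow_le_pow_left (Nat.div_le_self N s) 10).trans hNx
    have h1 := hrough T hT x z (N / s) hz hM20 hM10 hlx g hg s (F s)
      (fun u hu => by
        simp only [hF, Finset.mem_filter, Finset.mem_Icc] at hu
        exact hu.1)
      (fun u hu => by
        simp only [hF, Finset.mem_filter, Finset.mem_Icc] at hu
        exact hu.2.1)
      (fun u hu => by
        simp only [hF, Finset.mem_filter, Finset.mem_Icc] at hu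
        exact hbad (s * u) hu.2.2.1)
    refine h1.trans ?_
    have h4 : ((N / s : ℕ) : ℝ) ≤ (N : ℝ) / s := Nat.cast_div_le
    set y : ℝ := (N : ℝ) / s with hy
    have hzy : (z : ℝ) ^ 400 ≤ y := by
      rw [hy, le_div_iff₀ hs0]
      exact_mod_cast hlt
    have hz400 : (1 : ℝ) ≤ (z : ℝ) ^ 400 := one_le_pow₀ hzr1
    have hy1 : 1 ≤ y := hz400.trans hzy
    have hy0 : 0 < y := by linarith
    have h5 : ((N / s : ℕ) : ℝ) ^ (7 / 10 : ℝ) ≤ y ^ (7 / 10 : ℝ) :=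
      Real.rpow_le_rpow (Nat.cast_nonneg _) h4 (by norm_num)
    have h6 : y ^ (7 / 10 : ℝ) ≤ y ^ σ * y ^ (-(1 / 10) : ℝ) := by
      rw [← Real.rpow_add hy0]
      exact Real.rpow_le_rpow_of_exponent_le hy1 (by linarith)
    have h7 : y ^ (-(1 / 10) : ℝ) ≤ ((z : ℝ) ^ 40)⁻¹ := by
      rw [Real.rpow_neg hy0.le]
      apply inv_anti₀ (by positivity)
      have h8 : ((z : ℝ) ^ 400) ^ (1 / 10 : ℝ) ≤ y ^ (1 / 10 : ℝ) :=
        Real.rpow_le_rpow (by positivity) hzy (by norm_num)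
      have h9 : ((z : ℝ) ^ 400) ^ (1 / 10 : ℝ) = (z : ℝ) ^ 40 := by
        rw [← Real.rpow_natCast, ← Real.rpow_mul hz0.le, ← Real.rpow_natCast]
        norm_num
      rw [← h9]
      exact h8
    have h10 : y ^ σ = (N : ℝ) ^ σ * (s : ℝ) ^ (-σ) := by
      rw [hy, Real.div_rpow (Nat.cast_nonneg _) hs0.le, Real.rpow_neg hs0.le, div_eq_mul_inv]
    calc ((N / s : ℕ) : ℝ) ^ (7 / 10 : ℝ) ≤ y ^ σ * y ^ (-(1 / 10) : ℝ) := h5.trans h6
      _ ≤ y ^ σ * ((z : ℝ) ^ 40)⁻¹ := mul_le_mul_of_nonneg_left h7 (by positivity)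
      _ = (N : ℝ) ^ σ * ((z : ℝ) ^ 40)⁻¹ * (s : ℝ) ^ (-σ) := by rw [h10]; ring
  have hsum := Pool.Agent.ARU.smooth_sum σ (by linarith) hσ1 z N hz1
  have hexp : Real.exp (4 * ((z : ℝ) ^ (1 - σ) * (1 + Real.log z))) ≤ (z : ℝ) ^ 14 := by
    have h1 : (z : ℝ) ^ (1 - σ) = Real.exp 1 := by
      rw [Real.rpow_def_of_pos hz0, hσ, ← hL]
      congr 1
      field_simp
      ring
    have h2 : (z : ℝ) ^ 14 = Real.exp (14 * L) := by
      rw [mul_comm, Real.exp_mul, hL, Real.exp_log hz0]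
      norm_cast
    rw [h1, h2, Real.exp_le_exp, ← hL]
    have h3 := Real.exp_one_lt_d9
    nlinarith
  calc (E.card : ℝ) ≤ ((S.biUnion (fun s => (F s).image (fun u => s * u))).card : ℝ) := by
        exact_mod_cast Finset.card_le_card hcover
    _ ≤ ((∑ s ∈ S, ((F s).image (fun u => s * u)).card : ℕ) : ℝ) := by
        exact_mod_cast Finset.card_biUnion_le
    _ ≤ ∑ s ∈ S, ((F s).card : ℝ) := by
        push_cast
        apply Finset.sum_le_sum
        intro s _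
        exact_mod_cast Finset.card_image_le
    _ ≤ ∑ s ∈ S, (N : ℝ) ^ σ * ((z : ℝ) ^ 40)⁻¹ * (s : ℝ) ^ (-σ) := Finset.sum_le_sum hFs
    _ = (N : ℝ) ^ σ * ((z : ℝ) ^ 40)⁻¹ * ∑ s ∈ S, (s : ℝ) ^ (-σ) := by
        rw [Finset.mul_sum]
    _ ≤ (N : ℝ) ^ σ * ((z : ℝ) ^ 40)⁻¹ * (z : ℝ) ^ 14 := by
        apply mul_le_mul_of_nonneg_left (hsum.trans hexp) (by positivity)
    _ ≤ (N : ℝ) ^ σ / z := by
        rw [mul_assoc, div_eq_mul_inv]
        apply mul_le_mul_of_nonneg_left _ (by positivity)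
        rw [inv_mul_le_iff₀ (by positivity)]
        have h1 : (z : ℝ) ^ 40 * (z : ℝ)⁻¹ = (z : ℝ) ^ 39 := by
          field_simp
        rw [h1]
        exact pow_le_pow_right₀ hzr1 (by norm_num)

end Pool.Agent.ARS
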